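import Mathlib.NumberTheory.NumberField.Units.DirichletTheorem
import Mathlib.GroupTheory.SpecificGroups.Cyclic
import Mathlib.Tactic

/-! The number of classes of units modulo `m`-th powers (Dirichlet's theorem). -/

set_option autoImplicit false

open NumberField NumberField.Units

namespace Pool.Agent.H.MP_ac3185_nt

universe u

theorem unitM_int {d a b : ℕ} (ha : a < d) (hb : b < d) (h : (d : ℤ) ∣ (a : ℤ) - b) : a = b := by
  have h1 : (a : ℤ) % d = (b : ℤ) % d :=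
    Int.emod_eq_emod_iff_emod_sub_eq_zero.2 (Int.emod_eq_zero_of_dvd h)
  rw [Int.emod_eq_of_lt (by positivity) (by exact_mod_cast ha),
    Int.emod_eq_of_lt (by positivity) (by exact_mod_cast hb)] at h1
  exact_mod_cast h1

/-- The solutions of `z ^ m = 1` in a number field: there are `gcd(n, m)` of them, `n` the number of
roots of unity. -/
theorem unitM_roots (E : Type u) [Field E] [NumberField E] {m : ℕ} (hm : m ≠ 0) :
    Nat.card {z : E // z ^ m = 1} = (Nat.card (torsion E)).gcd m := by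
  rw [← IsCyclic.card_powMonoidHom_ker (G := torsion E) m]
  refine (Nat.card_congr (Equiv.ofBijective
    (fun x : (powMonoidHom m : torsion E →* torsion E).ker =>
      (⟨(((x : torsion E) : (𝓞 E)ˣ) : E), ?_⟩ : {z : E // z ^ m = 1})) ⟨?_, ?_⟩)).symm
  · have h : (x : torsion E) ^ m = 1 := x.2
    have h1 : (((x : torsion E) : (𝓞 E)ˣ) ^ m : (𝓞 E)ˣ) = 1 := by
      rw [← SubmonoidClass.coe_pow, h]
      rfl
    rw [← coe_pow, h1, coe_one]
  · intro x y h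
    have h1 := congrArg (fun z : {z : E // z ^ m = 1} => (z : E)) h
    exact Subtype.ext (Subtype.ext (coe_injective E h1))
  · rintro ⟨z, hz⟩
    have hint : IsIntegral ℤ z := IsIntegral.of_pow (Nat.pos_of_ne_zero hm) (by rw [hz]; exact isIntegral_one)
    have hz0 : z ≠ 0 := by
      rintro rfl
      rw [zero_pow hm] at hz
      exact zero_ne_one hz
    have hint' : IsIntegral ℤ z⁻¹ := IsIntegral.of_pow (Nat.pos_of_ne_zero hm)
      (by rw [inv_pow, hz, inv_one]; exact isIntegral_one)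
    let u : (𝓞 E)ˣ := ⟨⟨z, hint⟩, ⟨z⁻¹, hint'⟩, RingOfIntegers.ext (mul_inv_cancel₀ hz0),
      RingOfIntegers.ext (inv_mul_cancel₀ hz0)⟩
    have hum : u ^ m = 1 := coe_injective E ((coe_pow u m).trans (hz.trans coe_one.symm))
    have hut : u ∈ torsion E := by
      show u ∈ CommGroup.torsion (𝓞 E)ˣ
      exact isOfFinOrder_iff_pow_eq_one.2 ⟨m, Nat.pos_of_ne_zero hm, hum⟩
    exact ⟨⟨⟨u, hut⟩, Subtype.ext hum⟩, rfl⟩

/-- There are exactly `m ^ r * w` classes of units modulo `m`-th powers, `r` the rank of the group of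
units, `w` the number of the solutions of `z ^ m = 1`. -/
theorem unitM (E : Type u) [Field E] [NumberField E] {m : ℕ} (hm : m ≠ 0) :
    ∃ T : Finset (𝓞 E)ˣ, T.card = m ^ rank E * Nat.card {z : E // z ^ m = 1} ∧
      (∀ ε : (𝓞 E)ˣ, ∃ t ∈ T, ∃ u : (𝓞 E)ˣ, ε = t * u ^ m) ∧
      ∀ t ∈ T, ∀ t' ∈ T, ∀ u : (𝓞 E)ˣ, t = t' * u ^ m → t = t' := by
  classical
  obtain ⟨ζ, hζ⟩ := IsCyclic.exists_generator (α := torsion E)
  have hord : orderOf ζ = Nat.card (torsion E) := orderOf_eq_card_of_forall_mem_zpowers hζ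
  set d : ℕ := (Nat.card (torsion E)).gcd m with hd
  have hdm : (d : ℤ) ∣ m := Int.natCast_dvd_natCast.2 (Nat.gcd_dvd_right _ _)
  have hdo : (d : ℤ) ∣ orderOf ζ := by
    rw [hord]
    exact Int.natCast_dvd_natCast.2 (Nat.gcd_dvd_left _ _)
  have hd0 : 0 < d := Nat.gcd_pos_of_pos_right _ (Nat.pos_of_ne_zero hm)
  have hbez : ∃ a b : ℤ, (d : ℤ) = orderOf ζ * a + m * b :=
    ⟨(Nat.card (torsion E)).gcdA m, (Nat.card (torsion E)).gcdB m, by
      rw [hd, hord]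
      exact Nat.gcd_eq_gcd_ab _ _⟩
  obtain ⟨A, B, hAB⟩ := hbez
  let g : Fin d × (Fin (rank E) → Fin m) → (𝓞 E)ˣ := fun p =>
    ((ζ ^ ((p.1 : ℕ) : ℤ) : torsion E) : (𝓞 E)ˣ) * ∏ i, fundSystem E i ^ ((p.2 i : ℕ) : ℤ)
  have hform : ∀ u : (𝓞 E)ˣ, ∃ (k : ℤ) (e : Fin (rank E) → ℤ),
      u = ((ζ ^ k : torsion E) : (𝓞 E)ˣ) * ∏ i, fundSystem E i ^ e i := fun u => by
    obtain ⟨⟨z, e⟩, h, -⟩ := exist_unique_eq_mul_prod E u
    obtain ⟨k, hk⟩ := Subgroup.mem_zpowers_iff.1 (hζ z)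
    exact ⟨k, e, by rw [hk]; exact h⟩
  have huniq : ∀ (k k' : ℤ) (e e' : Fin (rank E) → ℤ),
      ((ζ ^ k : torsion E) : (𝓞 E)ˣ) * ∏ i, fundSystem E i ^ e i =
        ((ζ ^ k' : torsion E) : (𝓞 E)ˣ) * ∏ i, fundSystem E i ^ e' i →
      (orderOf ζ : ℤ) ∣ k - k' ∧ e = e' := fun k k' e e' h => by
    have h1 := (exist_unique_eq_mul_prod E
      (((ζ ^ k : torsion E) : (𝓞 E)ˣ) * ∏ i, fundSystem E i ^ e i)).unique
      (y₁ := (ζ ^ k, e)) (y₂ := (ζ ^ k', e')) rfl h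
    have h2 : ζ ^ k = ζ ^ k' := congrArg Prod.fst h1
    have h3 : e = e' := congrArg Prod.snd h1
    refine ⟨?_, h3⟩
    rw [orderOf_dvd_iff_zpow_eq_one, zpow_sub, h2, mul_inv_cancel]
  have hprod : ∀ (k k' : ℤ) (e e' : Fin (rank E) → ℤ),
      (((ζ ^ k : torsion E) : (𝓞 E)ˣ) * ∏ i, fundSystem E i ^ e i) *
        (((ζ ^ k' : torsion E) : (𝓞 E)ˣ) * ∏ i, fundSystem E i ^ e' i) ^ m =
      ((ζ ^ (k + m * k') : torsion E) : (𝓞 E)ˣ) * ∏ i, fundSystem E i ^ (e i + m * e' i) :=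
    fun k k' e e' => by
    have h1 : ((ζ ^ (k + m * k') : torsion E) : (𝓞 E)ˣ) =
        ((ζ ^ k : torsion E) : (𝓞 E)ˣ) * ((ζ ^ k' : torsion E) : (𝓞 E)ˣ) ^ m := by
      rw [zpow_add, mul_comm (m : ℤ), zpow_mul, zpow_natCast (ζ ^ k') m]
      rfl
    have h2 : ∏ i, fundSystem E i ^ (e i + m * e' i) =
        (∏ i, fundSystem E i ^ e i) * (∏ i, fundSystem E i ^ e' i) ^ m := by
      rw [← Finset.prod_pow, ← Finset.prod_mul_distrib]
      refine Finset.prod_congr rfl fun i _ => ?_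
      rw [zpow_add, mul_comm (m : ℤ), zpow_mul, zpow_natCast (fundSystem E i ^ e' i) m]
    rw [h1, h2, mul_pow, mul_mul_mul_comm]
  have hsep : ∀ p p' (u : (𝓞 E)ˣ), g p = g p' * u ^ m → p = p' := fun p p' u h => by
    obtain ⟨k, e, rfl⟩ := hform u
    have h1 := huniq _ _ _ _ (h.trans (hprod _ _ _ _))
    refine Prod.ext ?_ (funext fun i => ?_)
    · have h2 : (d : ℤ) ∣ ((p.1 : ℕ) : ℤ) - (((p'.1 : ℕ) : ℤ) + m * k) := hdo.trans h1.1
      have h3 : (d : ℤ) ∣ ((p.1 : ℕ) : ℤ) - ((p'.1 : ℕ) : ℤ) := by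
        have h4 := dvd_add h2 (hdm.mul_right k)
        have h5 : ((p.1 : ℕ) : ℤ) - (((p'.1 : ℕ) : ℤ) + m * k) + m * k =
            ((p.1 : ℕ) : ℤ) - ((p'.1 : ℕ) : ℤ) := by ring
        rwa [h5] at h4
      exact Fin.ext (unitM_int p.1.isLt p'.1.isLt h3)
    · have h2 : ((p.2 i : ℕ) : ℤ) = (p'.2 i : ℕ) + m * e i := congrFun h1.2 i
      refine Fin.ext (unitM_int (p.2 i).isLt (p'.2 i).isLt ⟨e i, ?_⟩)
      rw [h2]
      ring
  have hinj : Function.Injective g := fun p p' h => hsep p p' 1 (by rw [one_pow, mul_one]; exact h)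
  refine ⟨Finset.univ.image g, ?_, fun ε => ?_, ?_⟩
  · rw [Finset.card_image_of_injective _ hinj, Finset.card_univ, Fintype.card_prod,
      Fintype.card_fun, Fintype.card_fin, Fintype.card_fin, Fintype.card_fin, unitM_roots E hm,
      mul_comm]
  · obtain ⟨k, e, rfl⟩ := hform ε
    have hmod : ∀ (c : ℕ), 0 < c → ∀ n : ℤ, ∃ (j : Fin c) (q : ℤ), n = ((j : ℕ) : ℤ) + c * q :=
      fun c hc n => by
      have h1 : 0 ≤ n % c := Int.emod_nonneg _ (by exact_mod_cast hc.ne')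
      have h2 : n % c < c := Int.emod_lt_of_pos _ (by exact_mod_cast hc)
      refine ⟨⟨(n % c).toNat, ?_⟩, n / c, ?_⟩
      · omega
      · show n = (((n % c).toNat : ℕ) : ℤ) + c * (n / c)
        rw [Int.toNat_of_nonneg h1]
        exact (Int.emod_add_mul_ediv n c).symm
    obtain ⟨j, q, hj⟩ := hmod d hd0 k
    choose J Q hJ using fun i => hmod m (Nat.pos_of_ne_zero hm) (e i)
    refine ⟨g (j, J), Finset.mem_image_of_mem _ (Finset.mem_univ _),
      ((ζ ^ (B * q) : torsion E) : (𝓞 E)ˣ) * ∏ i, fundSystem E i ^ Q i, ?_⟩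
    have h1 := hprod (j : ℕ) (B * q) (fun i => ((J i : ℕ) : ℤ)) Q
    refine Eq.trans ?_ h1.symm
    have h2 : ζ ^ k = ζ ^ (((j : ℕ) : ℤ) + m * (B * q)) := by
      have h3 : k = ((j : ℕ) : ℤ) + m * (B * q) + orderOf ζ * (A * q) := by
        rw [hj, hAB]
        ring
      rw [h3, zpow_add, zpow_mul, zpow_natCast, pow_orderOf_eq_one, one_zpow, mul_one]
    rw [← h2]
    congr 1
    exact Finset.prod_congr rfl fun i _ => by rw [← hJ i]
  · intro t ht t' ht' u h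
    obtain ⟨p, -, rfl⟩ := Finset.mem_image.1 ht
    obtain ⟨p', -, rfl⟩ := Finset.mem_image.1 ht'
    rw [hsep p p' u h]

end Pool.Agent.H.MP_ac3185_nt
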