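import Pool.Agent.H.MP_ac3185_nt.V2.Val
import Pool.Agent.H.MP_ac3185_nt.V9.UnitM

/-! The number of classes modulo `m`-th powers of the elements of a number field whose valuations are
divisible by `m`. -/

set_option autoImplicit false

open NumberField IsDedekindDomain UniqueFactorizationMonoid
open scoped nonZeroDivisors

namespace Pool.Agent.H.MP_ac3185_nt

universe u

section sel

variable {M : Type u} [Field M] [NumberField M]

/-- An integer with valuations divisible by `m` generates the `m`-th power of an ideal. -/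
theorem selM_pow {m : ℕ} {c : 𝓞 M} (hc : c ≠ 0)
    (h : ∀ w : HeightOneSpectrum (𝓞 M), (m : ℤ) ∣ vOrd w (c : M)) :
    ∃ J : Ideal (𝓞 M), Ideal.span {c} = J ^ m := by
  classical
  have hs : Ideal.span {c} ≠ 0 := by
    rwa [Ne, Ideal.zero_eq_bot, Ideal.span_singleton_eq_bot]
  obtain ⟨s, hs1⟩ := Multiset.exists_smul_of_dvd_count (normalizedFactors (Ideal.span {c}))
    (k := m) (by
      intro P hP
      have hPp : Prime P := prime_of_normalized_factor P hP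
      have hw := h ⟨P, Ideal.isPrime_of_prime hPp, hPp.ne_zero⟩
      rw [vOrd_int _ hc] at hw
      exact_mod_cast hw)
  have h1 : (normalizedFactors (Ideal.span {c})).prod = Ideal.span {c} :=
    associated_iff_eq.1 (prod_normalizedFactors hs)
  exact ⟨s.prod, by rw [← h1, hs1, Multiset.prod_nsmul]⟩

theorem selM_span {m : ℕ} (x c : 𝓞 M) {J : Ideal (𝓞 M)} (h : Ideal.span {c} = J ^ m) :
    Ideal.span {x ^ m * c} = (Ideal.span {x} * J) ^ m := by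
  rw [← Ideal.span_singleton_mul_span_singleton, ← Ideal.span_singleton_pow, h, mul_pow]

/-- Two integers which generate `m`-th powers of ideals in the same class differ by a unit and an
`m`-th power. -/
theorem selM_class {m : ℕ} {c c' : 𝓞 M} {J J' : (Ideal (𝓞 M))⁰}
    (h : Ideal.span {c} = (J : Ideal (𝓞 M)) ^ m) (h' : Ideal.span {c'} = (J' : Ideal (𝓞 M)) ^ m)
    (hJ : ClassGroup.mk0 J = ClassGroup.mk0 J') :
    ∃ (ε : (𝓞 M)ˣ) (u : M), u ≠ 0 ∧ (c : M) = ((ε : 𝓞 M) : M) * (c' : M) * u ^ m := by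
  obtain ⟨x, y, hx, hy, hxy⟩ := ClassGroup.mk0_eq_mk0_iff.1 hJ
  have h1 : Ideal.span {y ^ m * c'} = Ideal.span {x ^ m * c} := by
    rw [selM_span y c' h', selM_span x c h, hxy]
  obtain ⟨ε, hε⟩ := Ideal.span_singleton_eq_span_singleton.1 h1
  have hxM : (x : M) ≠ 0 := fun h => hx (RingOfIntegers.ext h)
  have hyM : (y : M) ≠ 0 := fun h => hy (RingOfIntegers.ext h)
  refine ⟨ε, (y : M) / x, div_ne_zero hyM hxM, ?_⟩
  have h2 : ((y ^ m * c' * (ε : 𝓞 M) : 𝓞 M) : M) = ((x ^ m * c : 𝓞 M) : M) := by rw [hε]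
  have h3 : (y : M) ^ m * c' * ((ε : 𝓞 M) : M) = (x : M) ^ m * c := h2
  rw [div_pow]
  have hxm : (x : M) ^ m ≠ 0 := pow_ne_zero m hxM
  field_simp
  linear_combination -h3

/-- A generator of the `m`-th power of an ideal has valuations divisible by `m`. -/
theorem selM_dvd {m : ℕ} {c : 𝓞 M} (hc : c ≠ 0) {J : Ideal (𝓞 M)} (h : Ideal.span {c} = J ^ m)
    (w : HeightOneSpectrum (𝓞 M)) : (m : ℤ) ∣ vOrd w (c : M) := by
  classical
  rw [vOrd_int w hc, h, normalizedFactors_pow, Multiset.count_nsmul, Nat.cast_mul]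
  exact dvd_mul_right _ _

theorem selM_unit (ε : (𝓞 M)ˣ) (w : HeightOneSpectrum (𝓞 M)) :
    vOrd w ((ε : 𝓞 M) : M) = 0 := by
  classical
  rw [vOrd_int w ε.ne_zero, Ideal.span_singleton_eq_top.2 ε.isUnit, ← Ideal.one_eq_top,
    normalizedFactors_one]
  rfl

/-- If the `m`-th power of an element is a unit of the ring of integers, then it is a unit. -/
theorem selM_root {m : ℕ} (hm : m ≠ 0) {ε : (𝓞 M)ˣ} {u : M} (h : u ^ m = ((ε : 𝓞 M) : M)) :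
    ∃ η : (𝓞 M)ˣ, ((η : 𝓞 M) : M) = u := by
  have h1 : ∀ (δ : 𝓞 M) (v : M), v ^ m = (δ : M) → ∃ y : 𝓞 M, (y : M) = v := fun δ v hv => by
    have h2 : IsIntegral ℤ (v ^ m) := by
      rw [hv]
      exact δ.isIntegral_coe
    exact ⟨⟨v, IsIntegral.of_pow (Nat.pos_of_ne_zero hm) h2⟩, rfl⟩
  obtain ⟨y, hy⟩ := h1 ε u h
  have hεε : ((ε : 𝓞 M) : M) * (((ε⁻¹ : (𝓞 M)ˣ) : 𝓞 M) : M) = 1 := by
    rw [← map_mul, ← Units.val_mul, mul_inv_cancel, Units.val_one, map_one]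
  have hu : u ≠ 0 := by
    rintro rfl
    rw [← h, zero_pow hm, zero_mul] at hεε
    exact zero_ne_one hεε
  obtain ⟨z, hz⟩ := h1 ((ε⁻¹ : (𝓞 M)ˣ) : 𝓞 M) u⁻¹ (by
    rw [inv_pow, h]
    exact inv_eq_of_mul_eq_one_right hεε)
  refine ⟨⟨y, z, RingOfIntegers.ext ?_, RingOfIntegers.ext ?_⟩, hy⟩
  · show (y : M) * (z : M) = 1
    rw [hy, hz, mul_inv_cancel₀ hu]
  · show (z : M) * (y : M) = 1
    rw [hy, hz, inv_mul_cancel₀ hu]

end sel

/-- The elements with valuations divisible by `m` consist of exactly `|Cl[m]| m ^ r w` classes modulo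
`m`-th powers, `r` the rank of the group of units, `w` the number of the solutions of `z ^ m = 1`. -/
theorem selCardM (E : Type u) [Field E] [NumberField E] {m : ℕ} (hm : m ≠ 0) :
    ∃ T : Finset E, T.card = Nat.card {x : ClassGroup (𝓞 E) // x ^ m = 1} *
        (m ^ Units.rank E * Nat.card {z : E // z ^ m = 1}) ∧
      (∀ t ∈ T, t ≠ 0 ∧ ∀ w : HeightOneSpectrum (𝓞 E), (m : ℤ) ∣ vOrd w t) ∧
      (∀ c : E, c ≠ 0 → (∀ w : HeightOneSpectrum (𝓞 E), (m : ℤ) ∣ vOrd w c) →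
        ∃ t ∈ T, ∃ u : E, u ≠ 0 ∧ c = t * u ^ m) ∧
      ∀ t ∈ T, ∀ t' ∈ T, ∀ u : E, t = t' * u ^ m → t = t' := by
  classical
  obtain ⟨U, hU, hcov, hsep⟩ := unitM E hm
  have hex : ∀ κ : {x : ClassGroup (𝓞 E) // x ^ m = 1}, ∃ (c : 𝓞 E) (J : (Ideal (𝓞 E))⁰),
      c ≠ 0 ∧ Ideal.span {c} = (J : Ideal (𝓞 E)) ^ m ∧ ClassGroup.mk0 J = κ.1 := fun κ => by
    obtain ⟨J, hJ⟩ := ClassGroup.mk0_surjective κ.1
    have h1 : ClassGroup.mk0 (J ^ m) = 1 := by rw [map_pow, hJ, κ.2]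
    have h2 := (ClassGroup.mk0_eq_one_iff (J ^ m).2).1 (by exact h1)
    obtain ⟨c, hc⟩ := h2.principal
    have hc' : Ideal.span {c} = (J : Ideal (𝓞 E)) ^ m := hc.symm
    refine ⟨c, J, ?_, hc', hJ⟩
    rintro rfl
    have h3 : (J : Ideal (𝓞 E)) ^ m = 0 := by
      rw [← hc', Ideal.zero_eq_bot, Ideal.span_singleton_eq_bot]
    exact nonZeroDivisors.coe_ne_zero (J ^ m) h3
  choose c J hc hcJ hJ using hex
  let g : {x : ClassGroup (𝓞 E) // x ^ m = 1} × (𝓞 E)ˣ → E := fun p =>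
    ((p.2 : 𝓞 E) : E) * (c p.1 : E)
  have hcE : ∀ κ, (c κ : E) ≠ 0 := fun κ h => hc κ (RingOfIntegers.ext h)
  have hε : ∀ ε : (𝓞 E)ˣ, ((ε : 𝓞 E) : E) ≠ 0 := fun ε h =>
    ε.ne_zero (RingOfIntegers.ext h)
  have hmain : ∀ (κ κ' : {x : ClassGroup (𝓞 E) // x ^ m = 1}) (ε ε' : (𝓞 E)ˣ) (u : E),
      ε ∈ U → ε' ∈ U → g (κ, ε) = g (κ', ε') * u ^ m → κ = κ' ∧ ε = ε' := by
    intro κ κ' ε ε' u hεU hεU' h
    have h0 : ((ε : 𝓞 E) : E) * (c κ : E) = ((ε' : 𝓞 E) : E) * (c κ' : E) * u ^ m := h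
    obtain ⟨x, y, hy, rfl⟩ := IsFractionRing.div_surjective (A := 𝓞 E) u
    have hy0 : y ≠ 0 := nonZeroDivisors.ne_zero hy
    have hyE : (y : E) ≠ 0 := fun h => hy0 (RingOfIntegers.ext h)
    have hx0 : x ≠ 0 := by
      rintro rfl
      rw [map_zero, zero_div, zero_pow hm, mul_zero] at h0
      exact mul_ne_zero (hε ε) (hcE κ) h0
    have h1 : y ^ m * ((ε : 𝓞 E) * c κ) = x ^ m * ((ε' : 𝓞 E) * c κ') := by
      apply RingOfIntegers.ext
      show (y : E) ^ m * (((ε : 𝓞 E) : E) * (c κ : E)) =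
        (x : E) ^ m * (((ε' : 𝓞 E) : E) * (c κ' : E))
      have h2 : ((ε : 𝓞 E) : E) * (c κ : E) =
          ((ε' : 𝓞 E) : E) * (c κ' : E) * ((x : E) / (y : E)) ^ m := h0
      have hym : (y : E) ^ m ≠ 0 := pow_ne_zero m hyE
      rw [h2, div_pow]
      field_simp
    have h2 : ∀ (ε : (𝓞 E)ˣ) (κ), Ideal.span {((ε : 𝓞 E) * c κ)} =
        (J κ : Ideal (𝓞 E)) ^ m := fun ε κ => by
      rw [Ideal.span_singleton_mul_left_unit ε.isUnit, hcJ]
    have h3 : (Ideal.span {y} * (J κ : Ideal (𝓞 E))) ^ m =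
        (Ideal.span {x} * (J κ' : Ideal (𝓞 E))) ^ m := by
      rw [← selM_span y _ (h2 ε κ), ← selM_span x _ (h2 ε' κ'), h1]
    have h4 : Ideal.span {y} * (J κ : Ideal (𝓞 E)) = Ideal.span {x} * (J κ' : Ideal (𝓞 E)) :=
      pow_left_injective hm h3
    have h5 : ClassGroup.mk0 (J κ) = ClassGroup.mk0 (J κ') :=
      ClassGroup.mk0_eq_mk0_iff.2 ⟨y, x, hy0, hx0, h4⟩
    have h6 : κ = κ' := Subtype.ext (by rw [← hJ κ, ← hJ κ', h5])
    subst h6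
    refine ⟨rfl, ?_⟩
    have h7 : ((ε : 𝓞 E) : E) = ((ε' : 𝓞 E) : E) * ((x : E) / (y : E)) ^ m := by
      apply mul_right_cancel₀ (hcE κ)
      rw [h0]
      show _ = _
      ring
    have h8 : ((x : E) / (y : E)) ^ m = (((ε'⁻¹ * ε : (𝓞 E)ˣ) : 𝓞 E) : E) := by
      apply mul_left_cancel₀ (hε ε')
      rw [← h7, ← map_mul, ← Units.val_mul, mul_inv_cancel_left]
    obtain ⟨η, hη⟩ := selM_root hm h8
    refine hsep ε hεU ε' hεU' η (Units.ext (RingOfIntegers.ext ?_))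
    show ((ε : 𝓞 E) : E) = ((ε' : 𝓞 E) : E) * ((η : 𝓞 E) : E) ^ m
    rw [hη]
    exact h7
  have hinj : Set.InjOn g ((Finset.univ ×ˢ U :
      Finset ({x : ClassGroup (𝓞 E) // x ^ m = 1} × (𝓞 E)ˣ)) : Set _) := by
    rintro ⟨κ, ε⟩ h1 ⟨κ', ε'⟩ h2 h
    have h3 := hmain κ κ' ε ε' 1 (Finset.mem_product.1 (Finset.mem_coe.1 h1)).2
      (Finset.mem_product.1 (Finset.mem_coe.1 h2)).2 (by rw [one_pow, mul_one]; exact h)
    exact Prod.ext h3.1 h3.2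
  refine ⟨(Finset.univ ×ˢ U).image g, ?_, ?_, ?_, ?_⟩
  · rw [Finset.card_image_of_injOn hinj, Finset.card_product, hU, Finset.card_univ,
      Nat.card_eq_fintype_card (α := {x : ClassGroup (𝓞 E) // x ^ m = 1})]
  · intro t ht
    obtain ⟨⟨κ, ε⟩, -, rfl⟩ := Finset.mem_image.1 ht
    refine ⟨mul_ne_zero (hε ε) (hcE κ), fun w => ?_⟩
    show (m : ℤ) ∣ vOrd w (((ε : 𝓞 E) : E) * (c κ : E))
    rw [vOrd_mul w (hε ε) (hcE κ), selM_unit, zero_add]
    exact selM_dvd (hc κ) (hcJ κ) w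
  · intro a ha hev
    obtain ⟨x, y, hy, rfl⟩ := IsFractionRing.div_surjective (A := 𝓞 E) a
    have hy0 : y ≠ 0 := nonZeroDivisors.ne_zero hy
    have hx0 : x ≠ 0 := by
      rintro rfl
      exact ha (by rw [map_zero, zero_div])
    have hxM : (x : E) ≠ 0 := fun h => hx0 (RingOfIntegers.ext h)
    have hyM : (y : E) ≠ 0 := fun h => hy0 (RingOfIntegers.ext h)
    obtain ⟨n, rfl⟩ : ∃ n, m = n + 1 := ⟨m - 1, by omega⟩
    have hco : ((x * y ^ n : 𝓞 E) : E) = (x : E) / (y : E) * (y : E) ^ (n + 1) := by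
      have h1 : ((x * y ^ n : 𝓞 E) : E) = (x : E) * (y : E) ^ n := rfl
      rw [h1, pow_succ]
      field_simp
    have hxy : ∀ w : HeightOneSpectrum (𝓞 E), ((n + 1 : ℕ) : ℤ) ∣ vOrd w ((x * y ^ n : 𝓞 E) : E) := by
      intro w
      rw [hco, vOrd_mul w (div_ne_zero hxM hyM) (pow_ne_zero _ hyM), vOrd_pow]
      exact dvd_add (hev w) (dvd_mul_right _ _)
    have hxy0 : x * y ^ n ≠ 0 := mul_ne_zero hx0 (pow_ne_zero n hy0)
    obtain ⟨I, hI⟩ := selM_pow hxy0 hxy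
    have hI0 : I ≠ 0 := by
      rintro rfl
      rw [zero_pow (Nat.succ_ne_zero n), Ideal.zero_eq_bot, Ideal.span_singleton_eq_bot] at hI
      exact hxy0 hI
    let I1 : (Ideal (𝓞 E))⁰ := ⟨I, mem_nonZeroDivisors_iff_ne_zero.2 hI0⟩
    have hκ : ClassGroup.mk0 I1 ^ (n + 1) = 1 := by
      rw [← map_pow]
      refine (ClassGroup.mk0_eq_one_iff (I1 ^ (n + 1)).2).2 ?_
      refine ⟨⟨x * y ^ n, ?_⟩⟩
      exact hI.symm
    let κ : {x : ClassGroup (𝓞 E) // x ^ (n + 1) = 1} := ⟨ClassGroup.mk0 I1, hκ⟩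
    obtain ⟨ε, u, hu, hcu⟩ := selM_class (J := I1) (J' := J κ) hI (hcJ κ) (hJ κ).symm
    obtain ⟨η, hη, v, hv⟩ := hcov ε
    refine ⟨g (κ, η), Finset.mem_image_of_mem _ (Finset.mem_product.2 ⟨Finset.mem_univ _, hη⟩),
      ((v : 𝓞 E) : E) * u / y, div_ne_zero (mul_ne_zero (hε v) hu) hyM, ?_⟩
    have h1 : ((ε : 𝓞 E) : E) = ((η : 𝓞 E) : E) * ((v : 𝓞 E) : E) ^ (n + 1) := by
      rw [hv]
      rfl
    rw [hco, h1] at hcu
    show (x : E) / (y : E) = ((η : 𝓞 E) : E) * (c κ : E) * _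
    have hyn : (y : E) ^ (n + 1) ≠ 0 := pow_ne_zero _ hyM
    apply mul_right_cancel₀ hyn
    rw [hcu, div_pow, mul_pow]
    field_simp
  · intro t ht t' ht' u h
    obtain ⟨⟨κ, ε⟩, h1, rfl⟩ := Finset.mem_image.1 ht
    obtain ⟨⟨κ', ε'⟩, h2, rfl⟩ := Finset.mem_image.1 ht'
    have h3 := hmain κ κ' ε ε' u (Finset.mem_product.1 h1).2 (Finset.mem_product.1 h2).2 h
    rw [h3.1, h3.2]

end Pool.Agent.H.MP_ac3185_nt
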