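import Pool.Agent.H.MP_ac3185_nt.V8.Defs

/-! Definitions for the descent with a prime number `p`, along Galois stable subgroups `N ≤ N'` of
`A(Kbar)` with `p N' ≤ N`, over extensions of degree prime to `p`. -/

set_option autoImplicit false

open CategoryTheory AlgebraicGeometry NumberField IsDedekindDomain
open scoped MonObj

namespace Pool.Agent.H.MP_ac3185_nt

universe u

section field

variable {K : Type u} [Field K]

/-- The elements of `X` lie in at most `n` classes modulo the `p`-th powers of nonzero elements. -/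
def PowClasses (p : ℕ) {L : IntermediateField K (AlgebraicClosure K)} (X : Set L) (n : ℕ) : Prop :=
  ∃ T : Finset L, T.card ≤ n ∧ ∀ a ∈ X, ∃ t ∈ T, ∃ u : L, u ≠ 0 ∧ a = t * u ^ p

/-- The place of `L` below `𝔓` is unramified in `L(a^(1/p))`: some `p`-th root of `a` is fixed by the
elements of the inertia group of `𝔓` which fix `L`. -/
def UnrP (p : ℕ) (L : IntermediateField K (AlgebraicClosure K))
    (𝔓 : Ideal (𝓞 (AlgebraicClosure K))) (a : AlgebraicClosure K) : Prop :=
  ∃ z : AlgebraicClosure K, z ^ p = a ∧ ∀ s ∈ inertia K 𝔓, s ∈ L.fixingSubgroup → s z = z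

/-- The valuation of `a` at the place of `L` below `𝔓` is divisible by `p`: `a = b ^ p x / y` with `b`
in `L` and algebraic integers `x`, `y` not in `𝔓`. -/
def DivAt (p : ℕ) (L : IntermediateField K (AlgebraicClosure K))
    (𝔓 : Ideal (𝓞 (AlgebraicClosure K))) (a : AlgebraicClosure K) : Prop :=
  ∃ b ∈ L, b ≠ 0 ∧ ∃ x y : 𝓞 (AlgebraicClosure K), x ∉ 𝔓 ∧ y ∉ 𝔓 ∧
    a * (y : AlgebraicClosure K) = b ^ p * (x : AlgebraicClosure K)

/-- `N ≤ N'` are Galois stable subgroups of `A(Kbar)`, `ψ` is a homomorphism from `N'` to the group of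
the `p`-th roots of unity, trivial on `N` and compatible with the action of `Gal(Kbar/F)`; if
`ψ(g x) = 1` for all `g` in the Galois group of `K`, then `x` is in `N` (so `N' / N` is killed by `p`);
the automorphisms of `Kbar` which act trivially on `N' / N` and on the `p`-th roots of unity fix `F`.
Examples: (1) `N' / N` is isomorphic to `μ_p` as a Galois module, `F = K`; (2) `N' / N` has order `p` and
trivial Galois action, `F = K(μ_p)`; (3) `N' / N` is a simple Galois module killed by `p`, `ψ` is any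
homomorphism `ψ ≠ 1`, trivial on `N`, and `F` is the field fixed by its stabilizer. -/
structure CharFrame (p : ℕ) (F : IntermediateField K (AlgebraicClosure K))
    {A : Over (Spec (.of K))} [GrpObj A] [IsAbVar A]
    (N N' : AddSubgroup (Pts A (AlgebraicClosure K)))
    (ψ : Pts A (AlgebraicClosure K) → AlgebraicClosure K) : Prop where
  stabN : ∀ s x, InSub N x → InSub N (act A s x)
  stabN' : ∀ s x, InSub N' x → InSub N' (act A s x)
  le : ∀ ⦃x⦄, InSub N x → InSub N' x
  pow : ∀ x, InSub N' x → ψ x ^ p = 1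
  mul : ∀ x, InSub N' x → ∀ y, InSub N' y → ψ (x + y) = ψ x * ψ y
  triv : ∀ x, InSub N x → ψ x = 1
  gal : ∀ s ∈ F.fixingSubgroup, ∀ x, InSub N' x → ψ (act A s x) = s (ψ x)
  core : ∀ x, InSub N' x → (∀ g, ψ (act A g x) = 1) → InSub N x
  sub : ∀ s, (∀ x, InSub N' x → InSub N (act A s x - x)) →
    (∀ z : AlgebraicClosure K, z ^ p = 1 → s z = z) → s ∈ F.fixingSubgroup

/-- The conjugate `g ψ(g⁻¹ x)` of `ψ`, for the class `q = g Gal(Kbar/F)`. -/
noncomputable def conjChar (F : IntermediateField K (AlgebraicClosure K))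
    {A : Over (Spec (.of K))} [GrpObj A] [IsAbVar A]
    (ψ : Pts A (AlgebraicClosure K) → AlgebraicClosure K)
    (q : (AlgebraicClosure K ≃ₐ[K] AlgebraicClosure K) ⧸ F.fixingSubgroup)
    (x : Pts A (AlgebraicClosure K)) : AlgebraicClosure K :=
  q.out (ψ (act A q.out⁻¹ x))

/-- The image of `N'` under `ψ` is etale at `𝔓`: there is a homomorphism on `A(Kbar)` which is constant
on the orbits of the elements of `Gal(Kbar/F)` in the inertia group of `𝔓`, and `ψ` is trivial on the
elements of `N'` in its kernel. -/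
def EtaleChar (F : IntermediateField K (AlgebraicClosure K)) {A : Over (Spec (.of K))} [GrpObj A]
    [IsAbVar A] (N' : AddSubgroup (Pts A (AlgebraicClosure K)))
    (ψ : Pts A (AlgebraicClosure K) → AlgebraicClosure K)
    (𝔓 : Ideal (𝓞 (AlgebraicClosure K))) : Prop :=
  ∃ (R : Type u) (_ : AddCommGroup R) (r : Pts A (AlgebraicClosure K) →+ R),
    (∀ s ∈ inertia K 𝔓, s ∈ F.fixingSubgroup → ∀ x, r (act A s x) = r x) ∧
      ∀ x, InSub N' x → r x = 0 → ψ x = 1

/-- If the class of `x` modulo `N'` is rational over `L`, and `s z = ψ(s x - x) z` for the `s` in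
`Gal(Kbar/LF)`, where `a = z ^ p` is in `LF`, and if the valuations of `a` at the places of `LF` above
the places of `F` in `S` are divisible by `p`, then the valuation of `a` at the place of `LF` below `𝔓`
is divisible by `p`. -/
def DivChar (p : ℕ) (L F : IntermediateField K (AlgebraicClosure K)) {A : Over (Spec (.of K))}
    [GrpObj A] [IsAbVar A] (N' : AddSubgroup (Pts A (AlgebraicClosure K)))
    (ψ : Pts A (AlgebraicClosure K) → AlgebraicClosure K)
    (S : Finset (HeightOneSpectrum (𝓞 F))) (𝔓 : Ideal (𝓞 (AlgebraicClosure K))) : Prop :=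
  ∀ (x : Pts A (AlgebraicClosure K)) (z : AlgebraicClosure K), z ≠ 0 → z ^ p ∈ L ⊔ F →
    (∀ s ∈ L.fixingSubgroup, InSub N' (act A s x - x)) →
    (∀ s ∈ (L ⊔ F).fixingSubgroup, s z = ψ (act A s x - x) * z) →
    (∀ v ∈ S, ∀ 𝔔, PrimeOver F 𝔔 v → DivAt p (L ⊔ F) 𝔔 (z ^ p)) → DivAt p (L ⊔ F) 𝔓 (z ^ p)

end field

section numberField

variable {K : Type u} [Field K] [NumberField K]

/-- The `a ≠ 0` in `LF` with the following properties: the norm of `a` to `F` is a `p`-th power in `F`;
for all families `c` of integers in `Rel`, indexed by the cosets of `Gal(Kbar/F)`, the product of the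
`(τ a) ^ c(τ)`, for the representatives `τ` in `Gal(Kbar/L)` of the cosets, is the `p`-th power of an
element fixed by all `s` in `Gal(Kbar/L)` with `c(s τ) = c(τ)` for all `τ`; `LF(a^(1/p)) / LF` is
unramified at the finite places which do not lie above `p` and at those above `T`; the valuation of `a`
is divisible by `p` at the other places above `p`. -/
def charClasses (p : ℕ) (L F : IntermediateField K (AlgebraicClosure K))
    (Rel : Set (((AlgebraicClosure K ≃ₐ[K] AlgebraicClosure K) ⧸ F.fixingSubgroup) → ℤ))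
    (T : Set (HeightOneSpectrum (𝓞 F))) :
    Set (L ⊔ F : IntermediateField K (AlgebraicClosure K)) :=
  {a | a ≠ 0 ∧ (∃ d ∈ F, normG L F.fixingSubgroup (a : AlgebraicClosure K) = d ^ p) ∧
    (∀ c ∈ Rel, ∃ d : AlgebraicClosure K,
      (∀ s ∈ L.fixingSubgroup, (∀ q, c (s • q) = c q) → s d = d) ∧
      ∏ᶠ q, repG F L.fixingSubgroup q (a : AlgebraicClosure K) ^ c q = d ^ p) ∧
    (∀ v 𝔓, PrimeOver F 𝔓 v → (p : 𝓞 F) ∉ v.asIdeal ∨ v ∈ T →
      UnrP p (L ⊔ F) 𝔓 (a : AlgebraicClosure K)) ∧
    ∀ v 𝔓, PrimeOver F 𝔓 v → (p : 𝓞 F) ∈ v.asIdeal → v ∉ T →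
      DivAt p (L ⊔ F) 𝔓 (a : AlgebraicClosure K)}

/-- `N ≤ N'` are subgroups of `A(Kbar)` and `ψ` a character with `CharFrame p F N N' ψ` such that: `L` is
linearly disjoint from the field given by the automorphisms which act trivially on `N' / N` and on the
`p`-th roots of unity; for all `c` in `Rel` and `x` in `N'` the product of the `ψ_q(x) ^ c(q)` over the
conjugates `ψ_q` of `ψ` is `1`; `ψ` is etale at the places of `F` in `T`; at the other places above `p`
outside `S` its fibres are divisible by `p`; at the finite places outside `S` which do not lie above `p`,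
`ψ` is etale or its fibres are divisible by `p`. -/
structure CharLayer (p : ℕ) (L F : IntermediateField K (AlgebraicClosure K))
    (Rel : Set (((AlgebraicClosure K ≃ₐ[K] AlgebraicClosure K) ⧸ F.fixingSubgroup) → ℤ))
    (T : Set (HeightOneSpectrum (𝓞 F))) (S : Finset (HeightOneSpectrum (𝓞 F)))
    {A : Over (Spec (.of K))} [GrpObj A] [IsAbVar A]
    (N N' : AddSubgroup (Pts A (AlgebraicClosure K)))
    (ψ : Pts A (AlgebraicClosure K) → AlgebraicClosure K) : Prop
    extends CharFrame p F N N' ψ where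
  lin : ∀ s, ∃ t ∈ L.fixingSubgroup, (∀ x, InSub N' x → InSub N (act A (t⁻¹ * s) x - x)) ∧
    ∀ z : AlgebraicClosure K, z ^ p = 1 → (t⁻¹ * s) z = z
  rel : ∀ c ∈ Rel, ∀ x, InSub N' x → ∏ᶠ q, conjChar F ψ q x ^ c q = 1
  etale : ∀ v ∈ T, ∀ 𝔓, PrimeOver F 𝔓 v → EtaleChar F N' ψ 𝔓
  above : ∀ v ∉ S, v ∉ T → (p : 𝓞 F) ∈ v.asIdeal → ∀ 𝔓, PrimeOver F 𝔓 v →
    DivChar p L F N' ψ S 𝔓
  away : ∀ v ∉ S, (p : 𝓞 F) ∉ v.asIdeal → (∀ 𝔓, PrimeOver F 𝔓 v → EtaleChar F N' ψ 𝔓) ∨
    ∀ 𝔓, PrimeOver F 𝔓 v → DivChar p L F N' ψ S 𝔓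

/-- `CharChain p L A N b`: there are subgroups `0 = N_0 ≤ ⋯ ≤ N_r = N` of `A(Kbar)` such that
`CharLayer p L F Rel T S N_(i-1) N_i ψ` holds for all `i` (where `F`, `ψ`, `Rel`, `T`, `S` depend on `i`),
and `b` is the sum over `i` of the numbers `ρ + ∑ (g_v - 1)`, `v ∈ S`, where `charClasses p L F Rel T`
consists of at most `p ^ ρ` classes modulo `p`-th powers, and `g_v` is the number of places of `LF`
above the place `v` of `F`. -/
inductive CharChain (p : ℕ) (L : IntermediateField K (AlgebraicClosure K))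
    (A : Over (Spec (.of K))) [GrpObj A] [IsAbVar A] :
    AddSubgroup (Pts A (AlgebraicClosure K)) → ℕ → Prop
  | zero : CharChain p L A ⊥ 0
  | step (N N' : AddSubgroup (Pts A (AlgebraicClosure K)))
      (ψ : Pts A (AlgebraicClosure K) → AlgebraicClosure K) (b ρ : ℕ)
      (F : IntermediateField K (AlgebraicClosure K)) [FiniteDimensional K F]
      (Rel : Set (((AlgebraicClosure K ≃ₐ[K] AlgebraicClosure K) ⧸ F.fixingSubgroup) → ℤ))
      (T : Set (HeightOneSpectrum (𝓞 F))) (S : Finset (HeightOneSpectrum (𝓞 F))) :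
      CharChain p L A N b → CharLayer p L F Rel T S N N' ψ →
      PowClasses p (charClasses p L F Rel T) (p ^ ρ) →
      CharChain p L A N' (b + (ρ + excessOver L F S))

/-- `A(L)` is the union of at most `k` cosets `t + (A(K) + n A(L))`. -/
def MulCover (A : Over (Spec (.of K))) [GrpObj A] [IsAbVar A]
    (L : IntermediateField K (AlgebraicClosure K)) (n k : ℕ) : Prop :=
  ∃ T : Finset (Pts A (AlgebraicClosure K)), T.card ≤ k ∧
    (∀ t ∈ T, ∀ s ∈ L.fixingSubgroup, act A s t = t) ∧
    ∀ y, (∀ s ∈ L.fixingSubgroup, act A s y = y) → ∃ t ∈ T, ∃ y₀ x,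
      (∀ s, act A s y₀ = y₀) ∧ (∀ s ∈ L.fixingSubgroup, act A s x = x) ∧ y = t + (y₀ + n • x)

/-- The number `g (#∞_L + n #∞_K) + ∑ r_v (g_v + n)` for `n = [L : K]`, the sum over the places `v` in
`T`; here `#∞` is the number of infinite places and `g_v` the number of places of `L` above `v`. -/
noncomputable def signExp (L : IntermediateField K (AlgebraicClosure K)) (g : ℕ)
    (T : Finset (HeightOneSpectrum (𝓞 K))) (r : HeightOneSpectrum (𝓞 K) → ℕ) : ℕ :=
  g * (Nat.card (InfinitePlace L) + Module.finrank K L *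
    Nat.card (InfinitePlace (⊥ : IntermediateField K (AlgebraicClosure K)))) +
    ∑ v ∈ T, r v * (placeCount L v + Module.finrank K L)

end numberField

end Pool.Agent.H.MP_ac3185_nt
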