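import Pool.Agent.H.MP_ac3185_nt.V8.UnrEven
import Pool.Agent.H.MP_ac3185_nt.V9.Defs

/-! If some `p`-th root of `a` is unramified over `E` at a place, then the valuation of `a` is divisible
by `p` there. -/

set_option autoImplicit false

open NumberField IsDedekindDomain
open scoped Pointwise

namespace Pool.Agent.H.MP_ac3185_nt

universe u v

section tot

variable {E : Type u} [Field E] [NumberField E] {M : Type v} [Field M] [NumberField M] [Algebra E M]

/-- Let `M / E` be an extension of degree at most `p`, and `z ^ p = a` in `E`, where the valuation of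
`a` at `w` is not divisible by `p`. Then `w` is totally ramified in `M`. -/
theorem unrdiv_tot {p : ℕ} (hp : p.Prime) (hle : Module.finrank E M ≤ p) {a : E} (ha : a ≠ 0)
    {z : M} (hz : z ^ p = algebraMap E M a) (w : HeightOneSpectrum (𝓞 E))
    (hw : ¬ (p : ℤ) ∣ vOrd w a) :
    (∀ w₁ w₂ : PlacesOver M w, w₁ = w₂) ∧ ∀ (w₁ : PlacesOver M w) (x : 𝓞 M),
      ∃ c : 𝓞 E, x - algebraMap (𝓞 E) (𝓞 M) c ∈ w₁.1.asIdeal := by
  classical
  have hsum := Ideal.sum_ramification_inertia (𝓞 M) E M (p := w.asIdeal) w.ne_bot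
  have haM : algebraMap E M a ≠ 0 := (map_ne_zero (algebraMap E M)).2 ha
  have hz0 : z ≠ 0 := by
    rintro rfl
    rw [zero_pow hp.ne_zero] at hz
    exact haM hz.symm
  have hpZ : Prime (p : ℤ) := Nat.prime_iff_prime_int.1 hp
  -- the ramification indices are divisible by `p`
  have hram : ∀ w₁ : PlacesOver M w, p ≤ Ideal.ramificationIdx' w.asIdeal w₁.1.asIdeal := by
    intro w₁
    have hlo : w₁.1.asIdeal.LiesOver w.asIdeal := ⟨w₁.2.symm⟩
    have h1 := HeightOneSpectrum.valuation_liesOver (K := E) M w w₁.1 a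
    have h2 : (Ideal.ramificationIdx' w.asIdeal w₁.1.asIdeal : ℤ) * vOrd w a =
        p * vOrd w₁.1 z := by
      rw [← vOrd_pow w₁.1 z p, hz]
      unfold vOrd
      rw [← h1, WithZero.log_pow]
      simp
    have h3 : (p : ℤ) ∣ (Ideal.ramificationIdx' w.asIdeal w₁.1.asIdeal : ℤ) := by
      rcases hpZ.dvd_or_dvd (Dvd.intro _ h2.symm) with h4 | h4
      · exact h4
      · exact absurd h4 hw
    have h4 : Ideal.ramificationIdx' w.asIdeal w₁.1.asIdeal ≠ 0 :=
      Ideal.IsDedekindDomain.ramificationIdx'_ne_zero_of_liesOver _ w.ne_bot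
    exact Nat.le_of_dvd (Nat.pos_of_ne_zero h4) (by exact_mod_cast h3)
  have hin : ∀ w₁ : PlacesOver M w, 0 < Ideal.inertiaDeg' w.asIdeal w₁.1.asIdeal := by
    intro w₁
    have hlo : w₁.1.asIdeal.LiesOver w.asIdeal := ⟨w₁.2.symm⟩
    exact Ideal.inertiaDeg'_pos _ _
  have hmem : ∀ w₁ : PlacesOver M w, w₁.1.asIdeal ∈
      IsDedekindDomain.primesOverFinset w.asIdeal (𝓞 M) := fun w₁ =>
    (IsDedekindDomain.mem_primesOverFinset_iff w.ne_bot _).2 ⟨w₁.1.isPrime, ⟨w₁.2.symm⟩⟩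
  have huniq : ∀ w₁ w₂ : PlacesOver M w, w₁ = w₂ := by
    intro w₁ w₂
    by_contra hne
    have h1 : w₁.1.asIdeal ≠ w₂.1.asIdeal := fun h => hne (Subtype.ext (HeightOneSpectrum.ext h))
    have h2 : ({w₁.1.asIdeal, w₂.1.asIdeal} : Finset (Ideal (𝓞 M))) ⊆
        IsDedekindDomain.primesOverFinset w.asIdeal (𝓞 M) := by
      intro I hI
      rcases Finset.mem_insert.1 hI with h | h
      · rw [h]
        exact hmem w₁
      · rw [Finset.mem_singleton.1 h]
        exact hmem w₂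
    have h3 := Finset.sum_le_sum_of_subset (f := fun P =>
      Ideal.ramificationIdx' w.asIdeal P * Ideal.inertiaDeg' w.asIdeal P) h2
    rw [hsum, Finset.sum_pair h1] at h3
    have h4 := Nat.mul_le_mul (hram w₁) (hin w₁)
    have h5 := Nat.mul_le_mul (hram w₂) (hin w₂)
    have h6 := hp.pos
    omega
  refine ⟨huniq, fun w₁ x => ?_⟩
  have hlo : w₁.1.asIdeal.LiesOver w.asIdeal := ⟨w₁.2.symm⟩
  have h1 := Finset.single_le_sum (f := fun P =>
    Ideal.ramificationIdx' w.asIdeal P * Ideal.inertiaDeg' w.asIdeal P)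
    (fun _ _ => Nat.zero_le _) (hmem w₁)
  rw [hsum] at h1
  have h2 : Ideal.inertiaDeg' w.asIdeal w₁.1.asIdeal = 1 := by
    have h3 := Nat.mul_le_mul_right (Ideal.inertiaDeg' w.asIdeal w₁.1.asIdeal) (hram w₁)
    have h4 := (h3.trans h1).trans hle
    have h5 : Ideal.inertiaDeg' w.asIdeal w₁.1.asIdeal ≤ 1 := by
      by_contra hcon
      have h6 := Nat.mul_le_mul_left p (Nat.succ_le_of_lt (not_le.1 hcon))
      have h7 := hp.pos
      omega
    exact le_antisymm h5 (hin w₁)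
  rw [Ideal.inertiaDeg'_algebraMap] at h2
  let _ : Field (𝓞 E ⧸ w.asIdeal) := Ideal.Quotient.field w.asIdeal
  have h3 := (finrank_eq_one_iff_of_nonzero' (K := 𝓞 E ⧸ w.asIdeal)
    (1 : 𝓞 M ⧸ w₁.1.asIdeal) one_ne_zero).1 h2 (Ideal.Quotient.mk _ x)
  obtain ⟨c, hc⟩ := h3
  obtain ⟨c, rfl⟩ := Ideal.Quotient.mk_surjective c
  refine ⟨c, Ideal.Quotient.eq.1 ?_⟩
  rw [← hc, Algebra.smul_def, mul_one]
  rfl

end tot

section move

variable {K : Type u} [Field K] [NumberField K]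

/-- The field `E(z)`, as an extension of `K`. -/
noncomputable def unrField (E : IntermediateField K (AlgebraicClosure K))
    (z : AlgebraicClosure K) : IntermediateField K (AlgebraicClosure K) :=
  (IntermediateField.adjoin E {z}).restrictScalars K

/-- The field `E(z)` is an extension of `E`. -/
@[reducible] noncomputable def unrAlg (E : IntermediateField K (AlgebraicClosure K))
    (z : AlgebraicClosure K) : Algebra E (unrField E z) :=
  inferInstanceAs (Algebra E (IntermediateField.adjoin E {z}))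

omit [NumberField K] in
theorem unrField_rank (E : IntermediateField K (AlgebraicClosure K)) [FiniteDimensional K E]
    {p : ℕ} (hp : p.Prime) {a : E} {z : AlgebraicClosure K} (hz : z ^ p = (a : AlgebraicClosure K)) :
    FiniteDimensional K (unrField E z) ∧
      @Module.finrank E (unrField E z) _ _ (unrAlg E z).toModule ≤ p := by
  have hzint : IsIntegral E z := by
    refine IsIntegral.of_pow hp.pos ?_
    rw [hz]
    exact isIntegral_algebraMap (R := E) (A := AlgebraicClosure K) (x := a)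
  have _ : FiniteDimensional E (IntermediateField.adjoin E {z}) :=
    IntermediateField.adjoin.finiteDimensional hzint
  refine ⟨FiniteDimensional.trans K E (IntermediateField.adjoin E {z}), ?_⟩
  show Module.finrank E (IntermediateField.adjoin E {z}) ≤ p
  rw [IntermediateField.adjoin.finrank hzint]
  have h1 : Polynomial.aeval z (Polynomial.X ^ p - Polynomial.C a) = 0 := by
    rw [map_sub, map_pow, Polynomial.aeval_X, Polynomial.aeval_C, hz]
    exact sub_self _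
  have h2 : (Polynomial.X ^ p - Polynomial.C a).natDegree = p :=
    Polynomial.natDegree_X_pow_sub_C
  have h3 : Polynomial.X ^ p - Polynomial.C a ≠ 0 :=
    Polynomial.X_pow_sub_C_ne_zero hp.pos a
  have h4 := Polynomial.natDegree_le_of_dvd (minpoly.dvd E z h1) h3
  rwa [h2] at h4

/-- If `z ^ p = a` and the valuation of `a` at the place of `E` below `𝔓` is not divisible by `p`, then
the inertia group of `𝔓` over `E` moves `z`. -/
theorem v9_inertia_moves (E : IntermediateField K (AlgebraicClosure K)) [FiniteDimensional K E]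
    [NumberField E] {p : ℕ} (hp : p.Prime) {𝔓 : Ideal (𝓞 (AlgebraicClosure K))}
    {w : HeightOneSpectrum (𝓞 E)} (hw : PrimeOver E 𝔓 w) {a : E} (ha : a ≠ 0)
    (hndvd : ¬ (p : ℤ) ∣ vOrd w a) {z : AlgebraicClosure K}
    (hz : z ^ p = (a : AlgebraicClosure K)) :
    ∃ s ∈ inertia K 𝔓, s ∈ E.fixingSubgroup ∧ s z ≠ z := by
  have hP : 𝔓.IsPrime := hw.1
  obtain ⟨s₀, hs₀E, hs₀z⟩ : ∃ s ∈ E.fixingSubgroup, s z ≠ z := by
    by_contra hcon
    push Not at hcon
    have h1 : z ∈ E := unreven_mem E z hcon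
    apply hndvd
    have h2 : a = (⟨z, h1⟩ : E) ^ p := Subtype.ext hz.symm
    rw [h2, vOrd_pow]
    exact dvd_mul_right _ _
  set E₁ : IntermediateField K (AlgebraicClosure K) := unrField E z with hE₁
  have hzE₁ : z ∈ E₁ := IntermediateField.mem_adjoin_simple_self E z
  have hle : E ≤ E₁ := fun x hx => (IntermediateField.adjoin E {z}).algebraMap_mem ⟨x, hx⟩
  obtain ⟨hfin, hrank⟩ := unrField_rank E hp hz
  have _ : NumberField E₁ := NumberField.of_module_finite K E₁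
  let _ : Algebra E E₁ := unrAlg E z
  have hz₁ : (⟨z, hzE₁⟩ : E₁) ^ p = algebraMap E E₁ a := Subtype.ext hz
  obtain ⟨huniq, hres⟩ := unrdiv_tot hp hrank ha hz₁ w hndvd
  have hcomp : ∀ c : 𝓞 E, algebraMap (𝓞 E₁) (𝓞 (AlgebraicClosure K))
      (algebraMap (𝓞 E) (𝓞 E₁) c) = algebraMap (𝓞 E) (𝓞 (AlgebraicClosure K)) c := fun c =>
    RingOfIntegers.ext rfl
  have hfixE : ∀ s ∈ E.fixingSubgroup, ∀ c : 𝓞 E,
      s • algebraMap (𝓞 E) (𝓞 (AlgebraicClosure K)) c =
        algebraMap (𝓞 E) (𝓞 (AlgebraicClosure K)) c := fun s hs c => by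
    apply RingOfIntegers.ext
    exact (IntermediateField.mem_fixingSubgroup_iff E s).1 hs _ (c : E).2
  -- the places of `E₁` below `𝔓` and below `s₀ 𝔓`
  have hbelow : ∀ 𝔔 : Ideal (𝓞 (AlgebraicClosure K)), 𝔔.IsPrime →
      𝔔.comap (algebraMap (𝓞 E) (𝓞 (AlgebraicClosure K))) = w.asIdeal →
      ∃ w₁ : PlacesOver E₁ w,
        𝔔.comap (algebraMap (𝓞 E₁) (𝓞 (AlgebraicClosure K))) = w₁.1.asIdeal := by
    intro 𝔔 hQ hQw
    have hcc : (𝔔.comap (algebraMap (𝓞 E₁) (𝓞 (AlgebraicClosure K)))).comap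
        (algebraMap (𝓞 E) (𝓞 E₁)) = w.asIdeal := by
      rw [← hQw]
      ext c
      rw [Ideal.mem_comap, Ideal.mem_comap, Ideal.mem_comap, hcomp]
    refine ⟨⟨⟨𝔔.comap (algebraMap (𝓞 E₁) (𝓞 (AlgebraicClosure K))),
      Ideal.comap_isPrime _ _, ?_⟩, hcc⟩, rfl⟩
    intro hbot
    apply w.ne_bot
    rw [← hcc, hbot]
    exact Ideal.comap_bot_of_injective _ (FaithfulSMul.algebraMap_injective (𝓞 E) (𝓞 E₁))
  obtain ⟨w₁, hw₁⟩ := hbelow 𝔓 hP hw.2
  have hs₀P : (s₀ • 𝔓).IsPrime := by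
    have h1 : s₀ • 𝔓 = 𝔓.comap (MulSemiringAction.toRingHom
        (AlgebraicClosure K ≃ₐ[K] AlgebraicClosure K) (𝓞 (AlgebraicClosure K)) s₀⁻¹) := by
      ext x
      rw [Ideal.mem_comap, Ideal.mem_pointwise_smul_iff_inv_smul_mem]
      rfl
    rw [h1]
    exact Ideal.comap_isPrime _ _
  obtain ⟨w₂, hw₂⟩ := hbelow (s₀ • 𝔓) hs₀P (by
    rw [← hw.2]
    ext c
    rw [Ideal.mem_comap, Ideal.mem_comap, Ideal.mem_pointwise_smul_iff_inv_smul_mem,
      hfixE s₀⁻¹ (inv_mem hs₀E)])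
  have hcomap : (s₀ • 𝔓).comap (algebraMap (𝓞 E₁) (𝓞 (AlgebraicClosure K))) =
      ((1 : AlgebraicClosure K ≃ₐ[K] AlgebraicClosure K) • 𝔓).comap
        (algebraMap (𝓞 E₁) (𝓞 (AlgebraicClosure K))) := by
    rw [one_smul, hw₁, hw₂, huniq w₁ w₂]
  obtain ⟨h, hh, hh𝔓⟩ := (same_place_iff E₁ 𝔓 s₀ 1).1 hcomap
  rw [one_smul] at hh𝔓
  have hE₁le : E₁.fixingSubgroup ≤ E.fixingSubgroup := IntermediateField.fixingSubgroup_le hle
  have hmove : ∀ g ∈ E₁.fixingSubgroup, g z = z := fun g hg =>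
    (IntermediateField.mem_fixingSubgroup_iff E₁ g).1 hg z hzE₁
  set s₁ := h * s₀ with hs₁
  have hs₁𝔓 : s₁ • 𝔓 = 𝔓 := by
    rw [hs₁, mul_smul]
    exact hh𝔓
  have hs₁E : s₁ ∈ E.fixingSubgroup := mul_mem (hE₁le hh) hs₀E
  have hs₁z : s₁ z ≠ z := by
    intro h1
    apply hs₀z
    rw [hs₁, AlgEquiv.mul_apply] at h1
    have h2 : h⁻¹ (h (s₀ z)) = h⁻¹ z := by rw [h1]
    rwa [← AlgEquiv.mul_apply, inv_mul_cancel, AlgEquiv.one_apply, hmove h⁻¹ (inv_mem hh)] at h2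
  have htriv : ∀ x : 𝓞 E₁, s₁ • algebraMap (𝓞 E₁) (𝓞 (AlgebraicClosure K)) x -
      algebraMap (𝓞 E₁) (𝓞 (AlgebraicClosure K)) x ∈ 𝔓 := by
    intro x
    obtain ⟨c, hc⟩ := hres w₁ x
    rw [← hw₁, Ideal.mem_comap, map_sub, hcomp] at hc
    have h1 : s₁ • (algebraMap (𝓞 E₁) (𝓞 (AlgebraicClosure K)) x -
        algebraMap (𝓞 E) (𝓞 (AlgebraicClosure K)) c) ∈ s₁ • 𝔓 :=
      Ideal.smul_mem_pointwise_smul_iff.2 hc
    rw [hs₁𝔓, smul_sub, hfixE s₁ hs₁E] at h1
    have h2 := sub_mem h1 hc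
    rwa [sub_sub_sub_cancel_right] at h2
  obtain ⟨g, hg, hg𝔓, hgs⟩ := v8_res_surj E₁ 𝔓 s₁ hs₁𝔓 htriv
  refine ⟨g⁻¹ * s₁, ?_, mul_mem (inv_mem (hE₁le hg)) hs₁E, ?_⟩
  · intro x
    show (g⁻¹ * s₁) • x - x ∈ 𝔓
    have h1 := neg_mem (hgs x)
    rw [neg_sub, ← Ideal.smul_mem_pointwise_smul_iff (a := g⁻¹)] at h1
    have h2 : g⁻¹ • 𝔓 = 𝔓 := by
      rw [inv_smul_eq_iff]
      exact hg𝔓.symm
    rw [h2, smul_sub, inv_smul_smul, ← mul_smul] at h1
    exact h1
  · intro h1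
    apply hs₁z
    rw [AlgEquiv.mul_apply] at h1
    have h2 : g (g⁻¹ (s₁ z)) = g z := by rw [h1]
    rwa [← AlgEquiv.mul_apply, mul_inv_cancel, AlgEquiv.one_apply, hmove g hg] at h2

end move

end Pool.Agent.H.MP_ac3185_nt
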