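import Pool.Agent.H.MP_ac3185_nt.V2.ValC
import Pool.Agent.H.MP_ac3185_nt.V6.Val
import Pool.Agent.H.MP_ac3185_nt.V9.Defs

/-! Valuations modulo a prime number `p`, in an extension of degree prime to `p`. -/

set_option autoImplicit false

open NumberField IsDedekindDomain

namespace Pool.Agent.H.MP_ac3185_nt

universe u v

section base

variable {K : Type u} [Field K] [NumberField K] {M : Type v} [Field M] [NumberField M] [Algebra K M]

/-- In an extension of degree prime to `p` there is a place `w` above `v` with residue degree prime to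
`p`. -/
theorem v9_exists_place {p : ℕ} (hn : ¬ p ∣ Module.finrank K M)
    (v : HeightOneSpectrum (𝓞 K)) :
    ∃ w : PlacesOver M v, ¬ p ∣ w.1.asIdeal.inertiaDeg (𝓞 K) := by
  classical
  have _ : Fintype (v.asIdeal.primesOver (𝓞 M)) :=
    Fintype.ofFinite _
  have h1 := Ideal.sum_ramification_inertia_eq_finrank v.asIdeal (𝓞 M)
  rw [IsFractionRing.finrank_eq (𝓞 K) K (𝓞 M) M] at hn
  rw [← h1] at hn
  by_contra hcon
  push Not at hcon
  apply hn
  refine Finset.dvd_sum fun q _ => ?_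
  exact (hcon (placesEquiv v q)).mul_left _

/-- If the norm of `c` is a `p`-th power, and if the valuations of `c` at all places above `v` but one
are divisible by `p`, then all are. -/
theorem v9_exists_last {p : ℕ} (hp : p.Prime) (hn : ¬ p ∣ Module.finrank K M)
    (v : HeightOneSpectrum (𝓞 K)) :
    ∃ w₀ : PlacesOver M v, ∀ c : M, c ≠ 0 → (∃ d, Algebra.norm K c = d ^ p) →
      (∀ w : PlacesOver M v, w ≠ w₀ → (p : ℤ) ∣ vOrd w.1 c) → (p : ℤ) ∣ vOrd w₀.1 c := by
  classical
  obtain ⟨w₀, hw₀⟩ := v9_exists_place (M := M) hn v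
  refine ⟨w₀, fun c hc hsq hall => ?_⟩
  have _ : Fintype (PlacesOver M v) := Fintype.ofFinite _
  have h1 := vOrd_norm (M := M) v hc
  have h2 : (p : ℤ) ∣ vOrd v (Algebra.norm K c) := by
    obtain ⟨d, hd⟩ := hsq
    rw [hd, vOrd_pow]
    exact Dvd.intro _ rfl
  rw [h1, ← Finset.add_sum_erase _ _ (Finset.mem_univ w₀)] at h2
  have h3 : (p : ℤ) ∣ ∑ w ∈ Finset.univ.erase w₀,
      (w.1.asIdeal.inertiaDeg (𝓞 K) : ℤ) * vOrd w.1 c :=
    Finset.dvd_sum fun w hw => (hall w (Finset.ne_of_mem_erase hw)).mul_left _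
  have h4 : (p : ℤ) ∣ (w₀.1.asIdeal.inertiaDeg (𝓞 K) : ℤ) * vOrd w₀.1 c :=
    (dvd_add_left h3).1 h2
  rcases (Nat.prime_iff_prime_int.1 hp).dvd_or_dvd h4 with h5 | h5
  · exact absurd (Int.natCast_dvd_natCast.1 h5) hw₀
  · exact h5

/-- The valuation modulo `p`. -/
noncomputable def vMod (p : ℕ) (w : HeightOneSpectrum (𝓞 M)) (c : M) : ZMod p := (vOrd w c : ℤ)

theorem vMod_eq_zero (p : ℕ) (w : HeightOneSpectrum (𝓞 M)) (c : M) :
    vMod p w c = 0 ↔ (p : ℤ) ∣ vOrd w c := by
  unfold vMod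
  exact ZMod.intCast_zmod_eq_zero_iff_dvd _ _

theorem vMod_add (p : ℕ) (w : HeightOneSpectrum (𝓞 M)) {a b c d : M} (ha : a ≠ 0) (hb : b ≠ 0)
    (hc : c ≠ 0) (hd : d ≠ 0) (h : a * b = c * d ^ p) : vMod p w c = vMod p w a + vMod p w b := by
  have h1 := congrArg (vOrd w) h
  rw [vOrd_mul w ha hb, vOrd_mul w hc (pow_ne_zero p hd), vOrd_pow] at h1
  have h2 := congrArg (fun z : ℤ => (z : ZMod p)) h1
  push_cast at h2
  rw [ZMod.natCast_self, zero_mul, add_zero] at h2
  unfold vMod
  exact h2.symm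

/-- The elements `P` for which `φ(P)` has valuations divisible by `p` at all places above the places of
`S` form a subgroup of index at most `p ^ ∑ (g_v - 1)`, where `g_v` is the number of places above `v`;
the hypotheses say that `φ` is a homomorphism modulo `p`-th powers with values in the kernel of the norm
to `Kˣ` modulo `p`-th powers. -/
theorem v9_div_subgroup {p : ℕ} (hp : p.Prime) (hn : ¬ p ∣ Module.finrank K M) {A : Type*}
    [AddCommGroup A] (φ : A → M) (h0 : ∀ P, φ P ≠ 0) (h1 : ∀ P, ∃ d, Algebra.norm K (φ P) = d ^ p)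
    (h2 : ∀ P Q, ∃ d, φ P * φ Q = φ (P + Q) * d ^ p) (S : Finset (HeightOneSpectrum (𝓞 K))) :
    ∃ B : AddSubgroup A, B.index ≠ 0 ∧
      B.index ≤ p ^ (∑ v ∈ S, (Nat.card (PlacesOver M v) - 1)) ∧
      ∀ P, P ∈ B ↔ ∀ v ∈ S, ∀ w : PlacesOver M v, (p : ℤ) ∣ vOrd w.1 (φ P) := by
  classical
  have _ : NeZero p := ⟨hp.ne_zero⟩
  choose w₀ hw₀ using fun v : HeightOneSpectrum (𝓞 K) => v9_exists_last (M := M) hp hn v
  let T : Type _ := (v : S) → {w : PlacesOver M v.1 // w ≠ w₀ v.1} → ZMod p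
  have hadd : ∀ (w : HeightOneSpectrum (𝓞 M)) (P Q : A),
      vMod p w (φ (P + Q)) = vMod p w (φ P) + vMod p w (φ Q) := fun w P Q => by
    obtain ⟨d, hd⟩ := h2 P Q
    have hd0 : d ≠ 0 := by
      rintro rfl
      rw [zero_pow hp.ne_zero, mul_zero] at hd
      exact mul_ne_zero (h0 P) (h0 Q) hd
    exact vMod_add p w (h0 P) (h0 Q) (h0 (P + Q)) hd0 hd
  let g : A →+ T :=
    { toFun := fun P v w => vMod p w.1.1 (φ P)
      map_zero' := by
        funext v w
        have := hadd w.1.1 0 0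
        rw [add_zero] at this
        exact left_eq_add.1 this
      map_add' := fun P Q => by
        funext v w
        exact hadd w.1.1 P Q }
  have _ : ∀ v : HeightOneSpectrum (𝓞 K), Fintype (PlacesOver M v) := fun v => Fintype.ofFinite _
  have hT : Finite T := by
    show Finite ((v : S) → {w : PlacesOver M v.1 // w ≠ w₀ v.1} → ZMod p)
    infer_instance
  have hcard : Nat.card T = p ^ (∑ v ∈ S, (Nat.card (PlacesOver M v) - 1)) := by
    show Nat.card ((v : S) → {w : PlacesOver M v.1 // w ≠ w₀ v.1} → ZMod p) = _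
    rw [Nat.card_pi]
    have e : ∀ v : S, Nat.card ({w : PlacesOver M v.1 // w ≠ w₀ v.1} → ZMod p) =
        p ^ (Nat.card (PlacesOver M v.1) - 1) := by
      intro v
      rw [Nat.card_fun, Nat.card_zmod]
      congr 1
      rw [Nat.card_eq_fintype_card, Nat.card_eq_fintype_card, Fintype.card_subtype_compl]
      simp
    rw [Finset.prod_congr rfl fun v _ => e v, Finset.prod_pow_eq_pow_sum]
    congr 1
    exact Finset.sum_coe_sort S fun v => Nat.card (PlacesOver M v) - 1
  refine ⟨g.ker, ?_, ?_, fun P => ?_⟩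
  · rw [AddSubgroup.index_ker]
    exact Nat.card_pos.ne'
  · rw [AddSubgroup.index_ker, ← hcard]
    exact Nat.card_le_card_of_injective _ Subtype.val_injective
  · rw [AddMonoidHom.mem_ker]
    constructor
    · intro h v hv
      have h3 : ∀ w : PlacesOver M v, w ≠ w₀ v → (p : ℤ) ∣ vOrd w.1 (φ P) := by
        intro w hw
        rw [← vMod_eq_zero]
        exact congrFun (congrFun h ⟨v, hv⟩) ⟨w, hw⟩
      intro w
      by_cases hw : w = w₀ v
      · rw [hw]
        exact hw₀ v (φ P) (h0 P) (h1 P) h3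
      · exact h3 w hw
    · intro h
      funext v w
      exact (vMod_eq_zero _ _ _).2 (h v.1 v.2 w.1)

end base

section bar

variable {K : Type u} [Field K]

/-- `DivAt p L 𝔓 c` says that the valuation of `c` at the place of `L` below `𝔓` is divisible by `p`. -/
theorem divAt_iff (p : ℕ) (L : IntermediateField K (AlgebraicClosure K)) [NumberField L]
    {𝔓 : Ideal (𝓞 (AlgebraicClosure K))} {w : HeightOneSpectrum (𝓞 L)} (hw : PrimeOver L 𝔓 w)
    {c : L} (hc : c ≠ 0) : DivAt p L 𝔓 (c : AlgebraicClosure K) ↔ (p : ℤ) ∣ vOrd w c := by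
  have hP : 𝔓.IsPrime := hw.1
  have hmem : ∀ z : 𝓞 L, algebraMap (𝓞 L) (𝓞 (AlgebraicClosure K)) z ∈ 𝔓 ↔ z ∈ w.asIdeal := by
    intro z
    rw [← hw.2]
    exact Iff.rfl
  have hco : ∀ z : 𝓞 L, ((algebraMap (𝓞 L) (𝓞 (AlgebraicClosure K)) z :
      𝓞 (AlgebraicClosure K)) : AlgebraicClosure K) = ((z : L) : AlgebraicClosure K) :=
    fun z => rfl
  constructor
  · rintro ⟨b, hb, hb0, x, y, hx, hy, hxy⟩
    have hbL : (⟨b, hb⟩ : L) ≠ 0 := fun h => hb0 (congrArg Subtype.val h)
    set β : L := ⟨b, hb⟩ with hβ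
    have hβp : β ^ p ≠ 0 := pow_ne_zero p hbL
    have hbp : b ^ p ≠ 0 := pow_ne_zero p hb0
    have hu0 : c / β ^ p ≠ 0 := div_ne_zero hc hβp
    -- the quotient `c / b ^ p` is a unit at `𝔓`
    have hu : ((c / β ^ p : L) : AlgebraicClosure K) * (y : AlgebraicClosure K) = x := by
      have h1 : ((c / β ^ p : L) : AlgebraicClosure K) = (c : AlgebraicClosure K) / b ^ p := rfl
      rw [h1, div_mul_eq_mul_div, hxy, mul_comm (b ^ p), mul_div_assoc, div_self hbp, mul_one]
    have h0 : vOrd w (c / β ^ p) = 0 := by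
      obtain ⟨n, d, h⟩ := w.exists_primeCompl_mul_eq_or_mul_eq (c / β ^ p)
      have hd : (d : 𝓞 L) ∉ w.asIdeal := d.2
      rcases h with h | h
      · have h' : (c / β ^ p) * ((d : 𝓞 L) : L) = (n : L) := h
        have h2 : x * algebraMap (𝓞 L) (𝓞 (AlgebraicClosure K)) d =
            algebraMap (𝓞 L) (𝓞 (AlgebraicClosure K)) n * y := by
          apply RingOfIntegers.ext
          show (x : AlgebraicClosure K) * (((d : 𝓞 L) : L) : AlgebraicClosure K) =
            ((n : L) : AlgebraicClosure K) * (y : AlgebraicClosure K)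
          rw [← h', ← hu]
          show _ = (((c / β ^ p : L) : AlgebraicClosure K) *
            (((d : 𝓞 L) : L) : AlgebraicClosure K)) * (y : AlgebraicClosure K)
          ring
        have hn : n ∉ w.asIdeal := by
          intro hn
          have h3 : x * algebraMap (𝓞 L) (𝓞 (AlgebraicClosure K)) d ∈ 𝔓 := by
            rw [h2]
            exact Ideal.mul_mem_right _ _ ((hmem n).2 hn)
          rcases hP.mem_or_mem h3 with h4 | h4
          · exact hx h4
          · exact hd ((hmem _).1 h4)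
        have e := congrArg (vOrd w) h'
        have hd0 : ((d : 𝓞 L) : L) ≠ 0 := by
          intro h5
          apply hd
          have : (d : 𝓞 L) = 0 := RingOfIntegers.ext h5
          rw [this]
          exact w.asIdeal.zero_mem
        rw [vOrd_mul w hu0 hd0, vOrd_unit w hd, vOrd_unit w hn, add_zero] at e
        exact e
      · have h' : (c / β ^ p) * (n : L) = ((d : 𝓞 L) : L) := h
        have h2 : x * algebraMap (𝓞 L) (𝓞 (AlgebraicClosure K)) n =
            algebraMap (𝓞 L) (𝓞 (AlgebraicClosure K)) d * y := by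
          apply RingOfIntegers.ext
          show (x : AlgebraicClosure K) * ((n : L) : AlgebraicClosure K) =
            (((d : 𝓞 L) : L) : AlgebraicClosure K) * (y : AlgebraicClosure K)
          rw [← h', ← hu]
          show _ = (((c / β ^ p : L) : AlgebraicClosure K) *
            ((n : L) : AlgebraicClosure K)) * (y : AlgebraicClosure K)
          ring
        have hn : n ∉ w.asIdeal := by
          intro hn
          have h3 : algebraMap (𝓞 L) (𝓞 (AlgebraicClosure K)) d * y ∈ 𝔓 := by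
            rw [← h2]
            exact Ideal.mul_mem_left _ _ ((hmem n).2 hn)
          rcases hP.mem_or_mem h3 with h4 | h4
          · exact hd ((hmem _).1 h4)
          · exact hy h4
        have e := congrArg (vOrd w) h'
        have hn0 : (n : L) ≠ 0 := by
          intro h5
          apply hn
          have : n = 0 := RingOfIntegers.ext h5
          rw [this]
          exact w.asIdeal.zero_mem
        rw [vOrd_mul w hu0 hn0, vOrd_unit w hd, vOrd_unit w hn, add_zero] at e
        exact e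
    rw [vOrd_div w hc hβp, vOrd_pow] at h0
    exact ⟨vOrd w β, by linarith⟩
  · rintro ⟨k, hk⟩
    obtain ⟨π, hπ, hπ1⟩ := vOrd_uniformizer w
    have hπk : (π ^ k) ^ p ≠ 0 := pow_ne_zero p (zpow_ne_zero _ hπ)
    have hu0 : c / (π ^ k) ^ p ≠ 0 := div_ne_zero hc hπk
    have h1 : vOrd w (c / (π ^ k) ^ p) = 0 := by
      rw [vOrd_div w hc hπk, vOrd_pow, vOrd_zpow, hπ1, hk]
      ring
    obtain ⟨x, y, hx, hy, hxy⟩ := vOrd_zero w hu0 h1
    refine ⟨((π ^ k : L) : AlgebraicClosure K), (π ^ k : L).2,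
      fun h => zpow_ne_zero k hπ (Subtype.ext h),
      algebraMap _ _ x, algebraMap _ _ y, fun h => hx ((hmem x).1 h), fun h => hy ((hmem y).1 h), ?_⟩
    have h2 : c * (y : L) = (π ^ k) ^ p * (x : L) := by
      rw [← hxy, mul_comm ((π ^ k) ^ p), div_mul_eq_mul_div, div_mul_cancel₀ _ hπk]
    exact congrArg (fun z : L => (z : AlgebraicClosure K)) h2

variable [NumberField K]

/-- As `v6_even_subgroup`, with a prime number `p` which does not divide the degree of `L`. -/
theorem v9_div_subgroup_bar {p : ℕ} (hp : p.Prime) (L F : IntermediateField K (AlgebraicClosure K))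
    [FiniteDimensional K L] [FiniteDimensional K F] (hn : ¬ p ∣ Module.finrank K L)
    (hT : TransOn L F.fixingSubgroup)
    {A : Type*} [AddCommGroup A] (φ : A → (L ⊔ F : IntermediateField K (AlgebraicClosure K)))
    (h0 : ∀ P, φ P ≠ 0)
    (h1 : ∀ P, ∃ d ∈ F, normG L F.fixingSubgroup (φ P : AlgebraicClosure K) = d ^ p)
    (h2 : ∀ P Q, ∃ d, φ P * φ Q = φ (P + Q) * d ^ p) (S : Finset (HeightOneSpectrum (𝓞 F))) :
    ∃ B : AddSubgroup A, B.index ≠ 0 ∧ B.index ≤ p ^ excessOver L F S ∧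
      ∀ P, P ∈ B ↔ ∀ v ∈ S, ∀ 𝔓, PrimeOver F 𝔓 v →
        DivAt p (L ⊔ F) 𝔓 (φ P : AlgebraicClosure K) := by
  let _ := v6Alg L F
  have htow : IsScalarTower F (L ⊔ F : IntermediateField K (AlgebraicClosure K))
      (AlgebraicClosure K) := IsScalarTower.of_algebraMap_eq fun x => rfl
  have hnF : NumberField F := NumberField.of_module_finite K F
  have hnM : NumberField (L ⊔ F : IntermediateField K (AlgebraicClosure K)) :=
    NumberField.of_module_finite K _
  -- primes and places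
  have hcomp : ∀ 𝔓 : Ideal (𝓞 (AlgebraicClosure K)),
      (𝔓.comap (algebraMap (𝓞 (L ⊔ F : IntermediateField K (AlgebraicClosure K)))
        (𝓞 (AlgebraicClosure K)))).comap
        (algebraMap (𝓞 F) (𝓞 (L ⊔ F : IntermediateField K (AlgebraicClosure K)))) =
      𝔓.comap (algebraMap (𝓞 F) (𝓞 (AlgebraicClosure K))) := by
    intro 𝔓
    ext x
    rw [Ideal.mem_comap, Ideal.mem_comap, Ideal.mem_comap]
    rfl
  have hplace : ∀ (v : HeightOneSpectrum (𝓞 F)) (𝔓 : Ideal (𝓞 (AlgebraicClosure K))),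
      PrimeOver F 𝔓 v → ∃ w : PlacesOver (L ⊔ F : IntermediateField K (AlgebraicClosure K)) v,
        PrimeOver (L ⊔ F) 𝔓 w.1 := by
    intro v 𝔓 h
    have hint : Algebra.IsIntegral (𝓞 K) (𝓞 F) := inferInstance
    have habove : Above 𝔓 (v.under (𝓞 K)) := by
      refine ⟨h.1, ?_⟩
      rw [← plb_comap_comap F 𝔓, h.2]
      rfl
    obtain ⟨w, hw, -⟩ := exists_placeBelow (L ⊔ F) (v.under (𝓞 K)) 𝔓 habove 1
    rw [one_smul] at hw
    refine ⟨⟨w, ?_⟩, hw⟩
    rw [← hw.2, hcomp, h.2]
  have hprime : ∀ (v : HeightOneSpectrum (𝓞 F))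
      (w : PlacesOver (L ⊔ F : IntermediateField K (AlgebraicClosure K)) v),
      ∃ 𝔓, PrimeOver (L ⊔ F) 𝔓 w.1 ∧ PrimeOver F 𝔓 v := by
    intro v w
    have hi := plb_integral (L ⊔ F : IntermediateField K (AlgebraicClosure K))
    have hwp : w.1.asIdeal.IsPrime := w.1.isPrime
    obtain ⟨𝔔, hQ, hQw⟩ := Ideal.exists_ideal_over_prime_of_isIntegral_of_isDomain
      (S := 𝓞 (AlgebraicClosure K)) w.1.asIdeal (by
        rw [(RingHom.injective_iff_ker_eq_bot _).1
          (FaithfulSMul.algebraMap_injective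
            (𝓞 (L ⊔ F : IntermediateField K (AlgebraicClosure K))) (𝓞 (AlgebraicClosure K)))]
        exact bot_le)
    refine ⟨𝔔, ⟨hQ, hQw⟩, hQ, ?_⟩
    rw [← hcomp, hQw]
    exact w.2
  have hcard : ∀ v : HeightOneSpectrum (𝓞 F), placeCountOver L F v =
      Nat.card (PlacesOver (L ⊔ F : IntermediateField K (AlgebraicClosure K)) v) := by
    intro v
    unfold placeCountOver PlacesOver
    refine Nat.card_congr (Equiv.subtypeEquivRight fun w => ?_)
    constructor
    · rintro ⟨𝔓, h1, h2⟩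
      rw [← h1.2, hcomp, h2.2]
    · intro h
      exact hprime v ⟨w, h⟩
  have hex : excessOver L F S = ∑ v ∈ S,
      (Nat.card (PlacesOver (L ⊔ F : IntermediateField K (AlgebraicClosure K)) v) - 1) := by
    unfold excessOver
    exact Finset.sum_congr rfl fun v _ => by rw [hcard]
  have hnorm : ∀ P, ∃ d, Algebra.norm F (φ P) = d ^ p := by
    intro P
    obtain ⟨d, hd, hdd⟩ := h1 P
    refine ⟨⟨d, hd⟩, ?_⟩
    apply (algebraMap F (AlgebraicClosure K)).injective
    rw [v6_norm L F hT, hdd]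
    rfl
  have hnF' : ¬ p ∣ Module.finrank F (L ⊔ F : IntermediateField K (AlgebraicClosure K)) := by
    rw [v6_finrank L F hT]
    exact hn
  obtain ⟨B, hB0, hB, hBe⟩ := v9_div_subgroup hp hnF' φ h0 hnorm h2 S
  refine ⟨B, hB0, by rw [hex]; exact hB, fun P => ?_⟩
  rw [hBe]
  constructor
  · intro h v hv 𝔓 h𝔓
    obtain ⟨w, hw⟩ := hplace v 𝔓 h𝔓
    exact (divAt_iff p (L ⊔ F) hw (h0 P)).2 (h v hv w)
  · intro h v hv w
    obtain ⟨𝔓, hw, h𝔓⟩ := hprime v w
    exact (divAt_iff p (L ⊔ F) hw (h0 P)).1 (h v hv 𝔓 h𝔓)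

end bar

end Pool.Agent.H.MP_ac3185_nt
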