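import Pool.Agent.H.MP_ac3185_nt.V8.Rho
import Pool.Agent.H.MP_ac3185_nt.V9.UnrDiv
import Pool.Agent.H.MP_ac3185_nt.V9.ValP
import Pool.Agent.H.MP_ac3185_nt.V9.SelCardM

/-! The number of the classes in `charClasses` is bounded by the numbers of the classes modulo `p`-th
powers with valuations divisible by `p` of `LF` and of `F`. -/

set_option autoImplicit false

open NumberField IsDedekindDomain

namespace Pool.Agent.H.MP_ac3185_nt

universe u

/-- The number of the `x` in the class group of `E` with `x ^ p = 1`, times `p ^ r w`, where `r` is the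
rank of the group of units of `E` and `w` is the number of the `z` in `E` with `z ^ p = 1`. -/
noncomputable def selNumP (p : ℕ) (E : Type u) [Field E] [NumberField E] : ℕ :=
  Nat.card {x : ClassGroup (𝓞 E) // x ^ p = 1} *
    (p ^ Units.rank E * Nat.card {z : E // z ^ p = 1})

theorem selNumP_pow {p : ℕ} (hp : p.Prime) (E : Type u) [Field E] [NumberField E] :
    ∃ k : ℕ, selNumP p E = p ^ k := by
  have hpf : Fact p.Prime := ⟨hp⟩
  let G : Subgroup (ClassGroup (𝓞 E)) := (powMonoidHom p : ClassGroup (𝓞 E) →* _).ker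
  have h2 : IsPGroup p G := fun x => ⟨1, by
    apply Subtype.ext
    have h3 : (x : ClassGroup (𝓞 E)) ^ p = 1 := x.2
    rw [pow_one]
    exact h3⟩
  obtain ⟨k, hk⟩ := (IsPGroup.iff_card (p := p)).1 h2
  have h1 : Nat.card {x : ClassGroup (𝓞 E) // x ^ p = 1} = p ^ k := hk
  have h4 : ∃ j : ℕ, Nat.card {z : E // z ^ p = 1} = p ^ j := by
    rw [unitM_roots E hp.ne_zero]
    have h5 := (Nat.dvd_prime hp).1 (Nat.gcd_dvd_right (Nat.card (Units.torsion E)) p)
    rcases h5 with h5 | h5
    · exact ⟨0, by rw [h5, pow_zero]⟩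
    · exact ⟨1, by rw [h5, pow_one]⟩
  obtain ⟨j, hj⟩ := h4
  refine ⟨k + (Units.rank E + j), ?_⟩
  unfold selNumP
  rw [h1, hj, pow_add, pow_add]

variable {K : Type u} [Field K] [NumberField K]

/-- If a `p`-th root of `a` is unramified over `E` at the place below `𝔓`, then the valuation of `a`
there is divisible by `p`. -/
theorem v9_div_of_unr (E : IntermediateField K (AlgebraicClosure K)) [FiniteDimensional K E]
    {p : ℕ} (hp : p.Prime) {𝔓 : Ideal (𝓞 (AlgebraicClosure K))} (h𝔓 : FinPrime 𝔓) {a : E}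
    (ha : a ≠ 0) (h : UnrP p E 𝔓 (a : AlgebraicClosure K)) :
    DivAt p E 𝔓 (a : AlgebraicClosure K) := by
  have _ : NumberField E := NumberField.of_module_finite K E
  obtain ⟨v, hv⟩ := v2c_above 𝔓 h𝔓
  obtain ⟨w, hw⟩ := v2_place E hv
  rw [divAt_iff p E hw ha]
  by_contra hndvd
  obtain ⟨z, hz, hfix⟩ := h
  obtain ⟨s, hs, hsE, hsz⟩ := v9_inertia_moves E hp hw ha hndvd hz
  exact hsz (hfix s hs hsE)

/-- Divisibility at all places in terms of the primes of the algebraic closure. -/
theorem rhoP_div (p : ℕ) (E : IntermediateField K (AlgebraicClosure K)) [NumberField E]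
    [FiniteDimensional K E] {c : E} (hc : c ≠ 0) :
    (∀ w : HeightOneSpectrum (𝓞 E), (p : ℤ) ∣ vOrd w c) ↔
      ∀ 𝔓 : Ideal (𝓞 (AlgebraicClosure K)), FinPrime 𝔓 → DivAt p E 𝔓 (c : AlgebraicClosure K) := by
  constructor
  · intro h 𝔓 h𝔓
    obtain ⟨v, hv⟩ := v2c_above 𝔓 h𝔓
    obtain ⟨w, hw⟩ := v2_place E hv
    exact (divAt_iff p E hw hc).2 (h _)
  · intro h w
    obtain ⟨𝔓, h1, h2⟩ := v2_prime E (v := w.under (𝓞 K)) ⟨w, rfl⟩
    refine (divAt_iff p E h2 hc).1 (h 𝔓 ⟨h1.1, ?_⟩)
    rintro rfl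
    apply w.ne_bot
    rw [← h2.2]
    exact Ideal.comap_bot_of_injective _
      (FaithfulSMul.algebraMap_injective (𝓞 E) (𝓞 (AlgebraicClosure K)))

/-- The classes of norm a `p`-th power and the classes of `F` give different classes of `LF`. -/
theorem rhoP_count {p : ℕ} (hp : p.Prime) (L F : IntermediateField K (AlgebraicClosure K))
    [FiniteDimensional K L] [FiniteDimensional K F] [NumberField F]
    [NumberField (L ⊔ F : IntermediateField K (AlgebraicClosure K))]
    (hn : (Module.finrank K L).Coprime p) (hT : TransOn L F.fixingSubgroup)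
    (Y : Finset (L ⊔ F : IntermediateField K (AlgebraicClosure K)))
    (h1 : ∀ a ∈ Y, a ≠ 0 ∧ (∀ w : HeightOneSpectrum
      (𝓞 (L ⊔ F : IntermediateField K (AlgebraicClosure K))), (p : ℤ) ∣ vOrd w a) ∧
      ∃ d ∈ F, normG L F.fixingSubgroup (a : AlgebraicClosure K) = d ^ p)
    (h2 : ∀ a ∈ Y, ∀ a' ∈ Y, ∀ u : (L ⊔ F : IntermediateField K (AlgebraicClosure K)), u ≠ 0 →
      a = a' * u ^ p → a = a') :
    Y.card * selNumP p F ≤ selNumP p (L ⊔ F : IntermediateField K (AlgebraicClosure K)) := by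
  classical
  obtain ⟨TF, hTF, hF1, hF2, hF3⟩ := selCardM F hp.ne_zero
  obtain ⟨TM, hTM, hM1, hM2, hM3⟩ :=
    selCardM (L ⊔ F : IntermediateField K (AlgebraicClosure K)) hp.ne_zero
  let j : F → (L ⊔ F : IntermediateField K (AlgebraicClosure K)) := fun b =>
    ⟨b.1, (le_sup_right : F ≤ L ⊔ F) b.2⟩
  have hj0 : ∀ b : F, b ≠ 0 → j b ≠ 0 := fun b hb h =>
    hb (Subtype.ext (show (b : AlgebraicClosure K) = 0 from congrArg Subtype.val h))
  have hjdiv : ∀ b ∈ TF, ∀ w : HeightOneSpectrum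
      (𝓞 (L ⊔ F : IntermediateField K (AlgebraicClosure K))), (p : ℤ) ∣ vOrd w (j b) := by
    intro b hb
    rw [rhoP_div p (L ⊔ F) (hj0 b (hF1 b hb).1)]
    intro 𝔓 h𝔓
    obtain ⟨d, hd, hd0, x, y, hx, hy, he⟩ :=
      (rhoP_div p F (hF1 b hb).1).1 (hF1 b hb).2 𝔓 h𝔓
    exact ⟨d, (le_sup_right : F ≤ L ⊔ F) hd, hd0, x, y, hx, hy, he⟩
  have hrep : ∀ q ∈ Y ×ˢ TF, ∃ t ∈ TM, ∃ u : (L ⊔ F : IntermediateField K (AlgebraicClosure K)),
      u ≠ 0 ∧ q.1 * j q.2 = t * u ^ p := by
    intro q hq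
    obtain ⟨hq1, hq2⟩ := Finset.mem_product.1 hq
    have ha := (h1 _ hq1).1
    have hb := hj0 _ (hF1 _ hq2).1
    refine hM2 _ (mul_ne_zero ha hb) fun w => ?_
    rw [vOrd_mul w ha hb]
    exact dvd_add ((h1 _ hq1).2.1 w) (hjdiv _ hq2 w)
  choose! t ht u hu0 hu using hrep
  have hinj : Set.InjOn t (Y ×ˢ TF : Finset _) := by
    rintro ⟨a, b⟩ hq ⟨a', b'⟩ hq' heq
    have hu1 := hu _ hq
    have hu2 := hu _ hq'
    have hu01 := hu0 _ hq
    have hu02 := hu0 _ hq'
    obtain ⟨hq1, hq2⟩ := Finset.mem_product.1 hq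
    obtain ⟨hq1', hq2'⟩ := Finset.mem_product.1 hq'
    simp only at hu1 hu2 hq1 hq2 hq1' hq2'
    obtain ⟨ha0, -, d, hd, hdd⟩ := h1 a hq1
    obtain ⟨ha0', -, d', hd', hdd'⟩ := h1 a' hq1'
    have hb0 := (hF1 b hq2).1
    have hb0' := (hF1 b' hq2').1
    set w := u (a, b) / u (a', b') with hw
    have hw0 : w ≠ 0 := div_ne_zero hu01 hu02
    have e1 : a * j b = a' * j b' * w ^ p := by
      rw [hu1, hu2, heq, hw, div_pow]
      have h3 : u (a', b') ^ p ≠ 0 := pow_ne_zero p hu02
      field_simp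
    -- the norms
    have e2 : normG L F.fixingSubgroup ((a * j b : (L ⊔ F :
        IntermediateField K (AlgebraicClosure K))) : AlgebraicClosure K) =
        d ^ p * (b : AlgebraicClosure K) ^ Module.finrank K L := by
      show normG L F.fixingSubgroup ((a : AlgebraicClosure K) * (b : AlgebraicClosure K)) = _
      rw [v4_norm_mul, hdd, v4_norm_pow L _ hT (fun s hs => vn_fix F b.2 hs)]
    have hnp : ∀ (x : AlgebraicClosure K) (k : ℕ),
        normG L F.fixingSubgroup (x ^ k) = normG L F.fixingSubgroup x ^ k := by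
      intro x k
      induction k with
      | zero =>
        rw [pow_zero, pow_zero, v4_norm_pow L _ hT (fun s _ => map_one s), one_pow]
      | succ k ih => rw [pow_succ, pow_succ, v4_norm_mul, ih]
    have e3 : normG L F.fixingSubgroup ((a' * j b' * w ^ p : (L ⊔ F :
        IntermediateField K (AlgebraicClosure K))) : AlgebraicClosure K) =
        d' ^ p * (b' : AlgebraicClosure K) ^ Module.finrank K L *
          normG L F.fixingSubgroup (w : AlgebraicClosure K) ^ p := by
      show normG L F.fixingSubgroup ((a' : AlgebraicClosure K) * (b' : AlgebraicClosure K) *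
        (w : AlgebraicClosure K) ^ p) = _
      rw [v4_norm_mul, v4_norm_mul, hnp, hdd',
        v4_norm_pow L _ hT (fun s hs => vn_fix F b'.2 hs)]
    rw [e1, e3] at e2
    set m := normG L F.fixingSubgroup (w : AlgebraicClosure K) with hm
    have hmF : m ∈ F := by
      apply rho_mem F
      apply v4_norm_fix L _ hT
      intro s hs
      rw [← IntermediateField.fixingSubgroup_sup] at hs
      exact vn_fix (L ⊔ F) w.2 hs
    have hw0' : (w : AlgebraicClosure K) ≠ 0 := fun h => hw0 (Subtype.ext h)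
    have hm0 : m ≠ 0 := v4_norm_ne L _ hw0'
    have ha00 : (a : AlgebraicClosure K) ≠ 0 := fun h => ha0 (Subtype.ext h)
    have ha00' : (a' : AlgebraicClosure K) ≠ 0 := fun h => ha0' (Subtype.ext h)
    have hd0 : d ≠ 0 := by
      rintro rfl
      rw [zero_pow hp.ne_zero] at hdd
      exact v4_norm_ne L _ ha00 hdd
    have hd0' : d' ≠ 0 := by
      rintro rfl
      rw [zero_pow hp.ne_zero] at hdd'
      exact v4_norm_ne L _ ha00' hdd'
    have hbb : b = b' := by
      obtain ⟨k, -, hk⟩ := Nat.exists_mul_mod_eq_one_of_coprime hn hp.one_lt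
      let dF : F := ⟨d, hd⟩
      let dF' : F := ⟨d', hd'⟩
      let mF : F := ⟨m, hmF⟩
      have hdF : dF ≠ 0 := fun h => hd0 (congrArg Subtype.val h)
      have hdF' : dF' ≠ 0 := fun h => hd0' (congrArg Subtype.val h)
      have hmF0 : mF ≠ 0 := fun h => hm0 (congrArg Subtype.val h)
      have e4 : dF' ^ p * b' ^ Module.finrank K L * mF ^ p = dF ^ p * b ^ Module.finrank K L := by
        apply Subtype.ext
        exact e2
      have e5 : (b / b') ^ Module.finrank K L = (dF' * mF / dF) ^ p := by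
        rw [div_pow, div_pow, mul_pow, div_eq_div_iff (pow_ne_zero _ hb0') (pow_ne_zero _ hdF)]
        linear_combination -e4
      have e6 : Module.finrank K L * k = p * (Module.finrank K L * k / p) + 1 := by
        have h3 := Nat.div_add_mod (Module.finrank K L * k) p
        rw [hk] at h3
        exact h3.symm
      set l := Module.finrank K L * k / p with hl
      have e7 : b / b' = ((dF' * mF / dF) ^ k / (b / b') ^ l) ^ p := by
        have hbb0 : b / b' ≠ 0 := div_ne_zero hb0 hb0'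
        rw [div_pow, eq_div_iff (pow_ne_zero _ (pow_ne_zero _ hbb0))]
        calc b / b' * ((b / b') ^ l) ^ p = (b / b') ^ (p * l + 1) := by
              rw [pow_succ, mul_comm p l, pow_mul, mul_comm]
          _ = ((b / b') ^ Module.finrank K L) ^ k := by rw [← e6, pow_mul]
          _ = ((dF' * mF / dF) ^ k) ^ p := by rw [e5, ← pow_mul, ← pow_mul, mul_comm p k]
      refine hF3 b hq2 b' hq2' ((dF' * mF / dF) ^ k / (b / b') ^ l) ?_
      rw [← e7, mul_div_cancel₀ _ hb0']
    have haa : a = a' := by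
      refine h2 a hq1 a' hq1' w hw0 ?_
      have e7 : j b ≠ 0 := hj0 b hb0
      rw [← hbb] at e1
      have e8 : a * j b = a' * w ^ p * j b := by rw [e1]; ring
      exact mul_right_cancel₀ e7 e8
    rw [haa, hbb]
  have hle := Finset.card_le_card_of_injOn t ht hinj
  rw [Finset.card_product, hTF, hTM] at hle
  exact hle

/-- `selNumP p F` divides `selNumP p LF`, and the quotient bounds the number of the classes in
`charClasses`. -/
theorem rhoP_main {p : ℕ} (hp : p.Prime) (L F : IntermediateField K (AlgebraicClosure K))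
    [FiniteDimensional K L] [FiniteDimensional K F] [NumberField F]
    [NumberField (L ⊔ F : IntermediateField K (AlgebraicClosure K))]
    (hn : (Module.finrank K L).Coprime p) (hT : TransOn L F.fixingSubgroup) :
    ∃ ρ : ℕ, selNumP p (L ⊔ F : IntermediateField K (AlgebraicClosure K)) =
        p ^ ρ * selNumP p F ∧
      ∀ (Rel : Set (((AlgebraicClosure K ≃ₐ[K] AlgebraicClosure K) ⧸ F.fixingSubgroup) → ℤ))
        (T : Set (HeightOneSpectrum (𝓞 F))), PowClasses p (charClasses p L F Rel T) (p ^ ρ) := by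
  classical
  obtain ⟨kF, hkF⟩ := selNumP_pow hp F
  obtain ⟨kM, hkM⟩ := selNumP_pow hp (L ⊔ F : IntermediateField K (AlgebraicClosure K))
  have h1 : selNumP p F ≤ selNumP p (L ⊔ F : IntermediateField K (AlgebraicClosure K)) := by
    have h2 := rhoP_count hp L F hn hT {1} (by
      intro a ha
      rw [Finset.mem_singleton] at ha
      subst ha
      refine ⟨one_ne_zero, fun w => ?_, 1, F.one_mem, ?_⟩
      · rw [vOrd_one]
        exact dvd_zero _
      · show normG L F.fixingSubgroup (1 : AlgebraicClosure K) = 1 ^ p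
        rw [v4_norm_pow L _ hT (fun s _ => map_one s), one_pow, one_pow]) (by
      intro a ha a' ha' u _ _
      rw [Finset.mem_singleton] at ha ha'
      rw [ha, ha'])
    rwa [Finset.card_singleton, one_mul] at h2
  have hle : kF ≤ kM := by
    rw [hkF, hkM] at h1
    exact (Nat.pow_le_pow_iff_right hp.one_lt).1 h1
  refine ⟨kM - kF, ?_, fun Rel T => ?_⟩
  · rw [hkF, hkM, ← pow_add, Nat.sub_add_cancel hle]
  · obtain ⟨TM, hTM, hM1, hM2, hM3⟩ :=
      selCardM (L ⊔ F : IntermediateField K (AlgebraicClosure K)) hp.ne_zero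
    let X := charClasses p L F Rel T
    have hX : ∀ a ∈ X, a ≠ 0 ∧ (∀ w : HeightOneSpectrum
        (𝓞 (L ⊔ F : IntermediateField K (AlgebraicClosure K))), (p : ℤ) ∣ vOrd w a) ∧
        ∃ d ∈ F, normG L F.fixingSubgroup (a : AlgebraicClosure K) = d ^ p := by
      rintro a ⟨ha0, hd, -, hunr, hdiv⟩
      refine ⟨ha0, ?_, hd⟩
      rw [rhoP_div p (L ⊔ F) ha0]
      intro 𝔓 h𝔓
      obtain ⟨v, hv⟩ := v2c_above 𝔓 h𝔓
      obtain ⟨w, hw⟩ := v2_place F hv
      by_cases h : (p : 𝓞 F) ∉ w.1.asIdeal ∨ w.1 ∈ T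
      · exact v9_div_of_unr _ hp h𝔓 ha0 (hunr w.1 𝔓 hw h)
      · push Not at h
        exact hdiv w.1 𝔓 hw h.1 h.2
    let TX := TM.filter fun t => ∃ a ∈ X, ∃ u : (L ⊔ F : IntermediateField K (AlgebraicClosure K)),
      u ≠ 0 ∧ a = t * u ^ p
    have hch : ∀ t ∈ TX, ∃ a ∈ X, ∃ u : (L ⊔ F : IntermediateField K (AlgebraicClosure K)),
        u ≠ 0 ∧ a = t * u ^ p := fun t ht => (Finset.mem_filter.1 ht).2
    choose! a haX u hu0 hu using hch
    have hainj : ∀ t ∈ TX, ∀ t' ∈ TX, ∀ w : (L ⊔ F : IntermediateField K (AlgebraicClosure K)),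
        w ≠ 0 → a t = a t' * w ^ p → t = t' := by
      intro t ht t' ht' w hw he
      refine hM3 t (Finset.mem_filter.1 ht).1 t' (Finset.mem_filter.1 ht').1
        (u t' * w / u t) ?_
      have h3 := pow_ne_zero p (hu0 t ht)
      rw [hu t ht, hu t' ht'] at he
      rw [div_pow, mul_pow]
      field_simp
      linear_combination he
    refine ⟨TX.image a, ?_, ?_⟩
    · have h2 := rhoP_count hp L F hn hT (TX.image a) (by
        intro b hb
        obtain ⟨t, ht, rfl⟩ := Finset.mem_image.1 hb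
        exact hX _ (haX t ht)) (by
        intro b hb b' hb' w hw he
        obtain ⟨t, ht, rfl⟩ := Finset.mem_image.1 hb
        obtain ⟨t', ht', rfl⟩ := Finset.mem_image.1 hb'
        rw [hainj t ht t' ht' w hw he])
      rw [hkF, hkM, ← Nat.sub_add_cancel hle, pow_add] at h2
      exact Nat.le_of_mul_le_mul_right h2 (pow_pos hp.pos _)
    · intro c hc
      obtain ⟨hc0, hcev, -⟩ := hX c hc
      obtain ⟨t, ht, v, hv0, hv⟩ := hM2 c hc0 hcev
      have htX : t ∈ TX := Finset.mem_filter.2 ⟨ht, c, hc, v, hv0, hv⟩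
      refine ⟨a t, Finset.mem_image_of_mem a htX, v / u t, div_ne_zero hv0 (hu0 t htX), ?_⟩
      have h3 := pow_ne_zero p (hu0 t htX)
      rw [hu t htX, hv, div_pow]
      field_simp

end Pool.Agent.H.MP_ac3185_nt
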