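import Pool.Agent.H.MP_ac3185_nt.V.Unit
import Pool.Agent.H.MP_ac3185_nt.V9.Defs

/-! Roots of elements whose valuation is divisible by `p`, and inertia at a prime not above `p`. -/

set_option autoImplicit false

open NumberField IsDedekindDomain

namespace Pool.Agent.H.MP_ac3185_nt

universe u

section unitp

variable {K : Type u} [Field K] {L : Type u} [Field L] [Algebra K L]

/-- An element of the inertia group of a prime `𝔔` which does not contain `p` fixes `s`, if it fixes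
`s ^ p`, and `s ^ p` is a unit at `𝔔`. -/
theorem UnitAt.fixed_pow {𝔔 : Ideal (𝓞 L)} [h𝔔 : 𝔔.IsPrime] {p : ℕ} (hp : 0 < p)
    (hp𝔔 : (p : 𝓞 L) ∉ 𝔔) {s : L} (hs : UnitAt 𝔔 (s ^ p)) {g : L ≃ₐ[K] L}
    (hg : g ∈ inertia K 𝔔) (h : g (s ^ p) = s ^ p) : g s = s := by
  have hs' : UnitAt 𝔔 s := UnitAt.of_pow hp hs
  have hs0 : s ≠ 0 := hs'.ne_zero
  obtain ⟨ζ, hζ⟩ : ∃ ζ : L, ζ = g s / s := ⟨_, rfl⟩
  have hgs : g s = ζ * s := by rw [hζ, div_mul_cancel₀ _ hs0]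
  have hζp : ζ ^ p = 1 := by
    rw [hζ, div_pow, ← map_pow, h, div_self (pow_ne_zero p hs0)]
  by_contra hne
  have hζ1 : ζ ≠ 1 := fun h1 => hne (by rw [hgs, h1, one_mul])
  have hint : IsIntegral ℤ ζ := by
    refine IsIntegral.of_pow hp ?_
    rw [hζp]
    exact isIntegral_one
  obtain ⟨ω, hω⟩ : ∃ ω : 𝓞 L, (ω : L) = ζ := ⟨⟨ζ, hint⟩, rfl⟩
  obtain ⟨a, b, ha, hb, hab⟩ := hs'
  have h3 : galInt g a * b = ω * (a * galInt g b) := by
    apply RingOfIntegers.ext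
    show g a * (b : L) = (ω : L) * ((a : L) * g b)
    rw [← hab, map_mul, hgs, hω]
    ring
  have h4 : (ω - 1) * (a * b) ∈ 𝔔 := by
    have e1 := hg a
    have e2 := hg b
    have h5 : (ω - 1) * (a * b) = (galInt g a - a) * b - ω * a * (galInt g b - b) := by
      linear_combination -h3
    rw [h5]
    exact 𝔔.sub_mem (𝔔.mul_mem_right _ e1) (𝔔.mul_mem_left _ e2)
  have h5 : ω - 1 ∈ 𝔔 := by
    rcases h𝔔.mem_or_mem h4 with h5 | h5
    · exact h5
    · rcases h𝔔.mem_or_mem h5 with h6 | h6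
      · exact absurd h6 ha
      · exact absurd h6 hb
  have hωp : ω ^ p = 1 := by
    apply RingOfIntegers.ext
    have h6 : algebraMap (𝓞 L) L (ω ^ p) = algebraMap (𝓞 L) L 1 := by
      rw [map_pow, map_one]
      show (ω : L) ^ p = 1
      rw [hω, hζp]
    exact h6
  have hω1 : ω - 1 ≠ 0 := by
    intro h6
    apply hζ1
    rw [← hω, sub_eq_zero.1 h6]
    exact map_one (algebraMap (𝓞 L) L)
  have h6 : ∑ i ∈ Finset.range p, ω ^ i = 0 := by
    have h7 := mul_geom_sum ω p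
    rw [hωp, sub_self] at h7
    exact (mul_eq_zero.1 h7).resolve_left hω1
  apply hp𝔔
  have h7 : (p : 𝓞 L) = -∑ i ∈ Finset.range p, (ω ^ i - 1) := by
    rw [Finset.sum_sub_distrib, h6, Finset.sum_const, Finset.card_range, nsmul_eq_mul, mul_one,
      zero_sub, neg_neg]
  rw [h7]
  refine 𝔔.neg_mem (𝔔.sum_mem fun i _ => ?_)
  obtain ⟨k, hk⟩ := sub_one_dvd_pow_sub_one ω i
  rw [hk]
  exact 𝔔.mul_mem_right _ h5

end unitp

section unr

variable {K : Type u} [Field K]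

/-- If the valuation of `a` at `𝔓` is divisible by `p`, and if `p` is not in `𝔓`, then the elements of
`Gal(Kbar/L)` in the inertia group of `𝔓` fix the `p`-th roots of `a`. -/
theorem v9_unr_all (p : ℕ) (hp : 0 < p) (L : IntermediateField K (AlgebraicClosure K))
    {𝔓 : Ideal (𝓞 (AlgebraicClosure K))} (h𝔓 : FinPrime 𝔓)
    (hp𝔓 : (p : 𝓞 (AlgebraicClosure K)) ∉ 𝔓) {a : AlgebraicClosure K} (ha : a ∈ L)
    (h : DivAt p L 𝔓 a) :
    ∀ s ∈ inertia K 𝔓, s ∈ L.fixingSubgroup → ∀ z, z ^ p = a → s z = z := by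
  have hP : 𝔓.IsPrime := h𝔓.1
  intro s hs hsL z hz
  obtain ⟨b, hb, hb0, x, y, hx, hy, hxy⟩ := h
  have hfix : ∀ c ∈ L, s c = c := (IntermediateField.mem_fixingSubgroup_iff L s).1 hsL
  have h3 : UnitAt 𝔓 ((z / b) ^ p) := by
    refine ⟨x, y, hx, hy, ?_⟩
    rw [div_pow, hz, div_mul_eq_mul_div, hxy, mul_comm, mul_div_assoc,
      div_self (pow_ne_zero p hb0), mul_one]
  have h5 := UnitAt.fixed_pow hp hp𝔓 h3 hs (by rw [div_pow, hz, map_div₀, map_pow, hfix a ha,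
    hfix b hb])
  rw [map_div₀, hfix b hb] at h5
  exact (div_left_inj' hb0).1 h5

/-- If the valuation of `a` at `𝔓` is divisible by `p`, and if `p` is not in `𝔓`, then `L(a^(1/p)) / L`
is unramified at `𝔓`. -/
theorem v9_unr (p : ℕ) (hp : p.Prime) (L : IntermediateField K (AlgebraicClosure K))
    {𝔓 : Ideal (𝓞 (AlgebraicClosure K))} (h𝔓 : FinPrime 𝔓)
    (hp𝔓 : (p : 𝓞 (AlgebraicClosure K)) ∉ 𝔓) {a : AlgebraicClosure K} (ha : a ∈ L)
    (h : DivAt p L 𝔓 a) : UnrP p L 𝔓 a := by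
  obtain ⟨z, hz⟩ := IsAlgClosed.exists_pow_nat_eq a hp.pos
  exact ⟨z, hz, fun s hs hsL => v9_unr_all p hp.pos L h𝔓 hp𝔓 ha h s hs hsL z hz⟩

end unr

end Pool.Agent.H.MP_ac3185_nt
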