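import Pool.Agent.H.MP_ac3185_nt.V9.Defs
import Pool.Agent.H.MP_ac3185_nt.V8.Sign

/-! Algebra of the character `ψ` and its conjugates. -/

set_option autoImplicit false

open CategoryTheory AlgebraicGeometry NumberField IsDedekindDomain
open scoped MonObj

namespace Pool.Agent.H.MP_ac3185_nt

universe u

section char

variable {K : Type u} [Field K] {A : Over (Spec (.of K))} [GrpObj A] [IsAbVar A] {p : ℕ}
  {F : IntermediateField K (AlgebraicClosure K)}
  {N N' : AddSubgroup (Pts A (AlgebraicClosure K))}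
  {ψ : Pts A (AlgebraicClosure K) → AlgebraicClosure K}

theorem v9_zero (hf : CharFrame p F N N' ψ) : ψ 0 = 1 := hf.triv 0 N.zero_mem

theorem v9_mul_neg (hf : CharFrame p F N N' ψ) {x : Pts A (AlgebraicClosure K)} (hx : x ∈ N') :
    ψ x * ψ (-x) = 1 := by
  rw [← hf.mul x hx (-x) (N'.neg_mem hx), add_neg_cancel, v9_zero hf]

theorem v9_ne (hf : CharFrame p F N N' ψ) {x : Pts A (AlgebraicClosure K)} (hx : x ∈ N') :
    ψ x ≠ 0 := by
  intro h
  have h1 := v9_mul_neg hf hx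
  rw [h, zero_mul] at h1
  exact zero_ne_one h1

theorem v9_neg (hf : CharFrame p F N N' ψ) {x : Pts A (AlgebraicClosure K)} (hx : x ∈ N') :
    ψ (-x) = (ψ x)⁻¹ :=
  eq_inv_of_mul_eq_one_right (v9_mul_neg hf hx)

theorem v9_sub (hf : CharFrame p F N N' ψ) {x y : Pts A (AlgebraicClosure K)} (hx : x ∈ N')
    (hy : y ∈ N') : ψ (x - y) = ψ x / ψ y := by
  rw [sub_eq_add_neg, hf.mul x hx _ (N'.neg_mem hy), v9_neg hf hy, div_eq_mul_inv]

theorem v9_sum (hf : CharFrame p F N N' ψ) {I : Type*} (J : Finset I)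
    (x : I → Pts A (AlgebraicClosure K)) (hx : ∀ i ∈ J, x i ∈ N') :
    ψ (∑ i ∈ J, x i) = ∏ i ∈ J, ψ (x i) := by
  classical
  induction J using Finset.induction_on with
  | empty => rw [Finset.sum_empty, Finset.prod_empty, v9_zero hf]
  | insert i J hi ih =>
    have h1 : ∑ i ∈ J, x i ∈ N' :=
      N'.sum_mem fun j hj => hx j (Finset.mem_insert_of_mem hj)
    rw [Finset.sum_insert hi, Finset.prod_insert hi,
      hf.mul _ (hx i (Finset.mem_insert_self i J)) _ h1,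
      ih fun j hj => hx j (Finset.mem_insert_of_mem hj)]

theorem v9_nsmul (hf : CharFrame p F N N' ψ) {x : Pts A (AlgebraicClosure K)} (hx : x ∈ N')
    (n : ℕ) : ψ (n • x) = ψ x ^ n := by
  induction n with
  | zero => rw [zero_smul, pow_zero, v9_zero hf]
  | succ n ih => rw [succ_nsmul, hf.mul _ (N'.nsmul_mem hx n) _ hx, ih, pow_succ]

/-- `ψ` depends only on the class modulo `N`. -/
theorem v9_congr (hf : CharFrame p F N N' ψ) {x y : Pts A (AlgebraicClosure K)} (hx : x ∈ N')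
    (h : y - x ∈ N) : ψ y = ψ x := by
  have h1 := hf.mul x hx (y - x) (hf.le h)
  rw [add_sub_cancel, hf.triv _ h, mul_one] at h1
  exact h1

/-- `p N' ≤ N`. -/
theorem v9_smul_mem (hf : CharFrame p F N N' ψ) {x : Pts A (AlgebraicClosure K)} (hx : x ∈ N') :
    p • x ∈ N := by
  refine hf.core _ (N'.nsmul_mem hx p) fun g => ?_
  have h1 : act A g (p • x) = p • act A g x := map_nsmul (galHom A g) p x
  rw [h1, v9_nsmul hf (hf.stabN' g x hx), hf.pow _ (hf.stabN' g x hx)]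

/-- The elements of the Galois group which act trivially on `N' / N` and on the `p`-th roots of
unity. -/
noncomputable def v9Triv (hf : CharFrame p F N N' ψ) :
    Subgroup (AlgebraicClosure K ≃ₐ[K] AlgebraicClosure K) where
  carrier := {s | (∀ x ∈ N', act A s x - x ∈ N) ∧ ∀ z : AlgebraicClosure K, z ^ p = 1 → s z = z}
  one_mem' := by
    refine ⟨fun x _ => ?_, fun z _ => rfl⟩
    rw [v2s_act_one, sub_self]
    exact N.zero_mem
  mul_mem' := by
    rintro s t ⟨hs, hs'⟩ ⟨ht, ht'⟩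
    refine ⟨fun x hx => ?_, fun z hz => ?_⟩
    · rw [v6_act_diff]
      exact N.add_mem (hf.stabN s _ (ht x hx)) (hs x hx)
    · rw [AlgEquiv.mul_apply, ht' z hz, hs' z hz]
  inv_mem' := by
    rintro s ⟨hs, hs'⟩
    refine ⟨fun x hx => ?_, fun z hz => ?_⟩
    · have h1 := N.neg_mem (hf.stabN s⁻¹ _ (hs x hx))
      rw [v2s_act_sub, ← v2s_act_mul, inv_mul_cancel, v2s_act_one, neg_sub] at h1
      exact h1
    · have h1 : s⁻¹ (s z) = z := by
        rw [← AlgEquiv.mul_apply, inv_mul_cancel, AlgEquiv.one_apply]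
      rwa [hs' z hz] at h1

theorem v9_mem_triv (hf : CharFrame p F N N' ψ)
    {s : AlgebraicClosure K ≃ₐ[K] AlgebraicClosure K} :
    s ∈ v9Triv hf ↔ (∀ x ∈ N', act A s x - x ∈ N) ∧
      ∀ z : AlgebraicClosure K, z ^ p = 1 → s z = z := Iff.rfl

theorem v9_triv_conj (hf : CharFrame p F N N' ψ)
    {s w : AlgebraicClosure K ≃ₐ[K] AlgebraicClosure K} (hw : w ∈ v9Triv hf) :
    s * w * s⁻¹ ∈ v9Triv hf := by
  refine ⟨fun x hx => ?_, fun z hz => ?_⟩
  · have h1 := hf.stabN s _ (hw.1 _ (hf.stabN' s⁻¹ x hx))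
    rw [v2s_act_sub, ← v2s_act_mul, ← v2s_act_mul, ← v2s_act_mul, mul_inv_cancel,
      v2s_act_one] at h1
    exact h1
  · have h1 : (s⁻¹ z) ^ p = 1 := by rw [← map_pow, hz, map_one]
    rw [AlgEquiv.mul_apply, AlgEquiv.mul_apply, hw.2 _ h1, ← AlgEquiv.mul_apply, mul_inv_cancel,
      AlgEquiv.one_apply]

/-- The conjugate of `ψ` can be computed with any representative. -/
theorem v9_conj (hf : CharFrame p F N N' ψ) (g : AlgebraicClosure K ≃ₐ[K] AlgebraicClosure K)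
    {x : Pts A (AlgebraicClosure K)} (hx : x ∈ N') :
    conjChar F ψ (g : (AlgebraicClosure K ≃ₐ[K] AlgebraicClosure K) ⧸ F.fixingSubgroup) x =
      g (ψ (act A g⁻¹ x)) := by
  obtain ⟨h, hh⟩ : ∃ h, h = g⁻¹ *
    (g : (AlgebraicClosure K ≃ₐ[K] AlgebraicClosure K) ⧸ F.fixingSubgroup).out := ⟨_, rfl⟩
  have h1 : h ∈ F.fixingSubgroup := by
    rw [hh, ← QuotientGroup.eq, QuotientGroup.out_eq']
  have h2 : (g : (AlgebraicClosure K ≃ₐ[K] AlgebraicClosure K) ⧸ F.fixingSubgroup).out =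
      g * h := by
    rw [hh, mul_inv_cancel_left]
  unfold conjChar
  rw [h2, mul_inv_rev, v2s_act_mul, hf.gal h⁻¹ (inv_mem h1) _ (hf.stabN' g⁻¹ x hx),
    AlgEquiv.mul_apply, ← AlgEquiv.mul_apply h h⁻¹, mul_inv_cancel, AlgEquiv.one_apply]

theorem v9_conj_mul (hf : CharFrame p F N N' ψ)
    (q : (AlgebraicClosure K ≃ₐ[K] AlgebraicClosure K) ⧸ F.fixingSubgroup)
    {x y : Pts A (AlgebraicClosure K)} (hx : x ∈ N') (hy : y ∈ N') :
    conjChar F ψ q (x + y) = conjChar F ψ q x * conjChar F ψ q y := by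
  unfold conjChar
  rw [v8_act_add, hf.mul _ (hf.stabN' _ x hx) _ (hf.stabN' _ y hy), map_mul]

theorem v9_conj_ne (hf : CharFrame p F N N' ψ)
    (q : (AlgebraicClosure K ≃ₐ[K] AlgebraicClosure K) ⧸ F.fixingSubgroup)
    {x : Pts A (AlgebraicClosure K)} (hx : x ∈ N') : conjChar F ψ q x ≠ 0 := by
  unfold conjChar
  exact (map_ne_zero q.out).2 (v9_ne hf (hf.stabN' _ x hx))

theorem v9_conj_sub (hf : CharFrame p F N N' ψ)
    (q : (AlgebraicClosure K ≃ₐ[K] AlgebraicClosure K) ⧸ F.fixingSubgroup)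
    {x y : Pts A (AlgebraicClosure K)} (hx : x ∈ N') (hy : y ∈ N') :
    conjChar F ψ q (x - y) = conjChar F ψ q x / conjChar F ψ q y := by
  have h1 := v9_conj_mul hf q (N'.sub_mem hx hy) hy
  rw [sub_add_cancel] at h1
  rw [h1, mul_div_cancel_right₀ _ (v9_conj_ne hf q hy)]

theorem v9_conj_pow (hf : CharFrame p F N N' ψ)
    (q : (AlgebraicClosure K ≃ₐ[K] AlgebraicClosure K) ⧸ F.fixingSubgroup)
    {x : Pts A (AlgebraicClosure K)} (hx : x ∈ N') : conjChar F ψ q x ^ p = 1 := by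
  unfold conjChar
  rw [← map_pow, hf.pow _ (hf.stabN' _ x hx), map_one]

theorem v9_conj_act (hf : CharFrame p F N N' ψ)
    (s : AlgebraicClosure K ≃ₐ[K] AlgebraicClosure K)
    (q : (AlgebraicClosure K ≃ₐ[K] AlgebraicClosure K) ⧸ F.fixingSubgroup)
    {x : Pts A (AlgebraicClosure K)} (hx : x ∈ N') :
    conjChar F ψ (s • q) (act A s x) = s (conjChar F ψ q x) := by
  obtain ⟨g, rfl⟩ := QuotientGroup.mk_surjective q
  have h1 : s • ((g : AlgebraicClosure K ≃ₐ[K] AlgebraicClosure K) :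
      (AlgebraicClosure K ≃ₐ[K] AlgebraicClosure K) ⧸ F.fixingSubgroup) =
      ((s * g : AlgebraicClosure K ≃ₐ[K] AlgebraicClosure K) :
      (AlgebraicClosure K ≃ₐ[K] AlgebraicClosure K) ⧸ F.fixingSubgroup) := rfl
  rw [h1, v9_conj hf (s * g) (hf.stabN' s x hx), v9_conj hf g hx, ← v2s_act_mul]
  have h2 : (s * g)⁻¹ * s = g⁻¹ := by group
  rw [h2, AlgEquiv.mul_apply]

end char

end Pool.Agent.H.MP_ac3185_nt
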