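import Pool.Agent.H.MP_ac3185_nt.V9.Defs
import Pool.Agent.H.MP_ac3185_nt.V8.Pt
import Pool.Agent.H.MP_ac3185_nt.helper6.Hilb

/-! The element attached to a point which is rational over `L` modulo `N'`, for a character with values
in the `p`-th roots of unity. -/

set_option autoImplicit false

open CategoryTheory AlgebraicGeometry NumberField IsDedekindDomain
open scoped MonObj

namespace Pool.Agent.H.MP_ac3185_nt

universe u

section pt

variable {K : Type u} [Field K] {A : Over (Spec (.of K))} [GrpObj A] [IsAbVar A]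
  {p : ℕ} (L F : IntermediateField K (AlgebraicClosure K))
  {N N' : AddSubgroup (Pts A (AlgebraicClosure K))}
  {ψ : Pts A (AlgebraicClosure K) → AlgebraicClosure K}

theorem v9_pt_sum (hf : CharFrame p F N N' ψ) {I : Type*} (J : Finset I)
    (x : I → Pts A (AlgebraicClosure K)) (hx : ∀ i ∈ J, x i ∈ N') :
    ψ (∑ i ∈ J, x i) = ∏ i ∈ J, ψ (x i) := by
  classical
  induction J using Finset.induction_on with
  | empty => rw [Finset.sum_empty, Finset.prod_empty, hf.triv 0 N.zero_mem]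
  | insert i J hi ih =>
    have h1 : ∑ i ∈ J, x i ∈ N' :=
      N'.sum_mem fun j hj => hx j (Finset.mem_insert_of_mem hj)
    rw [Finset.sum_insert hi, Finset.prod_insert hi,
      hf.mul _ (hx i (Finset.mem_insert_self i J)) _ h1,
      ih fun j hj => hx j (Finset.mem_insert_of_mem hj)]

theorem v9_pt_sub (hf : CharFrame p F N N' ψ) {x y : Pts A (AlgebraicClosure K)} (hx : x ∈ N')
    (hy : y ∈ N') : ψ (x - y) * ψ y = ψ x := by
  rw [← hf.mul _ (N'.sub_mem hx hy) _ hy, sub_add_cancel]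

theorem v9_pt_nsmul (hf : CharFrame p F N N' ψ) {x : Pts A (AlgebraicClosure K)} (hx : x ∈ N')
    (n : ℕ) : ψ (n • x) = ψ x ^ n := by
  induction n with
  | zero => rw [zero_smul, pow_zero, hf.triv 0 N.zero_mem]
  | succ n ih => rw [succ_nsmul, hf.mul _ (N'.nsmul_mem hx n) _ hx, ih, pow_succ]

/-- The cocycle attached to a point is given by an element of `Kbar`. -/
theorem v9_data [CharZero K] [FiniteDimensional K L] [FiniteDimensional K F]
    (hf : CharFrame p F N N' ψ) (b : Pts A (AlgebraicClosure K))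
    (hb : b ∈ ratPts A L.fixingSubgroup N') :
    ∃ r : AlgebraicClosure K, r ≠ 0 ∧ ∀ s ∈ L.fixingSubgroup, s ∈ F.fixingSubgroup →
      s r = ψ (act A s b - b) * r := by
  have hfd : FiniteDimensional K (L ⊔ F : IntermediateField K (AlgebraicClosure K)) :=
    IntermediateField.finiteDimensional_sup L F
  obtain ⟨E, hE, hEb⟩ := vf_finite A b
  have hsup : ∀ s : AlgebraicClosure K ≃ₐ[K] AlgebraicClosure K,
      s ∈ (L ⊔ F : IntermediateField K (AlgebraicClosure K)).fixingSubgroup ↔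
        s ∈ L.fixingSubgroup ∧ s ∈ F.fixingSubgroup := by
    intro s
    rw [IntermediateField.fixingSubgroup_sup]
    exact Iff.rfl
  obtain ⟨r, hr, h⟩ := v9_hilbert90 (L ⊔ F) E (fun s => ψ (act A s b - b)) (by
      intro s hs t ht
      show ψ (act A (s * t) b - b) = ψ (act A s b - b) * s (ψ (act A t b - b))
      rw [v6_act_diff, hf.mul _ (hf.stabN' s _ (hb t ((hsup t).1 ht).1)) _ (hb s ((hsup s).1 hs).1),
        hf.gal s ((hsup s).1 hs).2 _ (hb t ((hsup t).1 ht).1), mul_comm]) (by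
      intro s _ hs
      show ψ (act A s b - b) = 1
      have h1 : act A s b = b := hEb s hs
      rw [h1, sub_self]
      exact hf.triv 0 N.zero_mem)
  exact ⟨r, hr, fun s hs hs' => h s ((hsup s).2 ⟨hs, hs'⟩)⟩

/-- Parallel transfer from `Gal(Kbar/LF)` to `Gal(Kbar/F)`. -/
theorem v9_par (hf : CharFrame p F N N' ψ)
    [Fintype ((AlgebraicClosure K ≃ₐ[K] AlgebraicClosure K) ⧸ L.fixingSubgroup)]
    (ρ : (AlgebraicClosure K ≃ₐ[K] AlgebraicClosure K) ⧸ L.fixingSubgroup →
      AlgebraicClosure K ≃ₐ[K] AlgebraicClosure K)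
    (hρ : ∀ q, ρ q ∈ F.fixingSubgroup ∧
      (ρ q : (AlgebraicClosure K ≃ₐ[K] AlgebraicClosure K) ⧸ L.fixingSubgroup) = q)
    (r : AlgebraicClosure K) (b : Pts A (AlgebraicClosure K))
    (hb : b ∈ ratPts A L.fixingSubgroup N')
    (h : ∀ s ∈ L.fixingSubgroup, s ∈ F.fixingSubgroup → s r = ψ (act A s b - b) * r)
    (g : AlgebraicClosure K ≃ₐ[K] AlgebraicClosure K) (hg : g ∈ F.fixingSubgroup) :
    g (∏ q, ρ q r) = ψ (act A g (∑ q, act A (ρ q) b) - ∑ q, act A (ρ q) b) * ∏ q, ρ q r := by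
  classical
  let w : (AlgebraicClosure K ≃ₐ[K] AlgebraicClosure K) ⧸ L.fixingSubgroup →
    AlgebraicClosure K ≃ₐ[K] AlgebraicClosure K := fun q => (ρ (g • q))⁻¹ * (g * ρ q)
  have hw : ∀ q, w q ∈ L.fixingSubgroup ∧ w q ∈ F.fixingSubgroup := by
    intro q
    constructor
    · show (ρ (g • q))⁻¹ * (g * ρ q) ∈ L.fixingSubgroup
      have h1 : ((g * ρ q : AlgebraicClosure K ≃ₐ[K] AlgebraicClosure K) :
          (AlgebraicClosure K ≃ₐ[K] AlgebraicClosure K) ⧸ L.fixingSubgroup) = g • q := by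
        rw [← smul_eq_mul, ← MulAction.Quotient.smul_coe, (hρ q).2]
      rw [← QuotientGroup.eq, (hρ _).2, h1]
    · exact mul_mem (inv_mem (hρ _).1) (mul_mem hg (hρ q).1)
  have hgw : ∀ q, g * ρ q = ρ (g • q) * w q := fun q => by
    show g * ρ q = ρ (g • q) * ((ρ (g • q))⁻¹ * (g * ρ q))
    rw [mul_inv_cancel_left]
  have h1 : ∀ q, g (ρ q r) = ψ (act A (ρ (g • q)) (act A (w q) b - b)) * ρ (g • q) r := by
    intro q
    rw [← AlgEquiv.mul_apply, hgw, AlgEquiv.mul_apply, h _ (hw q).1 (hw q).2, map_mul,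
      hf.gal _ (hρ _).1 _ (hb _ (hw q).1)]
  have h2 : ∀ q, act A g (act A (ρ q) b) =
      act A (ρ (g • q)) b + act A (ρ (g • q)) (act A (w q) b - b) := by
    intro q
    rw [← v2s_act_mul, hgw, v2s_act_mul, v2s_act_sub]
    abel
  have e1 : ∏ q, ρ (g • q) r = ∏ q, ρ q r :=
    Equiv.prod_comp (MulAction.toPerm g) (fun q : (AlgebraicClosure K ≃ₐ[K]
        AlgebraicClosure K) ⧸ L.fixingSubgroup => ρ q r)
  have e2 : ∑ q, act A (ρ (g • q)) b = ∑ q, act A (ρ q) b :=
    Equiv.sum_comp (MulAction.toPerm g) (fun q : (AlgebraicClosure K ≃ₐ[K]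
        AlgebraicClosure K) ⧸ L.fixingSubgroup => act A (ρ q) b)
  have h3 : act A g (∑ q, act A (ρ q) b) - ∑ q, act A (ρ q) b =
      ∑ q, act A (ρ (g • q)) (act A (w q) b - b) := by
    rw [v2s_act_sum, Finset.sum_congr rfl fun q _ => h2 q, Finset.sum_add_distrib, e2,
      add_sub_cancel_left]
  rw [h3, map_prod, Finset.prod_congr rfl fun q _ => h1 q, Finset.prod_mul_distrib, e1,
    v9_pt_sum F hf _ _ fun q _ => hf.stabN' _ _ (hb _ (hw q).1)]

/-- The element attached to a point `P`: with `n = [L : K]` and `β = n P - Tr P`. -/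
theorem v9_pt [CharZero K] [FiniteDimensional K L] [FiniteDimensional K F]
    (hT : TransOn L F.fixingSubgroup) (hf : CharFrame p F N N' ψ)
    (P : Pts A (AlgebraicClosure K)) (hP : P ∈ ratPts A L.fixingSubgroup N') :
    ∃ u : AlgebraicClosure K, u ≠ 0 ∧
      v8Tr A L F.fixingSubgroup P ∈ ratPts A F.fixingSubgroup N' ∧
      (∀ s ∈ L.fixingSubgroup, s ∈ F.fixingSubgroup → s u =
        ψ (act A s (Module.finrank K L • P - v8Tr A L F.fixingSubgroup P) -
          (Module.finrank K L • P - v8Tr A L F.fixingSubgroup P)) * u) ∧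
      normG L F.fixingSubgroup (u ^ p) = 1 := by
  have hfi := vn_finiteIndex L
  let _ := L.fixingSubgroup.fintypeQuotientOfFiniteIndex
  obtain ⟨n, hn⟩ : ∃ n, n = Module.finrank K L := ⟨_, rfl⟩
  rw [← hn]
  obtain ⟨r, hr, h⟩ := v9_data L F hf P hP
  obtain ⟨R, hR⟩ : ∃ R, R = ∏ q, repG L F.fixingSubgroup q r := ⟨_, rfl⟩
  obtain ⟨S, hS⟩ : ∃ S, S = ∑ q, act A (repG L F.fixingSubgroup q) P := ⟨_, rfl⟩
  have hTr : v8Tr A L F.fixingSubgroup P = S := by
    rw [hS]
    exact finsum_eq_sum_of_fintype _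
  have hSker : S ∈ ratPts A F.fixingSubgroup N' := by
    rw [hS]
    exact v8_trace L F.fixingSubgroup hf.stabN' _ (fun q => (v4_rep L F.fixingSubgroup hT q).1)
      (fun q => (v4_rep L F.fixingSubgroup hT q).2) P (fun s hs => hP s hs.1)
  have hRS : ∀ g ∈ F.fixingSubgroup, g R = ψ (act A g S - S) * R := by
    intro g hg
    rw [hR, hS]
    exact v9_par L F hf _ (v4_rep L F.fixingSubgroup hT) r P hP h g hg
  have hnr : normG L F.fixingSubgroup r = R := by
    rw [hR]
    exact finprod_eq_prod_of_fintype _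
  have hR0 : R ≠ 0 := by
    rw [← hnr]
    exact v4_norm_ne L F.fixingSubgroup hr
  have hnpow : ∀ (a : AlgebraicClosure K) (k : ℕ), normG L F.fixingSubgroup (a ^ k) =
      normG L F.fixingSubgroup a ^ k := by
    intro a k
    rw [v4_norm_prod, v4_norm_prod, ← Finset.prod_pow]
    exact Finset.prod_congr rfl fun q _ => map_pow _ _ _
  have hNfix : FixG F.fixingSubgroup (R ^ p) := by
    intro g hg
    rw [map_pow, hRS g hg, mul_pow, hf.pow _ (hSker g hg), one_mul]
  refine ⟨r ^ n / R, div_ne_zero (pow_ne_zero n hr) hR0, ?_, ?_, ?_⟩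
  · rw [hTr]
    exact hSker
  · intro s hs hs'
    rw [hTr]
    have k1 : act A s (n • P) = n • act A s P := map_nsmul (galHom A s) n P
    have h1 : act A s (n • P - S) - (n • P - S) = n • (act A s P - P) - (act A s S - S) := by
      rw [v2s_act_sub, k1, smul_sub]
      abel
    have h2 := v9_pt_sub F hf (N'.nsmul_mem (hP s hs) n) (hSker s hs')
    have h3 : ψ (act A s S - S) ≠ 0 := by
      intro h4
      have h5 := hf.pow _ (hSker s hs')
      rw [h4] at h5
      have hR' := hRS s hs'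
      rw [h4, zero_mul] at hR'
      exact hR0 ((map_eq_zero_iff _ s.injective).1 hR')
    rw [h1, map_div₀, map_pow, h s hs hs', hRS s hs', mul_pow,
      ← v9_pt_nsmul F hf (hP s hs) n, ← h2]
    field_simp
  · have h1 : (r ^ n / R) ^ p * R ^ p = (r ^ p) ^ n := by
      rw [div_pow, div_mul_cancel₀ _ (pow_ne_zero p hR0), ← pow_mul, ← pow_mul, mul_comm]
    have h2 : normG L F.fixingSubgroup ((r ^ n / R) ^ p) * normG L F.fixingSubgroup (R ^ p) =
        (R ^ p) ^ n := by
      rw [← v4_norm_mul, h1, hnpow, hnpow, hnr]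
    rw [v4_norm_pow L _ hT hNfix, ← hn] at h2
    exact mul_right_cancel₀ (pow_ne_zero n (pow_ne_zero p hR0)) (by rw [h2, one_mul])

end pt

end Pool.Agent.H.MP_ac3185_nt
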