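import Pool.Agent.H.MP_ac3185_nt.V9.Split

/-! Relations between the conjugates. -/

set_option autoImplicit false

open CategoryTheory AlgebraicGeometry NumberField IsDedekindDomain
open scoped MonObj

namespace Pool.Agent.H.MP_ac3185_nt

universe u

section rel

variable {K : Type u} [Field K] {A : Over (Spec (.of K))} [GrpObj A] [IsAbVar A] {p : ℕ}
  (L F : IntermediateField K (AlgebraicClosure K))
  {N N' : AddSubgroup (Pts A (AlgebraicClosure K))}
  {ψ : Pts A (AlgebraicClosure K) → AlgebraicClosure K}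

/-- The product of the powers of the conjugates of `u ^ p` over a relation is a `p`-th power. -/
theorem v9_rel [CharZero K] [FiniteDimensional K F] (hf : CharFrame p F N N' ψ)
    (hlin : ∀ s, ∃ t ∈ L.fixingSubgroup, (∀ x ∈ N', act A (t⁻¹ * s) x - x ∈ N) ∧
      ∀ z : AlgebraicClosure K, z ^ p = 1 → (t⁻¹ * s) z = z)
    (f : ((AlgebraicClosure K ≃ₐ[K] AlgebraicClosure K) ⧸ F.fixingSubgroup) → ℤ)
    (hrel : ∀ x ∈ N', ∏ᶠ q, conjChar F ψ q x ^ f q = 1)
    {β : Pts A (AlgebraicClosure K)} {u : AlgebraicClosure K}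
    (hβ : β ∈ ratPts A L.fixingSubgroup N')
    (hu : ∀ s ∈ L.fixingSubgroup, s ∈ F.fixingSubgroup → s u = ψ (act A s β - β) * u) :
    ∃ d : AlgebraicClosure K,
      (∀ s ∈ L.fixingSubgroup, (∀ q, f (s • q) = f q) → s d = d) ∧
      ∏ᶠ q, repG F L.fixingSubgroup q (u ^ p) ^ f q = d ^ p := by
  classical
  have hfi := vn_finiteIndex F
  let _ := F.fixingSubgroup.fintypeQuotientOfFiniteIndex
  have hT' := v6_trans_symm L F (v9_transOn L F hf hlin)
  set τ := repG F L.fixingSubgroup with hτ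
  have hτL : ∀ q, τ q ∈ L.fixingSubgroup := fun q => (v4_rep F L.fixingSubgroup hT' q).1
  have hτq : ∀ q, (τ q : (AlgebraicClosure K ≃ₐ[K] AlgebraicClosure K) ⧸ F.fixingSubgroup) = q :=
    fun q => (v4_rep F L.fixingSubgroup hT' q).2
  have hk : ∀ q, act A (τ q) β - β ∈ N' := fun q => hβ _ (hτL q)
  let κ : ((AlgebraicClosure K ≃ₐ[K] AlgebraicClosure K) ⧸ F.fixingSubgroup) →
    AlgebraicClosure K := fun q => conjChar F ψ q (act A (τ q) β - β)
  have hκ0 : ∀ q, κ q ≠ 0 := fun q => v9_conj_ne hf q (hk q)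
  have hκp : ∀ q, κ q ^ p = 1 := fun q => v9_conj_pow hf q (hk q)
  obtain ⟨E, hE⟩ : ∃ E, E = ∏ q, κ q ^ f q := ⟨_, rfl⟩
  obtain ⟨U, hU⟩ : ∃ U, U = ∏ q, τ q u ^ f q := ⟨_, rfl⟩
  have hE0 : E ≠ 0 := by
    rw [hE, Finset.prod_ne_zero_iff]
    exact fun q _ => zpow_ne_zero _ (hκ0 q)
  have hEp : E ^ p = 1 := by
    rw [hE, ← Finset.prod_pow]
    refine Finset.prod_eq_one fun q _ => ?_
    rw [← zpow_natCast, ← zpow_mul, mul_comm, zpow_mul, zpow_natCast, hκp, one_zpow]
  refine ⟨U / E, fun s hs hsf => ?_, ?_⟩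
  swap
  · rw [finprod_eq_prod_of_fintype, div_pow, hEp, div_one, hU, ← Finset.prod_pow]
    refine Finset.prod_congr rfl fun q _ => ?_
    rw [map_pow, ← zpow_natCast, ← zpow_natCast, ← zpow_mul, ← zpow_mul, mul_comm]
  -- the action of `s`
  have hy : act A s β - β ∈ N' := hβ s hs
  have h1 : ∀ q, s (τ q u) = s (κ q) * conjChar F ψ (s • q) (act A s β - β) / κ (s • q) *
      τ (s • q) u := by
    intro q
    obtain ⟨w, hw⟩ : ∃ w, w = (τ (s • q))⁻¹ * (s * τ q) := ⟨_, rfl⟩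
    have hsw : s * τ q = τ (s • q) * w := by rw [hw, mul_inv_cancel_left]
    have hwF : w ∈ F.fixingSubgroup := by
      have h1 : ((s * τ q : AlgebraicClosure K ≃ₐ[K] AlgebraicClosure K) :
          (AlgebraicClosure K ≃ₐ[K] AlgebraicClosure K) ⧸ F.fixingSubgroup) = s • q := by
        rw [← smul_eq_mul, ← MulAction.Quotient.smul_coe, hτq]
      rw [hw, ← QuotientGroup.eq, hτq, h1]
    have hwL : w ∈ L.fixingSubgroup := by
      rw [hw]
      exact mul_mem (inv_mem (hτL _)) (mul_mem hs (hτL q))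
    have h2 : s (τ q u) = τ (s • q) (ψ (act A w β - β)) * τ (s • q) u := by
      rw [← AlgEquiv.mul_apply, hsw, AlgEquiv.mul_apply, hu w hwL hwF, map_mul]
    have h3 : τ (s • q) (ψ (act A w β - β)) =
        conjChar F ψ (s • q) (act A (τ (s • q)) (act A w β - β)) := by
      have h4 := v9_conj hf (τ (s • q)) (hf.stabN' (τ (s • q)) _ (hβ w hwL))
      rw [hτq, ← v2s_act_mul, inv_mul_cancel, v2s_act_one] at h4
      exact h4.symm
    have h4 : act A (τ (s • q)) (act A w β - β) =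
        act A s (act A (τ q) β - β) + (act A s β - β) - (act A (τ (s • q)) β - β) := by
      rw [v2s_act_sub, ← v2s_act_mul, ← hsw, v2s_act_sub, ← v2s_act_mul]
      abel
    rw [h2, h3, h4, v9_conj_sub hf _ (N'.add_mem (hf.stabN' s _ (hk q)) hy) (hk _),
      v9_conj_mul hf _ (hf.stabN' s _ (hk q)) hy, v9_conj_act hf s q (hk q)]
  have hre : ∀ φ : (AlgebraicClosure K ≃ₐ[K] AlgebraicClosure K) ⧸ F.fixingSubgroup →
      AlgebraicClosure K, ∏ q, φ (s • q) = ∏ q, φ q := fun φ =>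
    Equiv.prod_comp (MulAction.toPerm s) φ
  have hy1 : ∏ q, conjChar F ψ (s • q) (act A s β - β) ^ f q = 1 := by
    have h2 := hre fun q => conjChar F ψ q (act A s β - β) ^ f q
    rw [← finprod_eq_prod_of_fintype (fun q => conjChar F ψ q (act A s β - β) ^ f q),
      hrel _ hy] at h2
    rw [← h2]
    exact Finset.prod_congr rfl fun q _ => by rw [hsf q]
  have hκ1 : ∏ q, κ (s • q) ^ f q = E := by
    rw [hE, ← hre fun q => κ q ^ f q]
    exact Finset.prod_congr rfl fun q _ => by rw [hsf q]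
  have hU1 : ∏ q, τ (s • q) u ^ f q = U := by
    rw [hU, ← hre fun q => τ q u ^ f q]
    exact Finset.prod_congr rfl fun q _ => by rw [hsf q]
  have hsE : s E = ∏ q, s (κ q) ^ f q := by
    rw [hE, map_prod]
    exact Finset.prod_congr rfl fun q _ => map_zpow₀ s _ _
  have hsU : s U = s E / E * U := by
    rw [hU, map_prod, hsE, ← hκ1, ← hU, ← hU1]
    have h2 : ∀ q, s (τ q u ^ f q) = s (κ q) ^ f q *
        conjChar F ψ (s • q) (act A s β - β) ^ f q / κ (s • q) ^ f q * τ (s • q) u ^ f q := by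
      intro q
      rw [map_zpow₀, h1 q, mul_zpow, div_zpow, mul_zpow]
    rw [Finset.prod_congr rfl fun q _ => h2 q, Finset.prod_mul_distrib, Finset.prod_div_distrib,
      Finset.prod_mul_distrib, hy1, mul_one]
  have hsE0 : s E ≠ 0 := (map_ne_zero s).2 hE0
  rw [map_div₀, hsU]
  field_simp

end rel

end Pool.Agent.H.MP_ac3185_nt
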