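import Pool.Agent.H.MP_ac3185_nt.V9.GenDef
import Pool.Agent.H.MP_ac3185_nt.V9.Rel
import Pool.Agent.H.MP_ac3185_nt.V9.Pt

/-! The class modulo `p`-th powers attached to a point which is rational over `L` modulo `N'`. -/

set_option autoImplicit false

open CategoryTheory AlgebraicGeometry NumberField IsDedekindDomain
open scoped MonObj

namespace Pool.Agent.H.MP_ac3185_nt

universe u

section gen

variable {K : Type u} [Field K] [CharZero K] {A : Over (Spec (.of K))} [GrpObj A] [IsAbVar A] {p : ℕ}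
  {N N' : AddSubgroup (Pts A (AlgebraicClosure K))}
  {ψ : Pts A (AlgebraicClosure K) → AlgebraicClosure K}

/-- If `ψ` is not trivial on `N'`, then it takes all `p`-th roots of unity as values. -/
theorem v9_root_value {F : IntermediateField K (AlgebraicClosure K)} (hp : p.Prime)
    (hf : CharFrame p F N N' ψ) {x : Pts A (AlgebraicClosure K)} (hx : x ∈ N') (h1 : ψ x ≠ 1)
    {ζ : AlgebraicClosure K} (hζ : ζ ^ p = 1) : ∃ k ∈ N', ψ k = ζ := by
  have hp' : Fact p.Prime := ⟨hp⟩
  have : NeZero p := ⟨hp.ne_zero⟩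
  have h2 : orderOf (ψ x) = p := orderOf_eq_prime (hf.pow x hx) h1
  have h3 : IsPrimitiveRoot (ψ x) p := by
    have h4 := IsPrimitiveRoot.orderOf (ψ x)
    rwa [h2] at h4
  obtain ⟨i, -, hi⟩ := h3.eq_pow_of_pow_eq_one hζ
  exact ⟨i • x, N'.nsmul_mem hx i, by rw [v9_nsmul hf hx, hi]⟩

/-- For `N ≤ N'` and `ψ` as in `CharFrame` there is a function `c` from `A(Kbar)` to `(LF)^*`, additive
modulo `p`-th powers on the points which are rational over `L` modulo `N'`, whose values there have norms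
to `F` which are `p`-th powers, satisfy the relations and the local conditions, such that `c(P)` is a
`p`-th power only if `P` is the sum of a point rational over `K` modulo `N'` and a point rational over
`L` modulo `N`. -/
theorem v9_gen (L F : IntermediateField K (AlgebraicClosure K)) [FiniteDimensional K L]
    [FiniteDimensional K F] (hp : p.Prime) (hn : (Module.finrank K L).Coprime p)
    (hf : CharFrame p F N N' ψ)
    (hlin : ∀ s, ∃ t ∈ L.fixingSubgroup, (∀ x ∈ N', act A (t⁻¹ * s) x - x ∈ N) ∧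
      ∀ z : AlgebraicClosure K, z ^ p = 1 → (t⁻¹ * s) z = z) :
    GenForP p L F A N N' ψ := by
  classical
  have hT : TransOn L F.fixingSubgroup := v9_transOn L F hf hlin
  set β : Pts A (AlgebraicClosure K) → Pts A (AlgebraicClosure K) := fun P =>
    Module.finrank K L • P - v8Tr A L F.fixingSubgroup P with hβdef
  have hβadd : ∀ P Q, β (P + Q) = β P + β Q := by
    intro P Q
    show _ • (P + Q) - _ = (_ • P - _) + (_ • Q - _)
    rw [v8_tr_add, smul_add]
    abel
  have hfi := vn_finiteIndex L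
  let _ := L.fixingSubgroup.fintypeQuotientOfFiniteIndex
  have hpt : ∀ P : Pts A (AlgebraicClosure K), ∃ u : AlgebraicClosure K, u ≠ 0 ∧
      (P ∈ ratPts A L.fixingSubgroup N' →
        (∀ s ∈ L.fixingSubgroup, s ∈ F.fixingSubgroup → s u = ψ (act A s (β P) - β P) * u) ∧
        normG L F.fixingSubgroup (u ^ p) = 1) := by
    intro P
    by_cases hP : P ∈ ratPts A L.fixingSubgroup N'
    · obtain ⟨u, hu, -, hs, hd⟩ := v9_pt L F hT hf P hP
      exact ⟨u, hu, fun _ => ⟨hs, hd⟩⟩
    · exact ⟨1, one_ne_zero, fun h => absurd h hP⟩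
  choose u hu0 hall using hpt
  have hTr : ∀ P ∈ ratPts A L.fixingSubgroup N',
      v8Tr A L F.fixingSubgroup P ∈ ratPts A ⊤ N' := by
    intro P hP
    unfold v8Tr
    rw [finsum_eq_sum_of_fintype]
    exact v8_trace L ⊤ hf.stabN' _ (fun q => Subgroup.mem_top _)
      (fun q => (v4_rep L _ hT q).2) P (fun s hs => hP s hs.1)
  have hβ : ∀ P ∈ ratPts A L.fixingSubgroup N', β P ∈ ratPts A L.fixingSubgroup N' := by
    intro P hP
    exact (ratPts A L.fixingSubgroup N').sub_mem
      ((ratPts A L.fixingSubgroup N').nsmul_mem hP _) fun s _ => hTr P hP s (Subgroup.mem_top s)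
  have hsup : ∀ s, s ∈ (L ⊔ F : IntermediateField K (AlgebraicClosure K)).fixingSubgroup ↔
      s ∈ L.fixingSubgroup ∧ s ∈ F.fixingSubgroup := by
    intro s
    rw [IntermediateField.fixingSubgroup_sup]
    exact Iff.rfl
  have hfix : ∀ P ∈ ratPts A L.fixingSubgroup N', ∀ s ∈ L.fixingSubgroup,
      s ∈ F.fixingSubgroup → s (u P ^ p) = u P ^ p := by
    intro P hP s hs hs'
    rw [map_pow, (hall P hP).1 s hs hs', mul_pow, hf.pow _ (hβ P hP s hs), one_mul]
  have hc : ∀ P : Pts A (AlgebraicClosure K),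
      ∃ c : (L ⊔ F : IntermediateField K (AlgebraicClosure K)), c ≠ 0 ∧
        (P ∈ ratPts A L.fixingSubgroup N' → u P ^ p = c) := by
    intro P
    by_cases hP : P ∈ ratPts A L.fixingSubgroup N'
    · have hmem : u P ^ p ∈ (L ⊔ F : IntermediateField K (AlgebraicClosure K)) := by
        apply vn_mem
        intro s hs
        exact hfix P hP s ((hsup s).1 hs).1 ((hsup s).1 hs).2
      refine ⟨⟨u P ^ p, hmem⟩, fun h => ?_, fun _ => rfl⟩
      exact pow_ne_zero p (hu0 P) (congrArg Subtype.val h)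
    · exact ⟨1, one_ne_zero, fun h => absurd h hP⟩
  choose c hc0 hcu using hc
  refine ⟨c, hc0, ?_, ?_, ?_, ?_, ?_, ?_⟩
  · intro P hP
    exact ⟨1, F.one_mem, by rw [← hcu P hP, (hall P hP).2, one_pow]⟩
  · intro f hrel P hP
    rw [← hcu P hP]
    exact v9_rel L F hf hlin f hrel (hβ P hP) (hall P hP).1
  · intro P hP Q hQ
    have hPQ := (ratPts A L.fixingSubgroup N').add_mem hP hQ
    have hmem : u P * u Q / u (P + Q) ∈ (L ⊔ F : IntermediateField K (AlgebraicClosure K)) := by
      apply vn_mem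
      intro s hs
      obtain ⟨h1, h2⟩ := (hsup s).1 hs
      have h3 : act A s (β (P + Q)) - β (P + Q) = (act A s (β P) - β P) +
          (act A s (β Q) - β Q) := by
        rw [hβadd, v8_act_add]
        abel
      rw [map_div₀, map_mul, (hall P hP).1 s h1 h2, (hall Q hQ).1 s h1 h2,
        (hall _ hPQ).1 s h1 h2, h3, hf.mul _ (hβ P hP s h1) _ (hβ Q hQ s h1)]
      have h4 := v9_ne hf (hβ P hP s h1)
      have h5 := v9_ne hf (hβ Q hQ s h1)
      have h6 := hu0 (P + Q)
      field_simp
    refine ⟨⟨u P * u Q / u (P + Q), hmem⟩, fun h => ?_, ?_⟩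
    · exact div_ne_zero (mul_ne_zero (hu0 P) (hu0 Q)) (hu0 (P + Q)) (congrArg Subtype.val h)
    · apply Subtype.ext
      show (c P : AlgebraicClosure K) * (c Q : AlgebraicClosure K) =
        (c (P + Q) : AlgebraicClosure K) * (u P * u Q / u (P + Q)) ^ p
      rw [← hcu P hP, ← hcu Q hQ, ← hcu _ hPQ, div_pow, mul_pow,
        mul_div_cancel₀ _ (pow_ne_zero p (hu0 (P + Q)))]
  · intro 𝔓 hE P hP
    refine ⟨u P, hcu P hP, fun s hs hsL => ?_⟩
    obtain ⟨h1, h2⟩ := (hsup s).1 hsL
    obtain ⟨R, _, r, hr, hr'⟩ := hE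
    have h3 : ψ (act A s (β P) - β P) = 1 := by
      apply hr' _ (hβ P hP s h1)
      rw [map_sub, hr s hs h2, sub_self]
    rw [(hall P hP).1 s h1 h2, h3, one_mul]
  · intro S 𝔓 hE P hP hS
    have h1 := hE (β P) (u P) (hu0 P) (by rw [hcu P hP]; exact (c P).2) (hβ P hP)
      (fun s hs => (hall P hP).1 s ((hsup s).1 hs).1 ((hsup s).1 hs).2)
      (fun v hv 𝔔 h𝔔 => by rw [hcu P hP]; exact hS v hv 𝔔 h𝔔)
    rw [hcu P hP] at h1
    exact h1
  · intro P hP hpow
    obtain ⟨w, hw⟩ := hpow
    have hw' : u P ^ p = (w : AlgebraicClosure K) ^ p := by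
      rw [hcu P hP]
      exact congrArg Subtype.val hw
    have hw0 : (w : AlgebraicClosure K) ≠ 0 := by
      intro h
      rw [h, zero_pow hp.ne_zero] at hw'
      exact pow_ne_zero p (hu0 P) hw'
    obtain ⟨ζ, hζ⟩ : ∃ ζ, ζ = u P / (w : AlgebraicClosure K) := ⟨_, rfl⟩
    have hζp : ζ ^ p = 1 := by
      rw [hζ, div_pow, hw', div_self (pow_ne_zero p hw0)]
    have huζ : u P = ζ * (w : AlgebraicClosure K) := by
      rw [hζ, div_mul_cancel₀ _ hw0]
    have hζ0 : ζ ≠ 0 := by
      intro h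
      rw [h, zero_mul] at huζ
      exact hu0 P huζ
    -- `ψ (s β - β) = s ζ / ζ`
    have hψ : ∀ s ∈ L.fixingSubgroup, s ∈ F.fixingSubgroup →
        s ζ = ψ (act A s (β P) - β P) * ζ := by
      intro s hs hs'
      have hws : s (w : AlgebraicClosure K) = w := vn_fix _ w.2 ((hsup s).2 ⟨hs, hs'⟩)
      have h1 := (hall P hP).1 s hs hs'
      rw [huζ, map_mul, hws, ← mul_assoc] at h1
      exact mul_right_cancel₀ hw0 h1
    have hmain : ∃ k ∈ N', ∀ s ∈ L.fixingSubgroup, s ∈ F.fixingSubgroup →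
        ψ (act A s (β P - k) - (β P - k)) = 1 := by
      by_cases htriv : ∀ x ∈ N', ψ x = 1
      · refine ⟨0, N'.zero_mem, fun s hs hs' => ?_⟩
        rw [sub_zero]
        exact htriv _ (hβ P hP s hs)
      · push Not at htriv
        obtain ⟨x, hx, hx1⟩ := htriv
        obtain ⟨k, hk, hkζ⟩ := v9_root_value hp hf hx hx1 hζp
        refine ⟨k, hk, fun s hs hs' => ?_⟩
        have h1 : act A s (β P - k) - (β P - k) =
            (act A s (β P) - β P) - (act A s k - k) := by
          rw [v2s_act_sub]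
          abel
        have h2 : ψ (act A s k - k) = s ζ / ζ := by
          rw [v9_sub hf (hf.stabN' s k hk) hk, hf.gal s hs' k hk, hkζ]
        have h3 : ψ (act A s (β P) - β P) = s ζ / ζ := by
          rw [hψ s hs hs', mul_div_cancel_right₀ _ hζ0]
        rw [h1, v9_sub hf (hβ P hP s hs) (N'.sub_mem (hf.stabN' s k hk) hk), h2, h3]
        exact div_self (div_ne_zero ((map_ne_zero s).2 hζ0) hζ0)
    obtain ⟨k, hk, hk1⟩ := hmain
    have hkG : k ∈ ratPts A ⊤ N' := fun s _ => N'.sub_mem (hf.stabN' s k hk) hk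
    have hkL : β P - k ∈ ratPts A L.fixingSubgroup N' :=
      (ratPts A L.fixingSubgroup N').sub_mem (hβ P hP) fun s _ => hkG s (Subgroup.mem_top s)
    obtain ⟨y0, x, hy0, hx, hyx⟩ := v9_split L F hn hf hlin hkL hk1
    -- the multiples by `n` and `p`
    have hnP : Module.finrank K L • P ∈ ratPts A ⊤ N' ⊔ ratPts A L.fixingSubgroup N := by
      have h1 : Module.finrank K L • P = (v8Tr A L F.fixingSubgroup P + k + y0) + x := by
        have h2 : Module.finrank K L • P = v8Tr A L F.fixingSubgroup P + β P := by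
          show _ = _ + (_ - _)
          abel
        rw [h2, add_assoc, add_assoc, ← hyx]
        abel
      rw [h1]
      exact AddSubgroup.add_mem_sup ((ratPts A ⊤ N').add_mem
        ((ratPts A ⊤ N').add_mem (hTr P hP) hkG) hy0) hx
    have hpP : p • P ∈ ratPts A ⊤ N' ⊔ ratPts A L.fixingSubgroup N := by
      apply AddSubgroup.mem_sup_right
      intro s hs
      have h1 : act A s (p • P) - p • P = p • (act A s P - P) := by
        have h2 : act A s (p • P) = p • act A s P := map_nsmul (galHom A s) p P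
        rw [h2, smul_sub]
      rw [h1]
      exact v9_smul_mem hf (hP s hs)
    obtain ⟨a, b, hab⟩ : ∃ a b : ℤ, a * Module.finrank K L + b * p = 1 := by
      have h1 := Nat.gcd_eq_gcd_ab (Module.finrank K L) p
      rw [hn, Nat.cast_one] at h1
      exact ⟨(Module.finrank K L).gcdA p, (Module.finrank K L).gcdB p, by
        rw [h1, mul_comm, mul_comm ((Module.finrank K L).gcdB p)]⟩
    have h1 : P = a • (Module.finrank K L • P) + b • (p • P) := by
      rw [← natCast_zsmul, ← natCast_zsmul, smul_smul, smul_smul, ← add_smul, hab, one_smul]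
    rw [h1]
    exact add_mem ((ratPts A ⊤ N' ⊔ ratPts A L.fixingSubgroup N).zsmul_mem hnP a)
      ((ratPts A ⊤ N' ⊔ ratPts A L.fixingSubgroup N).zsmul_mem hpP b)

end gen

end Pool.Agent.H.MP_ac3185_nt
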