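import Pool.Agent.H.MP_ac3185_nt.V9.Defs

/-! The statement of the existence of the function `c` on the points which are rational over `L` modulo
`N'`. -/

set_option autoImplicit false

open CategoryTheory AlgebraicGeometry NumberField IsDedekindDomain
open scoped MonObj

namespace Pool.Agent.H.MP_ac3185_nt

universe u

variable {K : Type u} [Field K]

/-- The conclusion of the general step for a prime number `p`. -/
def GenForP (p : ℕ) (L F : IntermediateField K (AlgebraicClosure K)) (A : Over (Spec (.of K)))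
    [GrpObj A] [IsAbVar A] (N N' : AddSubgroup (Pts A (AlgebraicClosure K)))
    (ψ : Pts A (AlgebraicClosure K) → AlgebraicClosure K) : Prop :=
  ∃ c : Pts A (AlgebraicClosure K) → (L ⊔ F : IntermediateField K (AlgebraicClosure K)),
    (∀ P, c P ≠ 0) ∧
    (∀ P ∈ ratPts A L.fixingSubgroup N',
      ∃ d ∈ F, normG L F.fixingSubgroup (c P : AlgebraicClosure K) = d ^ p) ∧
    (∀ f : ((AlgebraicClosure K ≃ₐ[K] AlgebraicClosure K) ⧸ F.fixingSubgroup) → ℤ,
      (∀ x ∈ N', ∏ᶠ q, conjChar F ψ q x ^ f q = 1) →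
      ∀ P ∈ ratPts A L.fixingSubgroup N', ∃ d : AlgebraicClosure K,
        (∀ s ∈ L.fixingSubgroup, (∀ q, f (s • q) = f q) → s d = d) ∧
        ∏ᶠ q, repG F L.fixingSubgroup q (c P : AlgebraicClosure K) ^ f q = d ^ p) ∧
    (∀ P ∈ ratPts A L.fixingSubgroup N', ∀ Q ∈ ratPts A L.fixingSubgroup N',
      ∃ w : (L ⊔ F : IntermediateField K (AlgebraicClosure K)),
        w ≠ 0 ∧ c P * c Q = c (P + Q) * w ^ p) ∧
    (∀ 𝔓, EtaleChar F N' ψ 𝔓 → ∀ P ∈ ratPts A L.fixingSubgroup N',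
      UnrP p (L ⊔ F) 𝔓 (c P)) ∧
    (∀ (S : Finset (HeightOneSpectrum (𝓞 F))) (𝔓 : Ideal (𝓞 (AlgebraicClosure K))),
      DivChar p L F N' ψ S 𝔓 → ∀ P ∈ ratPts A L.fixingSubgroup N',
      (∀ v ∈ S, ∀ 𝔔, PrimeOver F 𝔔 v → DivAt p (L ⊔ F) 𝔔 (c P : AlgebraicClosure K)) →
      DivAt p (L ⊔ F) 𝔓 (c P)) ∧
    (∀ P ∈ ratPts A L.fixingSubgroup N', (∃ w, c P = w ^ p) →
      P ∈ ratPts A ⊤ N' ⊔ ratPts A L.fixingSubgroup N)

end Pool.Agent.H.MP_ac3185_nt
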