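import Pool.Agent.H.MP_ac3185_nt.V9.IndexP
import Pool.Agent.H.MP_ac3185_nt.V9.GenDef
import Pool.Agent.H.MP_ac3185_nt.V8.Chain
import Pool.Agent.H.MP_ac3185_nt.V9.Unit
import Pool.Agent.H.MP_ac3185_nt.V9.Gen

/-! Counting in one layer, and composition of the layers, for a prime number `p`. -/

set_option autoImplicit false

open CategoryTheory AlgebraicGeometry NumberField IsDedekindDomain
open scoped MonObj

namespace Pool.Agent.H.MP_ac3185_nt

universe u

variable {K : Type u} [Field K] [NumberField K]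

omit [NumberField K] in
theorem v9_p_mem {p : ℕ} {F : IntermediateField K (AlgebraicClosure K)}
    {𝔓 : Ideal (𝓞 (AlgebraicClosure K))} {v : HeightOneSpectrum (𝓞 F)}
    (h : PrimeOver F 𝔓 v) : (p : 𝓞 (AlgebraicClosure K)) ∈ 𝔓 ↔ (p : 𝓞 F) ∈ v.asIdeal := by
  rw [← h.2, Ideal.mem_comap, map_natCast]

/-- One layer. -/
theorem v9_layer {p : ℕ} (hp : p.Prime) (L F : IntermediateField K (AlgebraicClosure K))
    [FiniteDimensional K L] [FiniteDimensional K F] (hn : (Module.finrank K L).Coprime p) (ρ : ℕ)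
    (Rel : Set (((AlgebraicClosure K ≃ₐ[K] AlgebraicClosure K) ⧸ F.fixingSubgroup) → ℤ))
    (T : Set (HeightOneSpectrum (𝓞 F)))
    (hρ : PowClasses p (charClasses p L F Rel T) (p ^ ρ)) (S : Finset (HeightOneSpectrum (𝓞 F)))
    {A : Over (Spec (.of K))} [GrpObj A] [IsAbVar A]
    {N N' : AddSubgroup (Pts A (AlgebraicClosure K))}
    {ψ : Pts A (AlgebraicClosure K) → AlgebraicClosure K} (hf : CharLayer p L F Rel T S N N' ψ)
    (hgen : GenForP p L F A N N' ψ) :
    CosetCover (ratPts A L.fixingSubgroup N')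
      (ratPts A ⊤ N' ⊔ ratPts A L.fixingSubgroup N) (p ^ (ρ + excessOver L F S)) := by
  obtain ⟨c, h0, h1, h1', h2, h3, h4, h6⟩ := hgen
  have hfd : FiniteDimensional K (L ⊔ F : IntermediateField K (AlgebraicClosure K)) :=
    IntermediateField.finiteDimensional_sup L F
  have hunr : ∀ 𝔓, FinPrime 𝔓 → (p : 𝓞 (AlgebraicClosure K)) ∉ 𝔓 → ∀ a ∈ L ⊔ F,
      DivAt p (L ⊔ F) 𝔓 a → UnrP p (L ⊔ F) 𝔓 a := fun 𝔓 h𝔓 hp𝔓 a ha h =>
    v9_unr p hp (L ⊔ F) h𝔓 hp𝔓 ha h
  have hn' : ¬ p ∣ Module.finrank K L := fun h =>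
    (Nat.Prime.coprime_iff_not_dvd hp).1 hn.symm h
  obtain ⟨i1, i2⟩ := v9_index hp L F hn' (v9_transOn L F hf.toCharFrame hf.lin)
    (ratPts A L.fixingSubgroup N') (ratPts A ⊤ N' ⊔ ratPts A L.fixingSubgroup N) S
    (charClasses p L F Rel T) (p ^ ρ) hρ c h0 h1 h2 h6 (by
      intro P hP hS
      refine ⟨h0 P, h1 P hP, fun f hf' => h1' f (hf.rel f hf') P hP, fun v 𝔓 hv hcase => ?_,
        fun v 𝔓 hv hv2 hvT => ?_⟩
      · have h𝔓 := v6_finPrime hv
        by_cases hvT : v ∈ T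
        · exact h3 𝔓 (hf.etale v hvT 𝔓 hv) P hP
        · have hv2 : (p : 𝓞 F) ∉ v.asIdeal := hcase.resolve_right hvT
          have h2' : (p : 𝓞 (AlgebraicClosure K)) ∉ 𝔓 := fun h => hv2 ((v9_p_mem hv).1 h)
          by_cases hvS : v ∈ S
          · exact hunr 𝔓 h𝔓 h2' _ (c P).2 (hS v hvS 𝔓 hv)
          · rcases hf.away v hvS hv2 with h | h
            · exact h3 𝔓 (h 𝔓 hv) P hP
            · exact hunr 𝔓 h𝔓 h2' _ (c P).2 (h4 S 𝔓 (h 𝔓 hv) P hP hS)
      · by_cases hvS : v ∈ S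
        · exact hS v hvS 𝔓 hv
        · exact h4 S 𝔓 (hf.above v hvS hvT hv2 𝔓 hv) P hP hS)
  refine v8_cover_of_index _ _ _ i1 (i2.trans (le_of_eq ?_))
  rw [pow_add]

/-- All layers. -/
theorem v9_chain {p : ℕ} (hp : p.Prime) (L : IntermediateField K (AlgebraicClosure K))
    [FiniteDimensional K L] (hn : (Module.finrank K L).Coprime p)
    (A : Over (Spec (.of K))) [GrpObj A] [IsAbVar A]
    (hgen : ∀ F : IntermediateField K (AlgebraicClosure K), FiniteDimensional K F →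
      ∀ (N N' : AddSubgroup (Pts A (AlgebraicClosure K)))
        (ψ : Pts A (AlgebraicClosure K) → AlgebraicClosure K), CharFrame p F N N' ψ →
      (∀ s, ∃ t ∈ L.fixingSubgroup, (∀ x ∈ N', act A (t⁻¹ * s) x - x ∈ N) ∧
        ∀ z : AlgebraicClosure K, z ^ p = 1 → (t⁻¹ * s) z = z) → GenForP p L F A N N' ψ)
    (N : AddSubgroup (Pts A (AlgebraicClosure K))) (b : ℕ) (hc : CharChain p L A N b) :
    CosetCover (ratPts A L.fixingSubgroup N)
      (ratPts A ⊤ N ⊔ ratPts A L.fixingSubgroup ⊥) (p ^ b) := by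
  induction hc with
  | zero => exact v8_cover_refl _ le_sup_right
  | @step N N' ψ b ρ F hF Rel T S _ hf hρ ih =>
    have hle : N ≤ N' := hf.le
    have h1 := v8_cover_comp (ratPts_mono A ⊤ hle) (ratPts_mono A L.fixingSubgroup hle) ih
      (v9_layer hp L F hn ρ Rel T hρ S hf (hgen F hF N N' ψ hf.toCharFrame hf.lin))
    rwa [← pow_add] at h1

/-- For a chain `0 = N_0 ≤ ⋯ ≤ N_r = N`: the points which are rational over `L` modulo `N` are the
union of at most `p ^ b` cosets of the group generated by the points which are rational over `K` modulo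
`N` and by `A(L)`. -/
theorem v9_cover (L : IntermediateField K (AlgebraicClosure K)) [FiniteDimensional K L] {p : ℕ}
    (hp : p.Prime) (hn : (Module.finrank K L).Coprime p)
    (A : Over (Spec (.of K))) [GrpObj A] [IsAbVar A]
    (N : AddSubgroup (Pts A (AlgebraicClosure K))) (b : ℕ) (hc : CharChain p L A N b) :
    CosetCover (ratPts A L.fixingSubgroup N)
      (ratPts A ⊤ N ⊔ ratPts A L.fixingSubgroup ⊥) (p ^ b) :=
  v9_chain hp L hn A (fun F _ _ _ _ hf hlin => v9_gen L F hp hn hf hlin) N b hc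

end Pool.Agent.H.MP_ac3185_nt
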