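import Pool.Agent.H.MP_ac3185_nt.V8.Rho2
import Pool.Agent.H.MP_ac3185_nt.V9.RhoP

/-! As `rhoP_main`, for the classes whose norms to `F` and to `L` are `p`-th powers. -/

set_option autoImplicit false

open NumberField IsDedekindDomain

namespace Pool.Agent.H.MP_ac3185_nt

universe u

/-- Two elements whose `n`-th powers agree up to `p`-th powers, `n` prime to `p`, agree up to `p`-th
powers. -/
theorem rhoP_cop {E : Type u} [Field E] {p : ℕ} (hp : p.Prime) {b b' x y : E} (hb : b ≠ 0)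
    (hb' : b' ≠ 0) (hx : x ≠ 0) {n : ℕ} (hn : n.Coprime p)
    (h : x ^ p * b ^ n = y ^ p * b' ^ n) : ∃ u : E, b = b' * u ^ p := by
  obtain ⟨k, -, hk⟩ := Nat.exists_mul_mod_eq_one_of_coprime hn hp.one_lt
  have e5 : (b / b') ^ n = (y / x) ^ p := by
    rw [div_pow, div_pow, div_eq_div_iff (pow_ne_zero _ hb') (pow_ne_zero _ hx)]
    linear_combination h
  have e6 : n * k = p * (n * k / p) + 1 := by
    have h3 := Nat.div_add_mod (n * k) p
    rw [hk] at h3
    exact h3.symm
  set l := n * k / p with hl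
  have hbb0 : b / b' ≠ 0 := div_ne_zero hb hb'
  have e7 : b / b' = ((y / x) ^ k / (b / b') ^ l) ^ p := by
    rw [div_pow, eq_div_iff (pow_ne_zero _ (pow_ne_zero _ hbb0))]
    calc b / b' * ((b / b') ^ l) ^ p = (b / b') ^ (p * l + 1) := by
          rw [pow_succ, mul_comm p l, pow_mul, mul_comm]
      _ = ((b / b') ^ n) ^ k := by rw [← e6, pow_mul]
      _ = ((y / x) ^ k) ^ p := by rw [e5, ← pow_mul, ← pow_mul, mul_comm p k]
  exact ⟨(y / x) ^ k / (b / b') ^ l, by rw [← e7, mul_div_cancel₀ _ hb']⟩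

variable {K : Type u} [Field K] [NumberField K]

theorem rhoP_norm_pow (L F : IntermediateField K (AlgebraicClosure K)) [FiniteDimensional K L]
    (hT : TransOn L F.fixingSubgroup) (x : AlgebraicClosure K) (k : ℕ) :
    normG L F.fixingSubgroup (x ^ k) = normG L F.fixingSubgroup x ^ k := by
  induction k with
  | zero =>
    rw [pow_zero, pow_zero, v4_norm_pow L _ hT (fun s _ => map_one s), one_pow]
  | succ k ih => rw [pow_succ, pow_succ, v4_norm_mul, ih]

/-- The classes whose norms are `p`-th powers, the classes of `F` and those of `L` give different pairs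
of classes of `LF` and of `K`. -/
theorem rhoP_count2 {p : ℕ} (hp : p.Prime) (L F : IntermediateField K (AlgebraicClosure K))
    [FiniteDimensional K L] [FiniteDimensional K F] [NumberField F] [NumberField L]
    [NumberField (L ⊔ F : IntermediateField K (AlgebraicClosure K))]
    (hn : (Module.finrank K L).Coprime p) (hn' : (Module.finrank K F).Coprime p)
    (hT : TransOn L F.fixingSubgroup)
    (Y : Finset (L ⊔ F : IntermediateField K (AlgebraicClosure K)))
    (h1 : ∀ a ∈ Y, a ≠ 0 ∧ (∀ w : HeightOneSpectrum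
      (𝓞 (L ⊔ F : IntermediateField K (AlgebraicClosure K))), (p : ℤ) ∣ vOrd w a) ∧
      (∃ d ∈ F, normG L F.fixingSubgroup (a : AlgebraicClosure K) = d ^ p) ∧
      ∃ d ∈ L, normG F L.fixingSubgroup (a : AlgebraicClosure K) = d ^ p)
    (h2 : ∀ a ∈ Y, ∀ a' ∈ Y, ∀ u : (L ⊔ F : IntermediateField K (AlgebraicClosure K)), u ≠ 0 →
      a = a' * u ^ p → a = a') :
    Y.card * selNumP p F * selNumP p L ≤
      selNumP p (L ⊔ F : IntermediateField K (AlgebraicClosure K)) * selNumP p K := by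
  classical
  obtain ⟨TF, hTF, hF1, hF2, hF3⟩ := selCardM F hp.ne_zero
  obtain ⟨TL, hTL, hL1, hL2, hL3⟩ := selCardM L hp.ne_zero
  obtain ⟨TK, hTK, hK1, hK2, hK3⟩ := selCardM K hp.ne_zero
  obtain ⟨TM, hTM, hM1, hM2, hM3⟩ :=
    selCardM (L ⊔ F : IntermediateField K (AlgebraicClosure K)) hp.ne_zero
  let j : F → (L ⊔ F : IntermediateField K (AlgebraicClosure K)) := fun b =>
    ⟨b.1, (le_sup_right : F ≤ L ⊔ F) b.2⟩
  let i : L → (L ⊔ F : IntermediateField K (AlgebraicClosure K)) := fun b =>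
    ⟨b.1, (le_sup_left : L ≤ L ⊔ F) b.2⟩
  have hj0 : ∀ b : F, b ≠ 0 → j b ≠ 0 := fun b hb h =>
    hb (Subtype.ext (show (b : AlgebraicClosure K) = 0 from congrArg Subtype.val h))
  have hi0 : ∀ b : L, b ≠ 0 → i b ≠ 0 := fun b hb h =>
    hb (Subtype.ext (show (b : AlgebraicClosure K) = 0 from congrArg Subtype.val h))
  have hjev : ∀ b ∈ TF, ∀ w : HeightOneSpectrum
      (𝓞 (L ⊔ F : IntermediateField K (AlgebraicClosure K))), (p : ℤ) ∣ vOrd w (j b) := by
    intro b hb
    rw [rhoP_div p (L ⊔ F) (hj0 b (hF1 b hb).1)]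
    intro 𝔓 h𝔓
    obtain ⟨d, hd, hd0, x, y, hx, hy, he⟩ :=
      (rhoP_div p F (hF1 b hb).1).1 (hF1 b hb).2 𝔓 h𝔓
    exact ⟨d, (le_sup_right : F ≤ L ⊔ F) hd, hd0, x, y, hx, hy, he⟩
  have hiev : ∀ b ∈ TL, ∀ w : HeightOneSpectrum
      (𝓞 (L ⊔ F : IntermediateField K (AlgebraicClosure K))), (p : ℤ) ∣ vOrd w (i b) := by
    intro b hb
    rw [rhoP_div p (L ⊔ F) (hi0 b (hL1 b hb).1)]
    intro 𝔓 h𝔓
    obtain ⟨d, hd, hd0, x, y, hx, hy, he⟩ :=
      (rhoP_div p L (hL1 b hb).1).1 (hL1 b hb).2 𝔓 h𝔓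
    exact ⟨d, (le_sup_left : L ≤ L ⊔ F) hd, hd0, x, y, hx, hy, he⟩
  have hrep : ∀ q ∈ (Y ×ˢ TF) ×ˢ TL, ∃ t ∈ TM,
      ∃ u : (L ⊔ F : IntermediateField K (AlgebraicClosure K)),
      u ≠ 0 ∧ q.1.1 * j q.1.2 * i q.2 = t * u ^ p := by
    intro q hq
    obtain ⟨hq0, hq3⟩ := Finset.mem_product.1 hq
    obtain ⟨hq1, hq2⟩ := Finset.mem_product.1 hq0
    have ha := (h1 _ hq1).1
    have hb := hj0 _ (hF1 _ hq2).1
    have hc := hi0 _ (hL1 _ hq3).1
    refine hM2 _ (mul_ne_zero (mul_ne_zero ha hb) hc) fun w => ?_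
    rw [vOrd_mul w (mul_ne_zero ha hb) hc, vOrd_mul w ha hb]
    exact dvd_add (dvd_add ((h1 _ hq1).2.1 w) (hjev _ hq2 w)) (hiev _ hq3 w)
  have hrepK : ∀ c ∈ TL, ∃ t ∈ TK, ∃ u : K, u ≠ 0 ∧ Algebra.norm K c = t * u ^ p := by
    intro c hc
    refine hK2 _ ((Algebra.norm_ne_zero_iff).2 (hL1 c hc).1) fun v => ?_
    have _ : Fintype (PlacesOver L v) := Fintype.ofFinite _
    rw [vOrd_norm (M := L) v (hL1 c hc).1]
    exact Finset.dvd_sum fun w _ => ((hL1 c hc).2 w.1).mul_left _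
  choose! t ht u hu0 hu using hrep
  choose! τ hτ ν hν0 hν using hrepK
  have hinj : Set.InjOn (fun q => (t q, τ q.2)) ((Y ×ˢ TF) ×ˢ TL : Finset _) := by
    rintro ⟨⟨a, b⟩, c⟩ hq ⟨⟨a', b'⟩, c'⟩ hq' heq'
    have heq : t ((a, b), c) = t ((a', b'), c') := congrArg Prod.fst heq'
    have heqK : τ c = τ c' := congrArg Prod.snd heq'
    have hu1 := hu _ hq
    have hu2 := hu _ hq'
    have hu01 := hu0 _ hq
    have hu02 := hu0 _ hq'
    obtain ⟨hq0, hq3⟩ := Finset.mem_product.1 hq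
    obtain ⟨hq0', hq3'⟩ := Finset.mem_product.1 hq'
    obtain ⟨hq1, hq2⟩ := Finset.mem_product.1 hq0
    obtain ⟨hq1', hq2'⟩ := Finset.mem_product.1 hq0'
    simp only at hu1 hu2 hq1 hq2 hq1' hq2' hq3 hq3'
    obtain ⟨ha0, -, ⟨d, hd, hdd⟩, ⟨e, he, hee⟩⟩ := h1 a hq1
    obtain ⟨ha0', -, ⟨d', hd', hdd'⟩, ⟨e', he', hee'⟩⟩ := h1 a' hq1'
    have hb0 := (hF1 b hq2).1
    have hb0' := (hF1 b' hq2').1
    have hc0 := (hL1 c hq3).1
    have hc0' := (hL1 c' hq3').1
    set w := u ((a, b), c) / u ((a', b'), c') with hw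
    have hw0 : w ≠ 0 := div_ne_zero hu01 hu02
    have e1 : a * j b * i c = a' * j b' * i c' * w ^ p := by
      have h3 : u ((a', b'), c') ^ p ≠ 0 := pow_ne_zero p hu02
      rw [hu1, hu2, heq, hw, div_pow]
      field_simp
    have e1' : (a : AlgebraicClosure K) * b * c = a' * b' * c' * (w : AlgebraicClosure K) ^ p :=
      congrArg Subtype.val e1
    have hw0' : (w : AlgebraicClosure K) ≠ 0 := fun h => hw0 (Subtype.ext h)
    have ha00 : (a : AlgebraicClosure K) ≠ 0 := fun h => ha0 (Subtype.ext h)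
    have ha00' : (a' : AlgebraicClosure K) ≠ 0 := fun h => ha0' (Subtype.ext h)
    have hne : ∀ {x y : AlgebraicClosure K}, x ≠ 0 → x = y ^ p → y ≠ 0 := by
      rintro x y hx rfl h
      exact hx (by rw [h, zero_pow hp.ne_zero])
    have hd0 : d ≠ 0 := hne (v4_norm_ne L _ ha00) hdd
    have he0 : e ≠ 0 := hne (v4_norm_ne F _ ha00) hee
    have hwfix : FixG (L ⊔ F).fixingSubgroup (w : AlgebraicClosure K) :=
      fun s hs => vn_fix (L ⊔ F) w.2 hs
    have hT' := rho_trans hT
    -- norms to `F`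
    have hκ : ∃ κ : K, κ ≠ 0 ∧ Algebra.norm K c = Algebra.norm K c' * κ ^ p := by
      have g1 := hν c hq3
      have g2 := hν c' hq3'
      have g3 := pow_ne_zero p (hν0 c' hq3')
      refine ⟨ν c / ν c', div_ne_zero (hν0 c hq3) (hν0 c' hq3'), ?_⟩
      rw [g1, g2, heqK, div_pow]
      field_simp
    obtain ⟨κ, hκ0, hκ⟩ := hκ
    have hmF : normG L F.fixingSubgroup (w : AlgebraicClosure K) ∈ F := by
      apply rho_mem F
      apply v4_norm_fix L _ hT
      intro s hs
      rw [← IntermediateField.fixingSubgroup_sup] at hs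
      exact hwfix s hs
    have hmL : normG F L.fixingSubgroup (w : AlgebraicClosure K) ∈ L := by
      apply rho_mem L
      apply v4_norm_fix F _ hT'
      intro s hs
      rw [inf_comm, ← IntermediateField.fixingSubgroup_sup] at hs
      exact hwfix s hs
    have hbb : b = b' := by
      have q1 := congrArg (normG L F.fixingSubgroup) e1'
      rw [v4_norm_mul, v4_norm_mul, v4_norm_mul, v4_norm_mul, v4_norm_mul,
        rhoP_norm_pow L F hT, hdd, hdd',
        v4_norm_pow L _ hT (fun s hs => vn_fix F b.2 hs),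
        v4_norm_pow L _ hT (fun s hs => vn_fix F b'.2 hs), rho_cross L F hT, rho_cross L F hT,
        hκ] at q1
      let dF : F := ⟨d, hd⟩
      let dF' : F := ⟨d', hd'⟩
      let mF : F := ⟨_, hmF⟩
      have z1 : dF ≠ 0 := fun h => hd0 (congrArg Subtype.val h)
      have hN0 : algebraMap K F (Algebra.norm K c') ≠ 0 :=
        (map_ne_zero _).2 ((Algebra.norm_ne_zero_iff).2 hc0')
      have hκF : algebraMap K F κ ≠ 0 := (map_ne_zero _).2 hκ0
      have q2 : dF ^ p * b ^ Module.finrank K L *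
          (algebraMap K F (Algebra.norm K c') * algebraMap K F κ ^ p) =
          dF' ^ p * b' ^ Module.finrank K L * algebraMap K F (Algebra.norm K c') *
            mF ^ p := by
        apply Subtype.ext
        rw [map_mul, map_pow] at q1
        exact q1
      have q3 : (dF * algebraMap K F κ) ^ p * b ^ Module.finrank K L =
          (dF' * mF) ^ p * b' ^ Module.finrank K L := by
        apply mul_right_cancel₀ hN0
        rw [mul_pow, mul_pow]
        linear_combination q2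
      obtain ⟨x, hx⟩ := rhoP_cop hp hb0 hb0' (mul_ne_zero z1 hκF) hn q3
      exact hF3 b hq2 b' hq2' x hx
    have hcc : c = c' := by
      subst hbb
      have q1 := congrArg (normG F L.fixingSubgroup) e1'
      rw [v4_norm_mul, v4_norm_mul, v4_norm_mul, v4_norm_mul, v4_norm_mul,
        rhoP_norm_pow F L hT', hee, hee',
        v4_norm_pow F _ hT' (fun s hs => vn_fix L c.2 hs),
        v4_norm_pow F _ hT' (fun s hs => vn_fix L c'.2 hs), rho_cross F L hT'] at q1
      let eL : L := ⟨e, he⟩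
      let eL' : L := ⟨e', he'⟩
      let mL : L := ⟨_, hmL⟩
      have z1 : eL ≠ 0 := fun h => he0 (congrArg Subtype.val h)
      have hN0 : algebraMap K L (Algebra.norm K b) ≠ 0 :=
        (map_ne_zero _).2 ((Algebra.norm_ne_zero_iff).2 hb0)
      have q2 : eL ^ p * algebraMap K L (Algebra.norm K b) * c ^ Module.finrank K F =
          eL' ^ p * algebraMap K L (Algebra.norm K b) * c' ^ Module.finrank K F *
            mL ^ p := by
        apply Subtype.ext
        exact q1
      have q3 : eL ^ p * c ^ Module.finrank K F =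
          (eL' * mL) ^ p * c' ^ Module.finrank K F := by
        apply mul_right_cancel₀ hN0
        rw [mul_pow]
        linear_combination q2
      obtain ⟨x, hx⟩ := rhoP_cop hp hc0 hc0' z1 hn' q3
      exact hL3 c hq3 c' hq3' x hx
    have haa : a = a' := by
      refine h2 a hq1 a' hq1' w hw0 ?_
      subst hbb
      subst hcc
      have e7 : j b * i c ≠ 0 := mul_ne_zero (hj0 b hb0) (hi0 c hc0)
      have e8 : a * (j b * i c) = a' * w ^ p * (j b * i c) := by linear_combination e1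
      exact mul_right_cancel₀ e7 e8
    rw [haa, hbb, hcc]
  have hle := Finset.card_le_card_of_injOn (t := TM ×ˢ TK) (fun q => (t q, τ q.2))
    (fun q hq => Finset.mem_product.2 ⟨ht q hq, hτ q.2 (Finset.mem_product.1 hq).2⟩) hinj
  rw [Finset.card_product, Finset.card_product, Finset.card_product, hTF, hTL, hTM, hTK] at hle
  exact hle

omit [NumberField K] in
/-- A set of elements with valuations divisible by `p` in which at most `n` elements are different
modulo `p`-th powers. -/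
theorem rhoP_classes {p : ℕ} (hp : p.Prime) (E : IntermediateField K (AlgebraicClosure K))
    [NumberField E] (n : ℕ) (X : Set E)
    (hX : ∀ a ∈ X, a ≠ 0 ∧ ∀ w : HeightOneSpectrum (𝓞 E), (p : ℤ) ∣ vOrd w a)
    (hn : ∀ Y : Finset E, (∀ a ∈ Y, a ∈ X) →
      (∀ a ∈ Y, ∀ a' ∈ Y, ∀ u : E, u ≠ 0 → a = a' * u ^ p → a = a') → Y.card ≤ n) :
    PowClasses p X n := by
  classical
  obtain ⟨TM, hTM, hM1, hM2, hM3⟩ := selCardM E hp.ne_zero
  let TX := TM.filter fun t => ∃ a ∈ X, ∃ u : E, u ≠ 0 ∧ a = t * u ^ p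
  have hch : ∀ t ∈ TX, ∃ a ∈ X, ∃ u : E, u ≠ 0 ∧ a = t * u ^ p :=
    fun t ht => (Finset.mem_filter.1 ht).2
  choose! a haX u hu0 hu using hch
  have hainj : ∀ t ∈ TX, ∀ t' ∈ TX, ∀ w : E, w ≠ 0 → a t = a t' * w ^ p → t = t' := by
    intro t ht t' ht' w hw he
    refine hM3 t (Finset.mem_filter.1 ht).1 t' (Finset.mem_filter.1 ht').1 (u t' * w / u t) ?_
    have h3 := pow_ne_zero p (hu0 t ht)
    rw [hu t ht, hu t' ht'] at he
    rw [div_pow, mul_pow]
    field_simp
    linear_combination he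
  refine ⟨TX.image a, hn _ ?_ ?_, ?_⟩
  · intro b hb
    obtain ⟨t, ht, rfl⟩ := Finset.mem_image.1 hb
    exact haX t ht
  · intro b hb b' hb' w hw he
    obtain ⟨t, ht, rfl⟩ := Finset.mem_image.1 hb
    obtain ⟨t', ht', rfl⟩ := Finset.mem_image.1 hb'
    rw [hainj t ht t' ht' w hw he]
  · intro c hc
    obtain ⟨hc0, hcev⟩ := hX c hc
    obtain ⟨t, ht, v, hv0, hv⟩ := hM2 c hc0 hcev
    have htX : t ∈ TX := Finset.mem_filter.2 ⟨ht, c, hc, v, hv0, hv⟩
    refine ⟨a t, Finset.mem_image_of_mem a htX, v / u t, div_ne_zero hv0 (hu0 t htX), ?_⟩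
    have h3 := pow_ne_zero p (hu0 t htX)
    rw [hu t htX, hv, div_pow]
    field_simp

/-- The bound for the number of the classes in `charClasses`, if the norms to `L` are `p`-th powers. -/
theorem rhoP_main2 {p : ℕ} (hp : p.Prime) (L F : IntermediateField K (AlgebraicClosure K))
    [FiniteDimensional K L] [FiniteDimensional K F] [NumberField F] [NumberField L]
    [NumberField (L ⊔ F : IntermediateField K (AlgebraicClosure K))]
    (hn : (Module.finrank K L).Coprime p) (hn' : (Module.finrank K F).Coprime p)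
    (hT : TransOn L F.fixingSubgroup) :
    ∃ ρ : ℕ, selNumP p (L ⊔ F : IntermediateField K (AlgebraicClosure K)) * selNumP p K =
        p ^ ρ * (selNumP p F * selNumP p L) ∧
      ∀ (Rel : Set (((AlgebraicClosure K ≃ₐ[K] AlgebraicClosure K) ⧸ F.fixingSubgroup) → ℤ))
        (T : Set (HeightOneSpectrum (𝓞 F))), (fun _ => 1) ∈ Rel →
        PowClasses p (charClasses p L F Rel T) (p ^ ρ) := by
  classical
  obtain ⟨kF, hkF⟩ := selNumP_pow hp F
  obtain ⟨kL, hkL⟩ := selNumP_pow hp L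
  obtain ⟨kK, hkK⟩ := selNumP_pow hp K
  obtain ⟨kM, hkM⟩ := selNumP_pow hp (L ⊔ F : IntermediateField K (AlgebraicClosure K))
  have h1 : selNumP p F * selNumP p L ≤
      selNumP p (L ⊔ F : IntermediateField K (AlgebraicClosure K)) * selNumP p K := by
    have h2 := rhoP_count2 hp L F hn hn' hT {1} (by
      intro a ha
      rw [Finset.mem_singleton] at ha
      subst ha
      refine ⟨one_ne_zero, fun w => ?_, ⟨1, F.one_mem, ?_⟩, 1, L.one_mem, ?_⟩
      · rw [vOrd_one]
        exact dvd_zero _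
      · show normG L F.fixingSubgroup (1 : AlgebraicClosure K) = 1 ^ p
        rw [v4_norm_pow L _ hT (fun s _ => map_one s), one_pow, one_pow]
      · show normG F L.fixingSubgroup (1 : AlgebraicClosure K) = 1 ^ p
        rw [v4_norm_pow F _ (rho_trans hT) (fun s _ => map_one s), one_pow, one_pow]) (by
      intro a ha a' ha' u _ _
      rw [Finset.mem_singleton] at ha ha'
      rw [ha, ha'])
    rwa [Finset.card_singleton, one_mul] at h2
  have hle : kF + kL ≤ kM + kK := by
    rw [hkF, hkM, hkL, hkK, ← pow_add, ← pow_add] at h1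
    exact (Nat.pow_le_pow_iff_right hp.one_lt).1 h1
  refine ⟨kM + kK - (kF + kL), ?_, fun Rel T hRel => ?_⟩
  · rw [hkF, hkM, hkL, hkK, ← pow_add, ← pow_add, ← pow_add, Nat.sub_add_cancel hle]
  · have hX : ∀ a ∈ charClasses p L F Rel T, a ≠ 0 ∧ (∀ w : HeightOneSpectrum
        (𝓞 (L ⊔ F : IntermediateField K (AlgebraicClosure K))), (p : ℤ) ∣ vOrd w a) ∧
        (∃ d ∈ F, normG L F.fixingSubgroup (a : AlgebraicClosure K) = d ^ p) ∧
        ∃ d ∈ L, normG F L.fixingSubgroup (a : AlgebraicClosure K) = d ^ p := by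
      rintro a ⟨ha0, hd, hrel, hunr, hdiv⟩
      refine ⟨ha0, ?_, hd, ?_⟩
      · rw [rhoP_div p (L ⊔ F) ha0]
        intro 𝔓 h𝔓
        obtain ⟨v, hv⟩ := v2c_above 𝔓 h𝔓
        obtain ⟨w, hw⟩ := v2_place F hv
        by_cases h : (p : 𝓞 F) ∉ w.1.asIdeal ∨ w.1 ∈ T
        · exact v9_div_of_unr _ hp h𝔓 ha0 (hunr w.1 𝔓 hw h)
        · push Not at h
          exact hdiv w.1 𝔓 hw h.1 h.2
      · obtain ⟨d, hd1, hd2⟩ := hrel _ hRel
        simp only [zpow_one] at hd2
        exact ⟨d, rho_mem L fun s hs => hd1 s hs fun q => rfl, hd2⟩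
    refine rhoP_classes hp (L ⊔ F) _ _ (fun a ha => ⟨(hX a ha).1, (hX a ha).2.1⟩) ?_
    intro Y hY hdist
    have h2 := rhoP_count2 hp L F hn hn' hT Y (fun a ha => hX a (hY a ha)) hdist
    have h3 : Y.card * p ^ (kF + kL) ≤ p ^ (kM + kK - (kF + kL)) * p ^ (kF + kL) :=
      calc Y.card * p ^ (kF + kL) = Y.card * selNumP p F * selNumP p L := by
            rw [hkF, hkL, pow_add, mul_assoc]
        _ ≤ selNumP p (L ⊔ F : IntermediateField K (AlgebraicClosure K)) * selNumP p K := h2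
        _ = p ^ (kM + kK - (kF + kL)) * p ^ (kF + kL) := by
            rw [hkM, hkK, ← pow_add, ← pow_add, Nat.sub_add_cancel hle]
    exact Nat.le_of_mul_le_mul_right h3 (pow_pos hp.pos _)

end Pool.Agent.H.MP_ac3185_nt
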