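import Pool.Agent.H.MP_ac3185_nt.V2.Defs

/-! The number of the classes modulo `p`-th powers of elements of a number field with valuations
divisible by `p`. -/

set_option autoImplicit false

open NumberField

namespace Pool.Agent.H.MP_ac3185_nt

universe u

/-- The `p`-rank of the class group of `E` plus the rank of the group of units of `E`, plus `1` if `E`
contains the `p`-th roots of unity. -/
noncomputable def selRankP (p : ℕ) (E : Type u) [Field E] : ℕ :=
  Nat.log p (Nat.card {x : ClassGroup (𝓞 E) // x ^ p = 1}) +
    (Nat.card (InfinitePlace E) - 1 + Nat.log p (Nat.card {z : E // z ^ p = 1}))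

open Classical in
/-- With `s` the number `selRankP p`: the number `s(LF) - s(F) - (s(L) - s(K))`, and `s(L) - s(K)` if
`F = K`. -/
noncomputable def rhoBoundP (p : ℕ) {K : Type u} [Field K]
    (L F : IntermediateField K (AlgebraicClosure K)) : ℕ :=
  if F = ⊥ then selRankP p (L ⊔ F : IntermediateField K (AlgebraicClosure K)) - selRankP p F
  else selRankP p (L ⊔ F : IntermediateField K (AlgebraicClosure K)) + selRankP p K -
    (selRankP p F + selRankP p L)

end Pool.Agent.H.MP_ac3185_nt
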