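import Pool.Agent.H.MP_ac3185_nt.V9.ExistP
import Pool.Agent.H.MP_ac3185_nt.V9.RhoP2
import Pool.Agent.H.MP_ac3185_nt.V9.SelDefsP
import Pool.Agent.H.MP_ac3185_nt.V8.SignAll

/-! The growth of the rank in extensions of degree prime to `p`: the theorem for all abelian varieties
and all prime numbers `p`. -/

set_option autoImplicit false

open CategoryTheory AlgebraicGeometry NumberField IsDedekindDomain
open scoped MonObj

namespace Pool.Agent.H.MP_ac3185_nt

universe u

theorem selNumP_rank {p : ℕ} (hp : p.Prime) (E : Type u) [Field E] [NumberField E] :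
    selNumP p E = p ^ selRankP p E := by
  have hpf : Fact p.Prime := ⟨hp⟩
  let G : Subgroup (ClassGroup (𝓞 E)) := (powMonoidHom p : ClassGroup (𝓞 E) →* _).ker
  have h2 : IsPGroup p G := fun x => ⟨1, by
    apply Subtype.ext
    have h3 : (x : ClassGroup (𝓞 E)) ^ p = 1 := x.2
    rw [pow_one]
    exact h3⟩
  obtain ⟨k, hk⟩ := (IsPGroup.iff_card (p := p)).1 h2
  have h1 : Nat.card {x : ClassGroup (𝓞 E) // x ^ p = 1} = p ^ k := hk
  have h4 : ∃ j : ℕ, Nat.card {z : E // z ^ p = 1} = p ^ j := by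
    rw [unitM_roots E hp.ne_zero]
    have h5 := (Nat.dvd_prime hp).1 (Nat.gcd_dvd_right (Nat.card (Units.torsion E)) p)
    rcases h5 with h5 | h5
    · exact ⟨0, by rw [h5, pow_zero]⟩
    · exact ⟨1, by rw [h5, pow_one]⟩
  obtain ⟨j, hj⟩ := h4
  have h6 : Units.rank E = Nat.card (InfinitePlace E) - 1 := by
    rw [Units.rank, Nat.card_eq_fintype_card]
  unfold selNumP selRankP
  rw [h1, hj, h6, Nat.log_pow hp.one_lt, Nat.log_pow hp.one_lt, pow_add, pow_add]

variable {K : Type u} [Field K] [NumberField K]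

/-- The bound for the number of classes in terms of class groups and units. -/
theorem v9_rhoBound {p : ℕ} (hp : p.Prime) (L F : IntermediateField K (AlgebraicClosure K))
    [FiniteDimensional K L] [FiniteDimensional K F] (hn : (Module.finrank K L).Coprime p)
    (hn' : (Module.finrank K F).Coprime p) (hT : TransOn L F.fixingSubgroup)
    (Rel : Set (((AlgebraicClosure K ≃ₐ[K] AlgebraicClosure K) ⧸ F.fixingSubgroup) → ℤ))
    (T : Set (HeightOneSpectrum (𝓞 F))) (hRel : F = ⊥ ∨ (fun _ => 1) ∈ Rel) :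
    PowClasses p (charClasses p L F Rel T) (p ^ rhoBoundP p L F) := by
  have hnF : NumberField F := NumberField.of_module_finite K F
  have hnL : NumberField L := NumberField.of_module_finite K L
  have hfd : FiniteDimensional K (L ⊔ F : IntermediateField K (AlgebraicClosure K)) :=
    IntermediateField.finiteDimensional_sup L F
  have hnM : NumberField (L ⊔ F : IntermediateField K (AlgebraicClosure K)) :=
    NumberField.of_module_finite K _
  by_cases h : F = ⊥
  · obtain ⟨ρ, h1, h2⟩ := rhoP_main hp L F hn hT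
    have h3 : rhoBoundP p L F = ρ := by
      rw [selNumP_rank hp, selNumP_rank hp, ← pow_add] at h1
      have h4 := Nat.pow_right_injective hp.two_le h1
      unfold rhoBoundP
      rw [if_pos h, h4, Nat.add_sub_cancel]
    rw [h3]
    exact h2 Rel T
  · obtain ⟨ρ, h1, h2⟩ := rhoP_main2 hp L F hn hn' hT
    have h3 : rhoBoundP p L F = ρ := by
      rw [selNumP_rank hp, selNumP_rank hp, selNumP_rank hp, selNumP_rank hp, ← pow_add, ← pow_add,
        ← pow_add] at h1
      have h4 := Nat.pow_right_injective hp.two_le h1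
      unfold rhoBoundP
      rw [if_neg h, h4, Nat.add_sub_cancel]
    rw [h3]
    exact h2 Rel T (hRel.resolve_left h)

/-- For every abelian variety `A` over `K` and every prime number `p` there are a finite set `S₀` of
places of `K` and fields `F_i`, `i < r`, in `K(A[p], μ_p)` of degree prime to `p` over `K`, such that for
all `L / K` of degree prime to `p` which are linearly disjoint from `K(A[p], μ_p)` there is a chain for
`A[p]` with an explicit bound. -/
theorem v9_final {p : ℕ} (hp : p.Prime) (A : Over (Spec (.of K))) [GrpObj A] [IsAbVar A] :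
    ∃ (S₀ : Finset (HeightOneSpectrum (𝓞 K))) (r : ℕ)
      (F : ℕ → IntermediateField K (AlgebraicClosure K))
      (S : ∀ i, Finset (HeightOneSpectrum (𝓞 (F i)))),
      (∀ v ∉ S₀, ∀ 𝔓, Above 𝔓 v → GoodAt A 𝔓) ∧
      (∀ i v, v ∈ S i ↔ ∃ v₀ ∈ S₀, Divides (F i) v v₀) ∧
      (∀ i < r, FiniteDimensional K (F i) ∧ (Module.finrank K (F i)).Coprime p ∧
        ∀ s, (∀ x : Pts A (AlgebraicClosure K), p • x = 0 → act A s x = x) →
          (∀ z : AlgebraicClosure K, z ^ p = 1 → s z = z) → s ∈ (F i).fixingSubgroup) ∧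
      ∀ (L : IntermediateField K (AlgebraicClosure K)) [FiniteDimensional K L],
        (Module.finrank K L).Coprime p →
        (∀ s, ∃ t ∈ L.fixingSubgroup, (∀ x : Pts A (AlgebraicClosure K), p • x = 0 →
          act A (t⁻¹ * s) x = x) ∧ ∀ z : AlgebraicClosure K, z ^ p = 1 → (t⁻¹ * s) z = z) →
        ∀ N : AddSubgroup (Pts A (AlgebraicClosure K)), (∀ x, x ∈ N ↔ p • x = 0) →
          CharChain p L A N
            (∑ i ∈ Finset.range r, (rhoBoundP p L (F i) + excessOver L (F i) (S i))) := by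
  classical
  obtain ⟨S₁, r, N, ψ, F, h0, hr, h2, hF, hi⟩ := v9_exists hp A
  obtain ⟨S₂, hS₂⟩ := v8_bad A
  have hfin : ∀ i, {v : HeightOneSpectrum (𝓞 (F i)) | ∃ v₀ ∈ S₁ ∪ S₂, Divides (F i) v v₀}.Finite :=
    fun i => by
      have hFi := hF i
      exact v8x_finite (F i) (S₁ ∪ S₂)
  refine ⟨S₁ ∪ S₂, r, F, fun i => (hfin i).toFinset, fun v hv => hS₂ v fun h =>
    hv (Finset.mem_union_right _ h), fun i v => (hfin i).mem_toFinset, fun i hir =>
    ⟨hF i, (hi i hir).1.cop, (hi i hir).2.1⟩, fun L _ hn hlin Np hNp => ?_⟩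
  have hNr : Np = N r := by
    ext x
    rw [hNp, hr]
  rw [hNr]
  refine v9_charChain p L A r N ψ F
    (fun i => {c | ∀ x ∈ N (i + 1), ∏ᶠ q, conjChar (F i) (ψ i) q x ^ c q = 1})
    (fun _ => ∅) (fun i => (hfin i).toFinset) (fun i => rhoBoundP p L (F i)) h0 hF
    (fun i hir => ?_) (fun i hir => ?_)
  · obtain ⟨hf, -, -, hE⟩ := hi i hir
    refine v9_layerAt hf.toCharFrame (h2 _) hlin _ ∅ _ (fun c hc => hc)
      (fun v hv => absurd hv (Set.notMem_empty v)) (fun v hv _ => hE v fun v₀ hv₀ hd => ?_)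
    exact hv ((hfin i).mem_toFinset.2 ⟨v₀, Finset.mem_union_left _ hv₀, hd⟩)
  · obtain ⟨hf, -, hu, -⟩ := hi i hir
    have hFi := hF i
    refine v9_rhoBound hp L (F i) hn hf.cop ?_ _ _ hu
    refine v9_transOn L (F i) hf.toCharFrame fun s => ?_
    obtain ⟨t, ht, h, hz⟩ := hlin s
    refine ⟨t, ht, fun x hx => ?_, hz⟩
    rw [h x (h2 _ x hx), sub_self]
    exact (N i).zero_mem

end Pool.Agent.H.MP_ac3185_nt
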