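import Pool.Agent.H.MP_ac3185_nt.V9.Defs
import Pool.Agent.H.MP_ac3185_nt.V8.Div
import Pool.Agent.H.MP_ac3185_nt.helper85.MainG

/-! The conclusions on the rank and the root number, for a prime number `p`. -/

set_option autoImplicit false

open CategoryTheory AlgebraicGeometry NumberField IsDedekindDomain
open scoped MonObj

namespace Pool.Agent.H.MP_ac3185_nt

universe u

variable {K : Type u} [Field K] [NumberField K]

omit [NumberField K] in
theorem v9_cosetBound (A : Over (Spec (.of K))) [GrpObj A] [IsAbVar A]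
    (L : IntermediateField K (AlgebraicClosure K)) (n k : ℕ) :
    CosetBound L (mulMor A n) k ↔ MulCover A L n k := by
  unfold CosetBound MulCover
  simp only [v8_mulMor]

omit [NumberField K] in
/-- From the cover of the points invariant modulo `A[n]` to the cover of `A(L)`. -/
theorem v9_coverMul (A : Over (Spec (.of K))) [GrpObj A] [IsAbVar A]
    (L : IntermediateField K (AlgebraicClosure K)) (n k : ℕ)
    (N : AddSubgroup (Pts A (AlgebraicClosure K))) (hN : ∀ x, x ∈ N ↔ n • x = 0)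
    (hdiv : ∀ x : Pts A (AlgebraicClosure K), ∃ y, n • y = x)
    (hc : CosetCover (ratPts A L.fixingSubgroup N)
      (ratPts A ⊤ N ⊔ ratPts A L.fixingSubgroup ⊥) k) : MulCover A L n k := by
  obtain ⟨T, hT, h1, h2⟩ := v8_div A L.fixingSubgroup ⊤ n N hN hdiv _ hc
  refine ⟨T, hT, h1, fun y hy => ?_⟩
  obtain ⟨t, ht, y0, x, h3, h4, h5⟩ := h2 y hy
  exact ⟨t, ht, y0, x, fun s => h3 s (Subgroup.mem_top s), h4, h5⟩

/-- The conclusions on the rank and the root number, if `A(L)` is the union of at most `p ^ b` cosets of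
`A(K) + p ^ m A(L)`. -/
theorem v9_concl (p : ℕ) (hp : p.Prime) (L : IntermediateField K (AlgebraicClosure K))
    [FiniteDimensional K L] (hn : (Module.finrank K L).Coprime p)
    (A : Over (Spec (.of K))) [GrpObj A] [IsAbVar A]
    (m b : ℕ) (hc : MulCover A L (p ^ m) (p ^ b)) :
    (b = 0 → 0 < m → ∀ x, (∀ s ∈ L.fixingSubgroup, act A s x = x) →
      ∃ N : ℕ, N.Coprime p ∧ ∀ s, act A s (N • x) = N • x) ∧
    (b < m → ¬ NewPoint A L ∧ rk A L = rk A ⊥) ∧
    (Module.Finite ℤ (Pts A L) → rk A ⊥ ≤ rk A L ∧ m * (rk A L - rk A ⊥) ≤ b) ∧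
    ∀ g : ℕ, topologicalKrullDim A.left = g → ∀ W : LocalSigns K, IsRootNumbers A W →
      ∀ (T : Finset (HeightOneSpectrum (𝓞 K))) (r : HeightOneSpectrum (𝓞 K) → ℕ),
      (∀ v ∈ T, SplitTorus A v (r v) ∨ (QuadTorus A v (r v) ∧ OddRam L v) ∨
        (EvenSign W v (r v) ∧ UnrIn L v)) →
      (Odd (Module.finrank K L) → (∀ v ∉ T, ∀ 𝔓, Above 𝔓 v → MildAt A L 𝔓) →
        signOver W g L = (-1) ^ signChange L g T r * signOver W g ⊥ ∧
        (b < m → ((ParityFor A g W L ↔ ParityFor A g W ⊥) ↔ Even (signChange L g T r))) ∧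
        (b < 2 * m → Module.Finite ℤ (Pts A L) →
          ((ParityFor A g W L ↔ ParityFor A g W ⊥) ↔
            (Odd (signChange L g T r) ↔ NewPoint A L)))) ∧
      (Even (Module.finrank K L) → (∀ v ∉ T, ∀ 𝔓, Above 𝔓 v → GoodAt A 𝔓) →
        signOver W g L =
          (-1) ^ (g * Nat.card (InfinitePlace L) + ∑ v ∈ T, r v * placeCount L v) ∧
        (b < m → (ParityFor A g W L ↔
          Even (rk A ⊥ + (g * Nat.card (InfinitePlace L) + ∑ v ∈ T, r v * placeCount L v)))) ∧
        (b < 2 * m → Module.Finite ℤ (Pts A L) → (ParityFor A g W L ↔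
          (Odd (rk A ⊥ + (g * Nat.card (InfinitePlace L) + ∑ v ∈ T, r v * placeCount L v)) ↔
            NewPoint A L)))) := by
  have hpL : ¬ p ∣ Module.finrank K L := (Nat.Prime.coprime_iff_not_dvd hp).1 hn.symm
  obtain ⟨h, hh⟩ : ∃ h, h = mulMor A (p ^ m) := ⟨_, rfl⟩
  have hmul : ∀ x, onPts h x = (p ^ m : ℕ) • x := fun x => by rw [hh, v8_mulMor]
  have hq : CosetBound L h (p ^ b) := by
    rw [hh]
    exact (v9_cosetBound A L (p ^ m) (p ^ b)).2 hc
  have hlt : b < m → ¬ NewPoint A L ∧ rk A L = rk A ⊥ := fun hb =>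
    ⟨(wg_lt p hp L A m b hb h hmul hq).1, (wg_lt p hp L A m b hb h hmul hq).2.2⟩
  have hnew : b < 2 * m → Module.Finite ℤ (Pts A L) →
      ∃ δ, rk A L = rk A ⊥ + δ ∧ δ < 2 ∧ (Odd δ ↔ NewPoint A L) := by
    intro hb hMW
    obtain ⟨hle, hb2⟩ := wg_rank p hp L A hMW m b h hmul hq
    have h0 : rk A L - rk A ⊥ < 2 := by
      by_contra hne
      have h3 : m * 2 ≤ m * (rk A L - rk A ⊥) := Nat.mul_le_mul_left m (not_lt.1 hne)
      omega
    obtain ⟨δ, hδ⟩ : ∃ δ, rk A L = rk A ⊥ + δ := ⟨rk A L - rk A ⊥, by omega⟩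
    refine ⟨δ, hδ, by omega, ?_⟩
    constructor
    · intro ho
      by_contra hn
      have h5 := v2_not_new L A hMW hn
      have h6 : δ = 0 := by omega
      rw [h6] at ho
      exact absurd ho (by decide)
    · rintro ⟨x, hx, hx'⟩
      have h5 : rk A L ≠ rk A ⊥ := v2k_new L A hMW x hx hx'
      have h6 : δ = 1 := by omega
      rw [h6]
      exact odd_one
  refine ⟨fun hb hm x hx => ?_, hlt, fun hMW => wg_rank p hp L A hMW m b h hmul hq, ?_⟩
  · have hq0 : CosetBound L h 1 := by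
      rw [hb, pow_zero] at hq
      exact hq
    obtain ⟨y, rfl⟩ := sp_bar_of_fixed A L x hx
    obtain ⟨N, hN, z, hz⟩ := wg_zero p hp L hpL A m hm h hmul hq0 y
    refine ⟨N, hN, fun s => ?_⟩
    rw [← map_nsmul, ← hz]
    have h6 : toBar A L (ptsa_j A (bot_le : ⊥ ≤ L) z) = toBar A ⊥ z := sp_bar_j A _ z
    rw [h6]
    exact sp_bar_fix A ⊥ s (by
      rw [IntermediateField.fixingSubgroup_bot]
      exact Subgroup.mem_top s) z
  intro g _ W hW T r hT
  refine ⟨fun hodd hT' => ?_, fun heven hT' => ?_⟩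
  · have hs := v2t_sign L hodd A g W hW T r hT hT'
    have hs1 := signOver_sign A W hW g ⊥
    refine ⟨hs, fun hb => ?_, fun hb hMW => ?_⟩
    · have h2 := (hlt hb).2
      have h3 := v2_signs (rk A ⊥) 0 (signChange L g T r) _ _ hs1 hs
      rw [add_zero, ← h2] at h3
      unfold ParityFor
      rw [← h2]
      refine h3.trans ?_
      rw [← Nat.not_even_iff_odd]
      simp
    · obtain ⟨δ, hδ, -, h4⟩ := hnew hb hMW
      have h3 := v2_signs (rk A ⊥) δ (signChange L g T r) _ _ hs1 hs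
      unfold ParityFor
      rw [hδ]
      refine h3.trans ?_
      rw [h4]
  · have hs := wh_sign L heven A g W hW T r hT hT'
    refine ⟨hs, fun hb => ?_, fun hb hMW => ?_⟩
    · unfold ParityFor
      rw [hs, (hlt hb).2]
      exact wg_signs _ _
    · obtain ⟨δ, hδ, hδ2, h4⟩ := hnew hb hMW
      unfold ParityFor
      rw [hs, hδ, ← h4]
      refine (wg_signs _ _).trans ?_
      rw [add_right_comm, Nat.even_add, ← Nat.not_odd_iff_even, ← Nat.not_odd_iff_even,
        not_iff_not]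

end Pool.Agent.H.MP_ac3185_nt
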