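import Pool.Agent.H.MP_ac3185_nt.V9.ChainP
import Pool.Agent.H.MP_ac3185_nt.V9.ConclP
import Pool.Agent.H.MP_ac3185_nt.W.DivPts

/-! The growth of the rank and the change of the root number, for all abelian varieties and extensions of
degree prime to `p`. -/

set_option autoImplicit false

open CategoryTheory AlgebraicGeometry NumberField IsDedekindDomain
open scoped MonObj

namespace Pool.Agent.H.MP_ac3185_nt

universe u

variable {K : Type u} [Field K] [NumberField K]

/-- `A(L)` is the union of at most `p ^ b` cosets `t + (A(K) + n A(L))`, for `N = A[n]`. -/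
theorem v9_bound {p : ℕ} (hp : p.Prime) (L : IntermediateField K (AlgebraicClosure K))
    [FiniteDimensional K L] (hn : (Module.finrank K L).Coprime p)
    (A : Over (Spec (.of K))) [GrpObj A] [IsAbVar A]
    (n : ℕ) (hn0 : n ≠ 0) (b : ℕ) (N : AddSubgroup (Pts A (AlgebraicClosure K)))
    (hN : ∀ x, x ∈ N ↔ n • x = 0) (hc : CharChain p L A N b) : MulCover A L n (p ^ b) :=
  v9_coverMul A L n (p ^ b) N hN (gc_div A n hn0) (v9_cover L hp hn A N b hc)

/-- Let `p` be a prime number, `L / K` an extension of number fields of degree prime to `p`, `A / K` an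
abelian variety and `0 = N_0 ≤ ⋯ ≤ N_r = A[p ^ m]` Galois stable subgroups as in `CharChain`, with
bound `b`. -/
theorem v9_main (p : ℕ) (hp : p.Prime) (L : IntermediateField K (AlgebraicClosure K))
    [FiniteDimensional K L] (hn : (Module.finrank K L).Coprime p)
    (A : Over (Spec (.of K))) [GrpObj A] [IsAbVar A]
    (m b : ℕ) (N : AddSubgroup (Pts A (AlgebraicClosure K)))
    (hN : ∀ x, x ∈ N ↔ (p ^ m : ℕ) • x = 0) (hc : CharChain p L A N b) :
    MulCover A L (p ^ m) (p ^ b) ∧
    (b = 0 → 0 < m → ∀ x, (∀ s ∈ L.fixingSubgroup, act A s x = x) →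
      ∃ N : ℕ, N.Coprime p ∧ ∀ s, act A s (N • x) = N • x) ∧
    (b < m → ¬ NewPoint A L ∧ rk A L = rk A ⊥) ∧
    (Module.Finite ℤ (Pts A L) → rk A ⊥ ≤ rk A L ∧ m * (rk A L - rk A ⊥) ≤ b) ∧
    ∀ g : ℕ, topologicalKrullDim A.left = g → ∀ W : LocalSigns K, IsRootNumbers A W →
      ∀ (T : Finset (HeightOneSpectrum (𝓞 K))) (r : HeightOneSpectrum (𝓞 K) → ℕ),
      (∀ v ∈ T, SplitTorus A v (r v) ∨ (QuadTorus A v (r v) ∧ OddRam L v) ∨
        (EvenSign W v (r v) ∧ UnrIn L v)) →
      (Odd (Module.finrank K L) → (∀ v ∉ T, ∀ 𝔓, Above 𝔓 v → MildAt A L 𝔓) →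
        signOver W g L = (-1) ^ signChange L g T r * signOver W g ⊥ ∧
        (b < m → ((ParityFor A g W L ↔ ParityFor A g W ⊥) ↔ Even (signChange L g T r))) ∧
        (b < 2 * m → Module.Finite ℤ (Pts A L) →
          ((ParityFor A g W L ↔ ParityFor A g W ⊥) ↔
            (Odd (signChange L g T r) ↔ NewPoint A L)))) ∧
      (Even (Module.finrank K L) → (∀ v ∉ T, ∀ 𝔓, Above 𝔓 v → GoodAt A 𝔓) →
        signOver W g L =
          (-1) ^ (g * Nat.card (InfinitePlace L) + ∑ v ∈ T, r v * placeCount L v) ∧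
        (b < m → (ParityFor A g W L ↔
          Even (rk A ⊥ + (g * Nat.card (InfinitePlace L) + ∑ v ∈ T, r v * placeCount L v)))) ∧
        (b < 2 * m → Module.Finite ℤ (Pts A L) → (ParityFor A g W L ↔
          (Odd (rk A ⊥ + (g * Nat.card (InfinitePlace L) + ∑ v ∈ T, r v * placeCount L v)) ↔
            NewPoint A L)))) := by
  have hq : MulCover A L (p ^ m) (p ^ b) :=
    v9_bound hp L hn A (p ^ m) (pow_ne_zero m hp.ne_zero) b N hN hc
  exact ⟨hq, v9_concl p hp L hn A m b hq⟩

end Pool.Agent.H.MP_ac3185_nt
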