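import Pool.Agent.H.MP_ac3185_nt.V9.Defs
import Pool.Agent.H.MP_ac3185_nt.helper85.RootG

/-! The root number over an extension of any degree. -/

set_option autoImplicit false

open CategoryTheory AlgebraicGeometry NumberField IsDedekindDomain
open scoped MonObj Pointwise

namespace Pool.Agent.H.MP_ac3185_nt

universe u

variable {K : Type u} [Field K] [NumberField K]

/-- Global root numbers are signs. -/
theorem v9_sign_unit {A : Over (Spec (.of K))} [GrpObj A] [IsAbVar A] {W : LocalSigns K}
    (hW : IsRootNumbers A W) (g : ℕ) (L : IntermediateField K (AlgebraicClosure K))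
    [FiniteDimensional K L] : signOver W g L = 1 ∨ signOver W g L = -1 := by
  classical
  have h1 : ∀ s : Finset (HeightOneSpectrum (𝓞 L)), ∏ w ∈ s, W L w = 1 ∨ ∏ w ∈ s, W L w = -1 := by
    intro s
    induction s using Finset.induction_on with
    | empty => exact Or.inl Finset.prod_empty
    | insert a s ha ih =>
      rw [Finset.prod_insert ha]
      rcases hW.sign L a with h | h <;> rcases ih with h' | h' <;> rw [h, h'] <;> norm_num
  have h2 : ∏ᶠ w : HeightOneSpectrum (𝓞 L), W L w = 1 ∨
      ∏ᶠ w : HeightOneSpectrum (𝓞 L), W L w = -1 := by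
    have h3 : (Function.mulSupport fun w : HeightOneSpectrum (𝓞 L) => W L w) ⊆
        ((hW.almost L).toFinset : Set (HeightOneSpectrum (𝓞 L))) := by
      intro w hw
      rw [Set.Finite.coe_toFinset]
      exact hw
    rw [finprod_eq_prod_of_mulSupport_subset _ h3]
    exact h1 _
  unfold signOver
  rcases neg_one_pow_eq_or ℤ (g * Nat.card (InfinitePlace L)) with h | h <;>
    rcases h2 with h' | h' <;> rw [h, h'] <;> norm_num

/-- The root number over an extension `L / K` of degree `n`:
`w(A/L) = (-1) ^ e w(A/K) ^ n` with `e = g (#∞_L + n #∞_K) + ∑ r_v (g_v + n)`. -/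
theorem v9_sign (L : IntermediateField K (AlgebraicClosure K)) [FiniteDimensional K L]
    (A : Over (Spec (.of K))) [GrpObj A] [IsAbVar A] (g : ℕ)
    (W : LocalSigns K) (hW : IsRootNumbers A W) (T : Finset (HeightOneSpectrum (𝓞 K)))
    (r : HeightOneSpectrum (𝓞 K) → ℕ)
    (hT : ∀ v ∈ T, SplitTorus A v (r v) ∨ (QuadTorus A v (r v) ∧ OddRam L v) ∨
      (EvenSign W v (r v) ∧ UnrIn L v))
    (hT' : ∀ v ∉ T, ∀ 𝔓, Above 𝔓 v → GoodAt A 𝔓) :
    signOver W g L = (-1) ^ signExp L g T r * signOver W g ⊥ ^ Module.finrank K L := by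
  classical
  have hsq : signOver W g ⊥ * signOver W g ⊥ = 1 := by
    rcases v9_sign_unit hW g (⊥ : IntermediateField K (AlgebraicClosure K)) with h | h <;>
      rw [h] <;> norm_num
  have hev : ∀ a b : ℕ, (-1 : ℤ) ^ (a + 2 * b) = (-1) ^ a := fun a b => by
    rw [pow_add, pow_mul (-1 : ℤ) 2 b]
    norm_num
  rcases Nat.even_or_odd (Module.finrank K L) with he | ho
  · rw [wh_sign L he A g W hW T r hT hT']
    obtain ⟨k, hk⟩ := he
    have h1 : signOver W g ⊥ ^ Module.finrank K L = 1 := by
      rw [hk, pow_add, ← mul_pow, hsq, one_pow]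
    rw [h1, mul_one]
    have h2 : signExp L g T r = (g * Nat.card (InfinitePlace L) + ∑ v ∈ T, r v * placeCount L v) +
        2 * (g * (k * Nat.card (InfinitePlace
          (⊥ : IntermediateField K (AlgebraicClosure K)))) + ∑ v ∈ T, r v * k) := by
      unfold signExp
      have h3 : ∑ v ∈ T, r v * (placeCount L v + Module.finrank K L) =
          ∑ v ∈ T, r v * placeCount L v + 2 * ∑ v ∈ T, r v * k := by
        rw [Finset.mul_sum, ← Finset.sum_add_distrib]
        exact Finset.sum_congr rfl fun v _ => by rw [hk]; ring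
      rw [h3, hk]
      ring
    rw [h2, hev]
  · rw [v2t_sign L ho A g W hW T r hT fun v hv 𝔓 h𝔓 => Or.inl (hT' v hv 𝔓 h𝔓)]
    obtain ⟨k, hk⟩ := ho
    have h1 : signOver W g ⊥ ^ Module.finrank K L = signOver W g ⊥ := by
      rw [hk, pow_succ, pow_mul, sq, hsq, one_pow, one_mul]
    rw [h1]
    congr 1
    have hpos : ∀ v : HeightOneSpectrum (𝓞 K), 1 ≤ placeCount L v := fun v => by
      have h2 := v2r_places L v
      have := h2.1
      have := h2.2
      exact Nat.card_pos
    have h2 : signExp L g T r = signChange L g T r +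
        2 * (g * (k * Nat.card (InfinitePlace
          (⊥ : IntermediateField K (AlgebraicClosure K)))) + ∑ v ∈ T, r v * (k + 1)) := by
      unfold signExp signChange
      have h3 : ∑ v ∈ T, r v * (placeCount L v + Module.finrank K L) =
          ∑ v ∈ T, r v * (placeCount L v - 1) + 2 * ∑ v ∈ T, r v * (k + 1) := by
        rw [Finset.mul_sum, ← Finset.sum_add_distrib]
        refine Finset.sum_congr rfl fun v _ => ?_
        obtain ⟨j, hj⟩ : ∃ j, placeCount L v = j + 1 := ⟨placeCount L v - 1, by
          have := hpos v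
          omega⟩
        rw [hk, hj, Nat.add_sub_cancel]
        ring
      rw [h3, hk]
      ring
    rw [h2, hev]

end Pool.Agent.H.MP_ac3185_nt
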