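import Pool.Agent.H.MP_ac3185_nt.V9.UnivP
import Pool.Agent.H.MP_ac3185_nt.V9.Main
import Pool.Agent.H.MP_ac3185_nt.V9.RhoP
import Pool.Agent.H.MP_ac3185_nt.V8.Exist

/-! Existence of the layers for every abelian variety and every prime number `p`, with data
independent of `L`. -/

set_option autoImplicit false

open CategoryTheory AlgebraicGeometry NumberField IsDedekindDomain
open scoped MonObj

namespace Pool.Agent.H.MP_ac3185_nt

universe u

variable {K : Type u} [Field K] [NumberField K]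

/-- The places above `p` are finite in number. -/
theorem v9x_fin {p : ℕ} (hp : p ≠ 0) :
    {v : HeightOneSpectrum (𝓞 K) | (p : 𝓞 K) ∈ v.asIdeal}.Finite := by
  have h := Ideal.finite_factors (R := 𝓞 K) (I := Ideal.span {(p : 𝓞 K)}) (by
    rw [Ne, Ideal.zero_eq_bot, Ideal.span_singleton_eq_bot]
    exact Nat.cast_ne_zero.2 hp)
  refine h.subset fun v hv => ?_
  exact Ideal.dvd_span_singleton.2 hv

omit [NumberField K] in
theorem v9x_mem {p : ℕ} {F : IntermediateField K (AlgebraicClosure K)}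
    {v : HeightOneSpectrum (𝓞 F)} {v₀ : HeightOneSpectrum (𝓞 K)} (h : Divides F v v₀) :
    (p : 𝓞 K) ∈ v₀.asIdeal ↔ (p : 𝓞 F) ∈ v.asIdeal := by
  have h1 : v.asIdeal.comap (algebraMap (𝓞 K) (𝓞 F)) = v₀.asIdeal := h
  rw [← h1, Ideal.mem_comap, map_natCast]

/-- For every abelian variety `A` and every prime number `p` there are Galois stable subgroups
`0 = N_0 < ⋯ < N_r = A[p]` with simple quotients, nontrivial characters `ψ_i` of `N_(i+1) / N_i` of
order `p`, with stabilizers of index prime to `p` and fixed fields `F_i`, such that `ψ_i` is etale at the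
places of `F_i` which do not lie above a finite set `S₀` of places of `K`; and `F_i = K` or the product of
all conjugates of `ψ_i` is trivial. -/
theorem v9_exists {p : ℕ} (hp : p.Prime) (A : Over (Spec (.of K))) [GrpObj A] [IsAbVar A] :
    ∃ (S₀ : Finset (HeightOneSpectrum (𝓞 K))) (r : ℕ)
      (N : ℕ → AddSubgroup (Pts A (AlgebraicClosure K)))
      (ψ : ℕ → Pts A (AlgebraicClosure K) → AlgebraicClosure K)
      (F : ℕ → IntermediateField K (AlgebraicClosure K)), N 0 = ⊥ ∧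
      (∀ x, x ∈ N r ↔ p • x = 0) ∧ (∀ i, ∀ x ∈ N i, p • x = 0) ∧
      (∀ i, FiniteDimensional K (F i)) ∧
      ∀ i < r, SimpleChar p (F i) (N i) (N (i + 1)) (ψ i) ∧
        (∀ s, (∀ x : Pts A (AlgebraicClosure K), p • x = 0 → act A s x = x) →
          (∀ z : AlgebraicClosure K, z ^ p = 1 → s z = z) → s ∈ (F i).fixingSubgroup) ∧
        (F i = ⊥ ∨ ∀ x ∈ N (i + 1), ∏ᶠ q, conjChar (F i) (ψ i) q x ^ (1 : ℤ) = 1) ∧
        ∀ v : HeightOneSpectrum (𝓞 (F i)), (∀ v₀ ∈ S₀, ¬ Divides (F i) v v₀) →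
          (p : 𝓞 (F i)) ∉ v.asIdeal ∧
          ∀ 𝔓, PrimeOver (F i) 𝔓 v → EtaleChar (F i) (N (i + 1)) (ψ i) 𝔓 := by
  classical
  obtain ⟨S1, hS1, hE⟩ := ea_etale A
  obtain ⟨r, N, ψ, F, h0, hr, h2, hF, hi⟩ := v9_layers hp A
  have hfp := v9x_fin (K := K) hp.ne_zero
  let S₀ : Finset (HeightOneSpectrum (𝓞 K)) := hS1.toFinset ∪ hfp.toFinset
  refine ⟨S₀, r, N, ψ, F, h0, hr, h2, hF, fun i hir => ?_⟩
  have hf := hi i hir
  have hFi' := hF i
  refine ⟨hf, fun s hs hs' => hf.sub s (fun x hx => ?_) hs', v9_univ_rel hp hf, fun v hv => ?_⟩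
  · rw [hs x (h2 _ x hx), sub_self]
    exact (N i).zero_mem
  · obtain ⟨v₀, hv₀⟩ := v8x_under (F i) v
    have hn : v₀ ∉ S₀ := fun h => hv v₀ h hv₀
    have hn1 : v₀ ∉ S1 := fun h => hn (Finset.mem_union_left _ (hS1.mem_toFinset.2 h))
    have hn2 : (p : 𝓞 K) ∉ v₀.asIdeal := fun h =>
      hn (Finset.mem_union_right _ (hfp.mem_toFinset.2 h))
    have hv2 : (p : 𝓞 (F i)) ∉ v.asIdeal := fun h => hn2 ((v9x_mem hv₀).2 h)
    refine ⟨hv2, fun 𝔓 h𝔓 => ?_⟩
    obtain ⟨R, hR, ρ, hρ, hρ'⟩ := hE v₀ hn1 𝔓 (v8x_above hv₀ h𝔓)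
    refine ⟨R, hR, ρ, fun s hs _ x => hρ s hs x, fun x hx hx0 => ?_⟩
    have h3 : (p : 𝓞 (AlgebraicClosure K)) ∉ 𝔓 := fun h => hv2 ((v9_p_mem h𝔓).1 h)
    rw [hρ' p h3 x (h2 _ x hx) hx0]
    exact hf.triv 0 (N i).zero_mem

omit [NumberField K] in
/-- Composition of the layers. -/
theorem v9_charChain (p : ℕ) (L : IntermediateField K (AlgebraicClosure K))
    (A : Over (Spec (.of K))) [GrpObj A] [IsAbVar A] (r : ℕ)
    (N : ℕ → AddSubgroup (Pts A (AlgebraicClosure K)))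
    (ψ : ℕ → Pts A (AlgebraicClosure K) → AlgebraicClosure K)
    (F : ℕ → IntermediateField K (AlgebraicClosure K))
    (Rel : ∀ i, Set (((AlgebraicClosure K ≃ₐ[K] AlgebraicClosure K) ⧸ (F i).fixingSubgroup) → ℤ))
    (T : ∀ i, Set (HeightOneSpectrum (𝓞 (F i))))
    (S : ∀ i, Finset (HeightOneSpectrum (𝓞 (F i)))) (ρ : ℕ → ℕ) (h0 : N 0 = ⊥)
    (hF : ∀ i, FiniteDimensional K (F i))
    (hl : ∀ i < r, CharLayer p L (F i) (Rel i) (T i) (S i) (N i) (N (i + 1)) (ψ i))
    (hρ : ∀ i < r, PowClasses p (charClasses p L (F i) (Rel i) (T i)) (p ^ ρ i)) :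
    CharChain p L A (N r) (∑ i ∈ Finset.range r, (ρ i + excessOver L (F i) (S i))) := by
  induction r with
  | zero =>
    rw [Finset.sum_range_zero, h0]
    exact CharChain.zero
  | succ r ih =>
    rw [Finset.sum_range_succ]
    have hFr := hF r
    exact CharChain.step (N r) (N (r + 1)) (ψ r) _ (ρ r) (F r) (Rel r) (T r) (S r)
      (ih (fun i hi => hl i (Nat.lt_succ_of_lt hi)) (fun i hi => hρ i (Nat.lt_succ_of_lt hi)))
      (hl r (Nat.lt_succ_self r)) (hρ r (Nat.lt_succ_self r))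

omit [NumberField K] in
/-- A layer, if `L` is linearly disjoint from the field of the points killed by `p` and the `p`-th roots
of unity. -/
theorem v9_layerAt {p : ℕ} {L F : IntermediateField K (AlgebraicClosure K)}
    {A : Over (Spec (.of K))} [GrpObj A] [IsAbVar A]
    {N N' : AddSubgroup (Pts A (AlgebraicClosure K))}
    {ψ : Pts A (AlgebraicClosure K) → AlgebraicClosure K} (hf : CharFrame p F N N' ψ)
    (h2 : ∀ x ∈ N', p • x = 0)
    (hlin : ∀ s, ∃ t ∈ L.fixingSubgroup, (∀ x : Pts A (AlgebraicClosure K), p • x = 0 →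
      act A (t⁻¹ * s) x = x) ∧ ∀ z : AlgebraicClosure K, z ^ p = 1 → (t⁻¹ * s) z = z)
    (Rel : Set (((AlgebraicClosure K ≃ₐ[K] AlgebraicClosure K) ⧸ F.fixingSubgroup) → ℤ))
    (T : Set (HeightOneSpectrum (𝓞 F))) (S : Finset (HeightOneSpectrum (𝓞 F)))
    (hRel : ∀ c ∈ Rel, ∀ x ∈ N', ∏ᶠ q, conjChar F ψ q x ^ c q = 1)
    (hT : ∀ v ∈ T, ∀ 𝔓, PrimeOver F 𝔓 v → EtaleChar F N' ψ 𝔓)
    (hS : ∀ v ∉ S, v ∉ T → (p : 𝓞 F) ∉ v.asIdeal ∧
      ∀ 𝔓, PrimeOver F 𝔓 v → EtaleChar F N' ψ 𝔓) :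
    CharLayer p L F Rel T S N N' ψ where
  toCharFrame := hf
  lin := fun s => by
    obtain ⟨t, ht, h, hz⟩ := hlin s
    refine ⟨t, ht, fun x hx => ?_, hz⟩
    rw [h x (h2 x hx), sub_self]
    exact N.zero_mem
  rel := hRel
  etale := hT
  above := fun v hvS hvT hv2 => absurd hv2 (hS v hvS hvT).1
  away := fun v hvS _ => by
    by_cases hvT : v ∈ T
    · exact Or.inl (hT v hvT)
    · exact Or.inl (hS v hvS hvT).2

/-- For every abelian variety `A` over `K` and every prime number `p` there are a finite set `S₀` of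
places of `K`, fields `F_i`, `i < r`, in `K(A[p], μ_p)` of degree prime to `p` over `K` and the finite
sets `S_i` of the places of `F_i` above `S₀` such that for all `L / K` of degree prime to `p`, linearly
disjoint from `K(A[p], μ_p)`, the group `A(L)` is the union of at most `p ^ b` cosets of
`A(K) + p A(L)`, where `b` is the sum of the `ρ_i + ∑ (g_v - 1)`, `v ∈ S_i`, for all `ρ_i` such that
there are at most `p ^ ρ_i` classes of elements of `L F_i` with divisor divisible by `p` and with norm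
to `F_i` a `p`-th power. -/
theorem v9_uncond {p : ℕ} (hp : p.Prime) (A : Over (Spec (.of K))) [GrpObj A] [IsAbVar A] :
    ∃ (S₀ : Finset (HeightOneSpectrum (𝓞 K))) (r : ℕ)
      (F : ℕ → IntermediateField K (AlgebraicClosure K))
      (S : ∀ i, Finset (HeightOneSpectrum (𝓞 (F i)))),
      (∀ i, FiniteDimensional K (F i)) ∧ (∀ i v, v ∈ S i ↔ ∃ v₀ ∈ S₀, Divides (F i) v v₀) ∧
      (∀ i < r, (Module.finrank K (F i)).Coprime p ∧
        ∀ s, (∀ x : Pts A (AlgebraicClosure K), p • x = 0 → act A s x = x) →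
          (∀ z : AlgebraicClosure K, z ^ p = 1 → s z = z) → s ∈ (F i).fixingSubgroup) ∧
      ∀ (L : IntermediateField K (AlgebraicClosure K)) [FiniteDimensional K L],
        (Module.finrank K L).Coprime p →
        (∀ s, ∃ t ∈ L.fixingSubgroup, (∀ x : Pts A (AlgebraicClosure K), p • x = 0 →
          act A (t⁻¹ * s) x = x) ∧ ∀ z : AlgebraicClosure K, z ^ p = 1 → (t⁻¹ * s) z = z) →
        (∀ i < r, TransOn L (F i).fixingSubgroup) ∧
        ∀ ρ : ℕ → ℕ, (∀ i < r, PowClasses p (charClasses p L (F i) ∅ ∅) (p ^ ρ i)) →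
          MulCover A L p (p ^ (∑ i ∈ Finset.range r, (ρ i + excessOver L (F i) (S i)))) := by
  classical
  obtain ⟨S₀, r, N, ψ, F, h0, hr, h2, hF, hi⟩ := v9_exists hp A
  have hfin : ∀ i, {v : HeightOneSpectrum (𝓞 (F i)) | ∃ v₀ ∈ S₀, Divides (F i) v v₀}.Finite :=
    fun i => by
      have hFi := hF i
      exact v8x_finite (F i) S₀
  refine ⟨S₀, r, F, fun i => (hfin i).toFinset, hF, fun i v => (hfin i).mem_toFinset, fun i hir =>
    ⟨(hi i hir).1.cop, (hi i hir).2.1⟩, fun L _ hn hlin => ⟨fun i hir => ?_, fun ρ hρ => ?_⟩⟩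
  · obtain ⟨hf, -⟩ := hi i hir
    refine v9_transOn L (F i) hf.toCharFrame fun s => ?_
    obtain ⟨t, ht, h, hz⟩ := hlin s
    refine ⟨t, ht, fun x hx => ?_, hz⟩
    rw [h x (h2 _ x hx), sub_self]
    exact (N i).zero_mem
  · have hc : CharChain p L A (N r)
        (∑ i ∈ Finset.range r, (ρ i + excessOver L (F i) (hfin i).toFinset)) := by
      refine v9_charChain p L A r N ψ F (fun _ => ∅) (fun _ => ∅)
        (fun i => (hfin i).toFinset) ρ h0 hF (fun i hir => ?_) hρ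
      obtain ⟨hf, -, -, hE⟩ := hi i hir
      refine v9_layerAt hf.toCharFrame (h2 _) hlin ∅ ∅ _ (fun c hc => absurd hc (Set.notMem_empty c))
        (fun v hv => absurd hv (Set.notMem_empty v)) (fun v hv _ => hE v fun v₀ hv₀ hd => ?_)
      exact hv ((hfin i).mem_toFinset.2 ⟨v₀, hv₀, hd⟩)
    exact v9_bound hp L hn A p hp.ne_zero _ (N r) hr hc

end Pool.Agent.H.MP_ac3185_nt
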