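import Mathlib

/-! Homomorphisms to the `p`-th roots of unity: existence and number; orbits of length prime to `p`. -/

set_option autoImplicit false

namespace Pool.Agent.H.MP_ac3185_nt

/-- A group which acts on a finite set whose number of elements is prime to `p` has an orbit whose
length is prime to `p`. -/
theorem v9h_orbit {p : ℕ} {G Φ : Type*} [Group G] [MulAction G Φ] [Finite Φ]
    (h : ¬ p ∣ Nat.card Φ) : ∃ φ : Φ, ¬ p ∣ (MulAction.stabilizer G φ).index := by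
  classical
  by_contra hne
  have hne' : ∀ φ : Φ, p ∣ (MulAction.stabilizer G φ).index := fun φ => by
    by_contra h1
    exact hne ⟨φ, h1⟩
  have e := MulAction.selfEquivSigmaOrbitsQuotientStabilizer G Φ
  have hfq : Finite (MulAction.orbitRel.Quotient G Φ) := Quotient.finite _
  let _ := Fintype.ofFinite (MulAction.orbitRel.Quotient G Φ)
  have hfs : ∀ φ : Φ, Finite (G ⧸ MulAction.stabilizer G φ) := fun φ =>
    Finite.of_equiv _ (MulAction.orbitEquivQuotientStabilizer G φ)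
  have h1 : Nat.card Φ = ∑ ω : MulAction.orbitRel.Quotient G Φ,
      Nat.card (G ⧸ MulAction.stabilizer G ω.out) := by
    rw [Nat.card_congr e, Nat.card_sigma]
  rw [h1] at h
  exact h (Finset.dvd_sum fun ω _ => hne' _)

section hom

variable {X : Type*} [AddCommGroup X] {k : Type*} [Field k]

/-- The functions from `X` to the units of `k` which are homomorphisms from `N'` to the group of the
`p`-th roots of unity, trivial on `N`, and equal to `1` outside `N'`. -/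
def homP (p : ℕ) (N N' : AddSubgroup X) (k : Type*) [Field k] : Subgroup (X → kˣ) where
  carrier := {ψ | (∀ x ∈ N', ψ x ^ p = 1) ∧ (∀ x ∈ N', ∀ y ∈ N', ψ (x + y) = ψ x * ψ y) ∧
    (∀ x ∈ N, ψ x = 1) ∧ ∀ x ∉ N', ψ x = 1}
  one_mem' := ⟨fun x _ => one_pow p, fun x _ y _ => (mul_one _).symm, fun x _ => rfl, fun x _ => rfl⟩
  mul_mem' := by
    rintro a b ⟨a1, a2, a3, a4⟩ ⟨b1, b2, b3, b4⟩
    refine ⟨fun x hx => ?_, fun x hx y hy => ?_, fun x hx => ?_, fun x hx => ?_⟩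
    · show (a x * b x) ^ p = 1
      rw [mul_pow, a1 x hx, b1 x hx, mul_one]
    · show a (x + y) * b (x + y) = a x * b x * (a y * b y)
      rw [a2 x hx y hy, b2 x hx y hy]
      exact mul_mul_mul_comm _ _ _ _
    · show a x * b x = 1
      rw [a3 x hx, b3 x hx, mul_one]
    · show a x * b x = 1
      rw [a4 x hx, b4 x hx, mul_one]
  inv_mem' := by
    rintro a ⟨a1, a2, a3, a4⟩
    refine ⟨fun x hx => ?_, fun x hx y hy => ?_, fun x hx => ?_, fun x hx => ?_⟩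
    · show (a x)⁻¹ ^ p = 1
      rw [inv_pow, a1 x hx, inv_one]
    · show (a (x + y))⁻¹ = (a x)⁻¹ * (a y)⁻¹
      rw [a2 x hx y hy, mul_inv]
    · show (a x)⁻¹ = 1
      rw [a3 x hx, inv_one]
    · show (a x)⁻¹ = 1
      rw [a4 x hx, inv_one]

theorem mem_homP {p : ℕ} {N N' : AddSubgroup X} {ψ : X → kˣ} : ψ ∈ homP p N N' k ↔
    (∀ x ∈ N', ψ x ^ p = 1) ∧ (∀ x ∈ N', ∀ y ∈ N', ψ (x + y) = ψ x * ψ y) ∧
    (∀ x ∈ N, ψ x = 1) ∧ ∀ x ∉ N', ψ x = 1 := Iff.rfl

theorem homP_finite {p : ℕ} (hp : p.Prime) (N N' : AddSubgroup X) [Finite N'] :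
    Finite (homP p N N' k) := by
  have _ : NeZero p := ⟨hp.ne_zero⟩
  have h1 : Finite (N' → rootsOfUnity p k) := inferInstance
  let F : homP p N N' k → (N' → rootsOfUnity p k) := fun ψ x => ⟨ψ.1 x, by
    rw [mem_rootsOfUnity]
    exact ψ.2.1 x x.2⟩
  refine Finite.of_injective F ?_
  intro ψ φ h
  apply Subtype.ext
  funext x
  by_cases hx : x ∈ N'
  · exact congrArg Subtype.val (congrFun h ⟨x, hx⟩)
  · rw [ψ.2.2.2.2 x hx, φ.2.2.2.2 x hx]

theorem exists_hom_field {k : Type*} [Field k] {V : Type*} [AddCommGroup V] [Module k V]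
    (v₀ : V) (hv₀ : v₀ ≠ 0) : ∃ f : V →+ k, f v₀ ≠ 0 := by
  by_contra hcon
  push Not at hcon
  exact hv₀ ((Module.forall_dual_apply_eq_zero_iff k v₀).1 fun f => hcon f.toAddMonoidHom)

/-- Homomorphisms to the integers modulo `p` separate the elements of a group killed by `p`. -/
theorem exists_hom_zmod {p : ℕ} (hp : p.Prime) {V : Type*} [AddCommGroup V]
    (h : ∀ v : V, p • v = 0) (v₀ : V) (hv₀ : v₀ ≠ 0) : ∃ f : V →+ ZMod p, f v₀ ≠ 0 := by
  have _ : Fact p.Prime := ⟨hp⟩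
  let inst : Module (ZMod p) V := AddCommGroup.zmodModule h
  exact exists_hom_field (k := ZMod p) v₀ hv₀

/-- A nontrivial homomorphism. -/
theorem homP_exists {p : ℕ} (hp : p.Prime) {N N' : AddSubgroup X} (hkill : ∀ x ∈ N', p • x ∈ N)
    {x₀ : X} (hx₀ : x₀ ∈ N') (hx₀N : x₀ ∉ N) {ζ : k} (hζ : IsPrimitiveRoot ζ p) :
    ∃ ψ ∈ homP p N N' k, ψ x₀ ≠ 1 := by
  classical
  have _ : NeZero p := ⟨hp.ne_zero⟩
  have _ : Fact p.Prime := ⟨hp⟩
  obtain ⟨u, rfl⟩ : ∃ u : kˣ, (u : k) = ζ := ⟨(hζ.isUnit hp.ne_zero).unit, rfl⟩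
  have hu : IsPrimitiveRoot u p := (IsPrimitiveRoot.coe_units_iff).1 hζ
  let V := N' ⧸ N.addSubgroupOf N'
  let v₀ : V := QuotientAddGroup.mk ⟨x₀, hx₀⟩
  have hv₀ : v₀ ≠ 0 := by
    intro h
    have h1 := (QuotientAddGroup.eq_zero_iff _).1 h
    exact hx₀N h1
  obtain ⟨f, hf⟩ := exists_hom_zmod hp (V := V) (by
    intro v
    obtain ⟨x, rfl⟩ := QuotientAddGroup.mk_surjective v
    rw [← QuotientAddGroup.mk_nsmul]
    exact (QuotientAddGroup.eq_zero_iff _).2 (hkill x x.2)) v₀ hv₀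
  let χ : AddChar (ZMod p) kˣ := AddChar.zmodChar p hu.pow_eq_one
  let ψ : X → kˣ := fun x => if h : x ∈ N' then χ (f (QuotientAddGroup.mk ⟨x, h⟩ : V)) else 1
  have hψ : ∀ x (h : x ∈ N'), ψ x = χ (f (QuotientAddGroup.mk ⟨x, h⟩ : V)) := fun x h => dif_pos h
  refine ⟨ψ, ⟨fun x hx => ?_, fun x hx y hy => ?_, fun x hx => ?_, fun x hx => dif_neg hx⟩, ?_⟩
  · rw [hψ x hx, AddChar.zmodChar_apply, ← pow_mul, mul_comm, pow_mul, hu.pow_eq_one, one_pow]
  · rw [hψ x hx, hψ y hy, hψ (x + y) (N'.add_mem hx hy)]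
    have h1 : (QuotientAddGroup.mk ⟨x + y, N'.add_mem hx hy⟩ : V) =
        QuotientAddGroup.mk ⟨x, hx⟩ + QuotientAddGroup.mk ⟨y, hy⟩ := rfl
    rw [h1, map_add, AddChar.map_add_eq_mul]
  · by_cases h : x ∈ N'
    · rw [hψ x h]
      have h1 : (QuotientAddGroup.mk ⟨x, h⟩ : V) = 0 := (QuotientAddGroup.eq_zero_iff _).2 hx
      rw [h1, map_zero, AddChar.map_zero_eq_one]
    · exact dif_neg h
  · rw [hψ x₀ hx₀, AddChar.zmodChar_apply]
    refine hu.pow_ne_one_of_pos_of_lt ?_ (ZMod.val_lt _)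
    intro h
    exact hf ((ZMod.val_eq_zero _).1 h)

/-- The number of the nontrivial homomorphisms is prime to `p`. -/
theorem homP_card {p : ℕ} (hp : p.Prime) (N N' : AddSubgroup X) [Finite N']
    (h : ∃ ψ ∈ homP p N N' k, ψ ≠ 1) :
    ¬ p ∣ Nat.card {ψ : X → kˣ // ψ ∈ homP p N N' k ∧ ψ ≠ 1} := by
  classical
  have hfin := homP_finite (k := k) hp N N'
  have hpf : Fact p.Prime := ⟨hp⟩
  obtain ⟨ψ, hψ, hne⟩ := h
  have e1 : (⟨ψ, hψ⟩ : homP p N N' k) ^ p = 1 := by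
    apply Subtype.ext
    funext x
    show ψ x ^ p = 1
    by_cases hx : x ∈ N'
    · exact hψ.1 x hx
    · rw [hψ.2.2.2 x hx, one_pow]
  have e2 : (⟨ψ, hψ⟩ : homP p N N' k) ≠ 1 := fun h2 => hne (congrArg Subtype.val h2)
  have h1 : orderOf (⟨ψ, hψ⟩ : homP p N N' k) = p := orderOf_eq_prime e1 e2
  have h2 : p ∣ Nat.card (homP p N N' k) := by
    have h3 := orderOf_dvd_natCard (⟨ψ, hψ⟩ : homP p N N' k)
    rwa [h1] at h3
  let _ := Fintype.ofFinite (homP p N N' k)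
  have h3 : Nat.card {ψ : X → kˣ // ψ ∈ homP p N N' k ∧ ψ ≠ 1} + 1 =
      Nat.card (homP p N N' k) := by
    have e : {ψ : X → kˣ // ψ ∈ homP p N N' k ∧ ψ ≠ 1} ≃
        {ψ : homP p N N' k // ψ ≠ 1} :=
      { toFun := fun ψ => ⟨⟨ψ.1, ψ.2.1⟩, fun h => ψ.2.2 (congrArg Subtype.val h)⟩
        invFun := fun ψ => ⟨ψ.1.1, ψ.1.2, fun h => ψ.2 (Subtype.ext h)⟩
        left_inv := fun _ => rfl
        right_inv := fun _ => rfl }
    rw [Nat.card_congr e, Nat.card_eq_fintype_card, Nat.card_eq_fintype_card,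
      Fintype.card_subtype_compl, Fintype.card_subtype_eq]
    have h4 : 0 < Fintype.card (homP p N N' k) := Fintype.card_pos
    omega
  intro h4
  have h5 : p ∣ 1 := (Nat.dvd_add_right h4).1 (h3 ▸ h2)
  exact hp.one_lt.ne' (Nat.dvd_one.1 h5)

end hom

end Pool.Agent.H.MP_ac3185_nt
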