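import Pool.Agent.H.MP_ac3185_nt.V9.ValP
import Pool.Agent.H.MP_ac3185_nt.V8.Index

/-! The index of a subgroup which is detected by a character of order `p`. -/

set_option autoImplicit false

open NumberField IsDedekindDomain

namespace Pool.Agent.H.MP_ac3185_nt

universe u

variable {K : Type u} [Field K] [NumberField K]

/-- The index of `D` in `G`, for a function `c` on `G` with values in the elements of `LF` whose norm to
`F` is a `p`-th power, additive modulo `p`-th powers, such that `c(P)` is a `p`-th power only for `P` in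
`D`. -/
theorem v9_index {p : ℕ} (hp : p.Prime) (L F : IntermediateField K (AlgebraicClosure K))
    [FiniteDimensional K L] [FiniteDimensional K F] (hn : ¬ p ∣ Module.finrank K L)
    (hT : TransOn L F.fixingSubgroup)
    {X : Type*} [AddCommGroup X] (G D : AddSubgroup X) (S : Finset (HeightOneSpectrum (𝓞 F)))
    (Y : Set (L ⊔ F : IntermediateField K (AlgebraicClosure K))) (n : ℕ)
    (hY : PowClasses p Y n)
    (c : X → (L ⊔ F : IntermediateField K (AlgebraicClosure K)))
    (h0 : ∀ P, c P ≠ 0)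
    (h1 : ∀ P ∈ G, ∃ d ∈ F, normG L F.fixingSubgroup (c P : AlgebraicClosure K) = d ^ p)
    (h2 : ∀ P ∈ G, ∀ Q ∈ G, ∃ w : (L ⊔ F : IntermediateField K (AlgebraicClosure K)),
      w ≠ 0 ∧ c P * c Q = c (P + Q) * w ^ p)
    (h3 : ∀ P ∈ G, (∃ w, c P = w ^ p) → P ∈ D)
    (h4 : ∀ P ∈ G, (∀ v ∈ S, ∀ 𝔓, PrimeOver F 𝔓 v →
      DivAt p (L ⊔ F) 𝔓 (c P : AlgebraicClosure K)) → c P ∈ Y) :
    D.relIndex G ≠ 0 ∧ D.relIndex G ≤ n * p ^ excessOver L F S := by
  classical
  let D' : AddSubgroup G := D.addSubgroupOf G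
  obtain ⟨E, hE0, hE, hEm⟩ := v9_div_subgroup_bar hp L F hn hT (A := G) (fun P => c P)
    (fun P => h0 P) (fun P => h1 P P.2) (fun P Q => by
      obtain ⟨w, -, hw⟩ := h2 P P.2 Q Q.2
      exact ⟨w, hw⟩) S
  obtain ⟨T, hT', hTX⟩ := hY
  have hpick : ∀ P : E, ∃ t : T, ∃ u : (L ⊔ F : IntermediateField K (AlgebraicClosure K)),
      u ≠ 0 ∧ c ((P : G) : X) =
        (t : (L ⊔ F : IntermediateField K (AlgebraicClosure K))) * u ^ p := by
    intro P
    obtain ⟨t, ht, u, hu, hs⟩ := hTX _ (h4 ((P : G) : X) (P : G).2 ((hEm P).1 P.2))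
    exact ⟨⟨t, ht⟩, u, hu, hs⟩
  choose g u hu hg using hpick
  have hsep : ∀ x y : E, g x = g y → (x : G) - y ∈ D' := by
    intro x y hxy
    have e1 := hg x
    have e2 := hg y
    rw [← hxy] at e2
    set P := ((x : G) : X) with hP
    set Q := ((y : G) : X) with hQ
    have hPm := (x : G).2
    have hQm := (y : G).2
    have hPQm : P - Q ∈ G := sub_mem hPm hQm
    obtain ⟨w, hw0, e3⟩ := h2 (P - Q) hPQm Q hQm
    rw [sub_add_cancel] at e3
    have hcQ := h0 Q
    have ht : (g x : (L ⊔ F : IntermediateField K (AlgebraicClosure K))) ≠ 0 := by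
      intro h
      rw [h, zero_mul] at e2
      exact hcQ e2
    have e4 : ∃ z, c (P - Q) = z ^ p := by
      refine ⟨u x * w / u y, ?_⟩
      have hux := hu x
      have huy := hu y
      rw [div_pow, mul_pow, eq_div_iff (pow_ne_zero p huy)]
      refine mul_left_cancel₀ ht ?_
      calc (g x : (L ⊔ F : IntermediateField K (AlgebraicClosure K))) * (c (P - Q) * u y ^ p)
          = c (P - Q) * (g x * u y ^ p) := by ring
        _ = c (P - Q) * c Q := by rw [← e2]
        _ = c P * w ^ p := e3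
        _ = g x * u x ^ p * w ^ p := by rw [← e1]
        _ = g x * (u x ^ p * w ^ p) := by ring
    exact h3 (P - Q) hPQm e4
  obtain ⟨i1, i2⟩ := v2c_index D' E g hsep
  have hTc : Nat.card T ≤ n := by
    rw [Nat.card_eq_fintype_card, Fintype.card_coe]
    exact hT'
  have hmul : D'.relIndex E * E.index = (D' ⊓ E).index := by
    rw [← AddSubgroup.inf_relIndex_right, AddSubgroup.relIndex_mul_index inf_le_right]
  have hne : (D' ⊓ E).index ≠ 0 := by
    rw [← hmul]
    exact mul_ne_zero i1 hE0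
  have hdvd : D'.index ∣ (D' ⊓ E).index := AddSubgroup.index_dvd_of_le inf_le_left
  have hDi : D'.index = D.relIndex G := rfl
  rw [← hDi]
  refine ⟨fun h => hne (Nat.eq_zero_of_zero_dvd (h ▸ hdvd)), ?_⟩
  calc D'.index ≤ (D' ⊓ E).index := Nat.le_of_dvd (Nat.pos_of_ne_zero hne) hdvd
    _ = D'.relIndex E * E.index := hmul.symm
    _ ≤ n * p ^ excessOver L F S := Nat.mul_le_mul (i2.trans hTc) hE

end Pool.Agent.H.MP_ac3185_nt
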