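import Pool.Agent.H.MP_ac3185_nt.V9.HomP
import Pool.Agent.H.MP_ac3185_nt.V9.Char
import Pool.Agent.H.MP_ac3185_nt.V8.Layers

/-! The points of order `p` of an abelian variety: a composition series, with characters and the
fields of their stabilizers. -/

set_option autoImplicit false

open CategoryTheory AlgebraicGeometry NumberField IsDedekindDomain
open scoped MonObj

namespace Pool.Agent.H.MP_ac3185_nt

universe u

section field

variable {K : Type u} [Field K]

/-- The action on the units of the algebraic closure. -/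
noncomputable def uAct (s : AlgebraicClosure K ≃ₐ[K] AlgebraicClosure K)
    (z : (AlgebraicClosure K)ˣ) : (AlgebraicClosure K)ˣ :=
  Units.map ((s : AlgebraicClosure K →+* AlgebraicClosure K) : AlgebraicClosure K →*
    AlgebraicClosure K) z

theorem uAct_val (s : AlgebraicClosure K ≃ₐ[K] AlgebraicClosure K) (z : (AlgebraicClosure K)ˣ) :
    ((uAct s z : (AlgebraicClosure K)ˣ) : AlgebraicClosure K) = s z := rfl

theorem uAct_one (s : AlgebraicClosure K ≃ₐ[K] AlgebraicClosure K) : uAct s 1 = 1 :=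
  map_one _

theorem uAct_mul (s : AlgebraicClosure K ≃ₐ[K] AlgebraicClosure K)
    (z w : (AlgebraicClosure K)ˣ) : uAct s (z * w) = uAct s z * uAct s w :=
  map_mul _ z w

theorem uAct_pow (s : AlgebraicClosure K ≃ₐ[K] AlgebraicClosure K)
    (z : (AlgebraicClosure K)ˣ) (n : ℕ) : uAct s (z ^ n) = uAct s z ^ n :=
  map_pow _ z n

theorem uAct_inj (s : AlgebraicClosure K ≃ₐ[K] AlgebraicClosure K) {z : (AlgebraicClosure K)ˣ}
    (h : uAct s z = 1) : z = 1 := by
  apply Units.ext
  apply s.injective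
  have h1 := congrArg (fun w : (AlgebraicClosure K)ˣ => (w : AlgebraicClosure K)) h
  rw [Units.val_one, map_one]
  exact h1

/-- The Galois group acts on the nontrivial homomorphisms from `N' / N` to the `p`-th roots of unity. -/
@[reducible]
noncomputable def homAct (p : ℕ) (A : Over (Spec (.of K))) [GrpObj A] [IsAbVar A]
    {N N' : AddSubgroup (Pts A (AlgebraicClosure K))} (hN : ∀ s, ∀ x ∈ N, act A s x ∈ N)
    (hN' : ∀ s, ∀ x ∈ N', act A s x ∈ N') :
    MulAction (AlgebraicClosure K ≃ₐ[K] AlgebraicClosure K)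
      {ψ : Pts A (AlgebraicClosure K) → (AlgebraicClosure K)ˣ //
        ψ ∈ homP p N N' (AlgebraicClosure K) ∧ ψ ≠ 1} where
  smul s ψ := ⟨fun x => uAct s (ψ.1 (act A s⁻¹ x)), by
    have hinv : ∀ y : Pts A (AlgebraicClosure K), act A s (act A s⁻¹ y) = y := fun y => by
      rw [← v2s_act_mul, mul_inv_cancel, v2s_act_one]
    have hinv' : ∀ y : Pts A (AlgebraicClosure K), act A s⁻¹ (act A s y) = y := fun y => by
      rw [← v2s_act_mul, inv_mul_cancel, v2s_act_one]
    obtain ⟨h1, h2, h3, h4⟩ := mem_homP.1 ψ.2.1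
    refine ⟨⟨fun x hx => ?_, fun x hx y hy => ?_, fun x hx => ?_, fun x hx => ?_⟩, fun h => ?_⟩
    · show uAct s (ψ.1 (act A s⁻¹ x)) ^ p = 1
      rw [← uAct_pow, h1 _ (hN' s⁻¹ x hx), uAct_one]
    · show uAct s (ψ.1 (act A s⁻¹ (x + y))) =
        uAct s (ψ.1 (act A s⁻¹ x)) * uAct s (ψ.1 (act A s⁻¹ y))
      rw [v8_act_add, h2 _ (hN' s⁻¹ x hx) _ (hN' s⁻¹ y hy), uAct_mul]
    · show uAct s (ψ.1 (act A s⁻¹ x)) = 1
      rw [h3 _ (hN s⁻¹ x hx), uAct_one]
    · show uAct s (ψ.1 (act A s⁻¹ x)) = 1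
      rw [h4 _ (fun h5 => hx (by
        have h6 := hN' s _ h5
        rwa [hinv] at h6)), uAct_one]
    · apply ψ.2.2
      funext x
      have h5 : uAct s (ψ.1 (act A s⁻¹ (act A s x))) = 1 := congrFun h (act A s x)
      rw [hinv'] at h5
      exact uAct_inj s h5⟩
  one_smul ψ := by
    apply Subtype.ext
    funext x
    show uAct 1 (ψ.1 (act A 1⁻¹ x)) = ψ.1 x
    rw [inv_one, v2s_act_one]
    exact Units.ext rfl
  mul_smul s t ψ := by
    apply Subtype.ext
    funext x
    show uAct (s * t) (ψ.1 (act A (s * t)⁻¹ x)) = uAct s (uAct t (ψ.1 (act A t⁻¹ (act A s⁻¹ x))))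
    rw [mul_inv_rev, v2s_act_mul]
    exact Units.ext rfl

/-- An open subgroup of the Galois group is given by a finite extension. -/
theorem v9l_field [CharZero K] (U : Subgroup (AlgebraicClosure K ≃ₐ[K] AlgebraicClosure K))
    (E : IntermediateField K (AlgebraicClosure K)) [FiniteDimensional K E]
    (h : E.fixingSubgroup ≤ U) :
    ∃ F : IntermediateField K (AlgebraicClosure K), FiniteDimensional K F ∧
      F.fixingSubgroup = U := by
  have hgal : IsGalois K (AlgebraicClosure K) := inferInstance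
  have hopen : IsOpen (U : Set (AlgebraicClosure K ≃ₐ[K] AlgebraicClosure K)) :=
    Subgroup.isOpen_mono h (IntermediateField.fixingSubgroup_isOpen E)
  let C : ClosedSubgroup (AlgebraicClosure K ≃ₐ[K] AlgebraicClosure K) :=
    ⟨U, Subgroup.isClosed_of_isOpen _ hopen⟩
  have h2 : (IntermediateField.fixedField U).fixingSubgroup = U :=
    InfiniteGalois.fixingSubgroup_fixedField C
  have h3 : IntermediateField.fixedField U ≤ E := by
    rw [← InfiniteGalois.fixedField_fixingSubgroup E]
    exact IntermediateField.fixedField_antitone h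
  exact ⟨IntermediateField.fixedField U,
    FiniteDimensional.of_injective (IntermediateField.inclusion h3).toLinearMap
      (IntermediateField.inclusion_injective h3), h2⟩

/-- The `p`-th roots of unity lie in a finite extension. -/
theorem v9l_roots {p : ℕ} (hp : p ≠ 0) :
    ∃ E : IntermediateField K (AlgebraicClosure K), FiniteDimensional K E ∧
      ∀ z : AlgebraicClosure K, z ^ p = 1 → z ∈ E := by
  have hfin : {z : AlgebraicClosure K | z ^ p = 1}.Finite := by
    have h1 : (Polynomial.X ^ p - 1 : Polynomial (AlgebraicClosure K)) ≠ 0 :=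
      Polynomial.X_pow_sub_C_ne_zero (Nat.pos_of_ne_zero hp) 1
    refine (Polynomial.rootSet_finite (Polynomial.X ^ p - 1 : Polynomial (AlgebraicClosure K))
      (AlgebraicClosure K)).subset fun z hz => ?_
    rw [Polynomial.mem_rootSet]
    refine ⟨h1, ?_⟩
    have hz' : z ^ p = 1 := hz
    simp [hz']
  have _ := hfin.to_subtype
  refine ⟨IntermediateField.adjoin K {z : AlgebraicClosure K | z ^ p = 1},
    IntermediateField.finiteDimensional_adjoin fun z _ =>
      (Algebra.IsAlgebraic.isAlgebraic z).isIntegral,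
    fun z hz => IntermediateField.subset_adjoin K _ hz⟩

/-- `CharFrame p F N N' ψ`, where `N' / N` is a simple Galois module, `ψ` is not trivial, and `F` is the
field fixed by the stabilizer of `ψ`, of degree prime to `p` over `K`. -/
structure SimpleChar (p : ℕ) (F : IntermediateField K (AlgebraicClosure K))
    {A : Over (Spec (.of K))} [GrpObj A] [IsAbVar A]
    (N N' : AddSubgroup (Pts A (AlgebraicClosure K)))
    (ψ : Pts A (AlgebraicClosure K) → AlgebraicClosure K) : Prop extends CharFrame p F N N' ψ where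
  cop : (Module.finrank K F).Coprime p
  lt : N < N'
  ne : ∃ x ∈ N', ψ x ≠ 1
  simple : ∀ M : AddSubgroup (Pts A (AlgebraicClosure K)), N ≤ M → M ≤ N' →
    (∀ s, ∀ x ∈ M, act A s x ∈ M) → M = N ∨ M = N'
  stabF : ∀ s, (∀ x ∈ N', ψ (act A s x) = s (ψ x)) → s ∈ F.fixingSubgroup

end field

variable {K : Type u} [Field K] [NumberField K]

/-- The next layer above `N`. -/
theorem v9_next {p : ℕ} (hp : p.Prime) (A : Over (Spec (.of K))) [GrpObj A] [IsAbVar A]
    (N : AddSubgroup (Pts A (AlgebraicClosure K))) (hN : ∀ s, ∀ x ∈ N, act A s x ∈ N)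
    (h2 : ∀ x ∈ N, p • x = 0) (hne : ∃ x : Pts A (AlgebraicClosure K), p • x = 0 ∧ x ∉ N) :
    ∃ (N' : AddSubgroup (Pts A (AlgebraicClosure K)))
      (ψ : Pts A (AlgebraicClosure K) → AlgebraicClosure K)
      (F : IntermediateField K (AlgebraicClosure K)), (∀ x ∈ N', p • x = 0) ∧
      FiniteDimensional K F ∧ SimpleChar p F N N' ψ := by
  classical
  have hfin : {x : Pts A (AlgebraicClosure K) | p • x = 0}.Finite := gc_torsion A p hp.ne_zero
  have hfinM : ∀ M : AddSubgroup (Pts A (AlgebraicClosure K)), (∀ x ∈ M, p • x = 0) →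
      Finite M := fun M hM => (hfin.subset hM).to_subtype
  -- the group `A[p]`
  let A2 : AddSubgroup (Pts A (AlgebraicClosure K)) :=
    { carrier := {x | p • x = 0}
      zero_mem' := smul_zero p
      add_mem' := fun {x y} hx hy => by
        show p • (x + y) = 0
        rw [smul_add, hx, hy, add_zero]
      neg_mem' := fun {x} hx => by
        show p • (-x) = 0
        rw [smul_neg, hx, neg_zero] }
  have hA2 : ∀ s, ∀ x ∈ A2, act A s x ∈ A2 := by
    intro s x hx
    show p • galHom A s x = 0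
    have hx' : p • x = 0 := hx
    rw [← map_nsmul, hx', map_zero]
  -- a minimal stable subgroup above `N`
  let P : Set (AddSubgroup (Pts A (AlgebraicClosure K))) :=
    {M | N < M ∧ (∀ x ∈ M, p • x = 0) ∧ ∀ s, ∀ x ∈ M, act A s x ∈ M}
  have hP : P.Nonempty := by
    refine ⟨A2, ?_, fun x hx => hx, hA2⟩
    refine lt_of_le_of_ne (fun x hx => h2 x hx) ?_
    rintro rfl
    obtain ⟨x, hx, hx'⟩ := hne
    exact hx' hx
  obtain ⟨N', ⟨hlt, hN'2, hN's⟩, hmin⟩ :=
    (measure fun M : AddSubgroup (Pts A (AlgebraicClosure K)) => Nat.card M).wf.has_min P hP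
  have hN'f : Finite N' := hfinM N' hN'2
  have hmin' : ∀ M ∈ P, M ≤ N' → M = N' := by
    intro M hM hle
    refine AddSubgroup.eq_of_le_of_card_ge hle ?_
    exact not_lt.1 (hmin M hM)
  obtain ⟨x0, hx0, hx0N⟩ := SetLike.exists_of_lt hlt
  -- a character with an orbit of length prime to `p`
  have _ : NeZero (p : AlgebraicClosure K) := ⟨Nat.cast_ne_zero.2 hp.ne_zero⟩
  obtain ⟨ζ, hζ⟩ : ∃ ζ : AlgebraicClosure K, IsPrimitiveRoot ζ p := by
    have _ : NeZero p := ⟨hp.ne_zero⟩
    exact HasEnoughRootsOfUnity.exists_primitiveRoot (AlgebraicClosure K) p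
  obtain ⟨ψ0, hψ0, hψ0'⟩ := homP_exists hp (N := N) (N' := N')
    (fun x hx => by
      rw [hN'2 x hx]
      exact N.zero_mem) hx0 hx0N hζ
  let _ := homAct p A hN hN's
  have hfh := homP_finite (k := AlgebraicClosure K) hp N N'
  have hfinH : Finite {ψ : Pts A (AlgebraicClosure K) → (AlgebraicClosure K)ˣ //
      ψ ∈ homP p N N' (AlgebraicClosure K) ∧ ψ ≠ 1} := by
    refine Finite.of_injective (fun ψ => (⟨ψ.1, ψ.2.1⟩ : homP p N N' (AlgebraicClosure K))) ?_
    intro a b h
    have h' := congrArg (fun z : homP p N N' (AlgebraicClosure K) => z.1) h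
    exact Subtype.ext h'
  obtain ⟨⟨ψ, hψ, hψne⟩, hidx⟩ := v9h_orbit (p := p)
    (G := AlgebraicClosure K ≃ₐ[K] AlgebraicClosure K)
    (homP_card (k := AlgebraicClosure K) hp N N' ⟨ψ0, hψ0, fun h => hψ0' (congrFun h x0)⟩)
  obtain ⟨h1, h2', h3, h4⟩ := mem_homP.1 hψ
  -- the stabilizer
  let U := MulAction.stabilizer (AlgebraicClosure K ≃ₐ[K] AlgebraicClosure K)
    (⟨ψ, hψ, hψne⟩ : {ψ : Pts A (AlgebraicClosure K) → (AlgebraicClosure K)ˣ //
      ψ ∈ homP p N N' (AlgebraicClosure K) ∧ ψ ≠ 1})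
  have hU : ∀ s, s ∈ U ↔ ∀ x ∈ N', ((ψ (act A s x) : (AlgebraicClosure K)ˣ) : AlgebraicClosure K) =
      s (ψ x) := by
    intro s
    rw [MulAction.mem_stabilizer_iff]
    constructor
    · intro h x _
      have h5 : (fun x => uAct s (ψ (act A s⁻¹ x))) = ψ := congrArg Subtype.val h
      have h6 : uAct s (ψ (act A s⁻¹ (act A s x))) = ψ (act A s x) := congrFun h5 (act A s x)
      rw [← v2s_act_mul, inv_mul_cancel, v2s_act_one] at h6
      rw [← h6, uAct_val]
    · intro h
      apply Subtype.ext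
      funext x
      show uAct s (ψ (act A s⁻¹ x)) = ψ x
      by_cases hx : x ∈ N'
      · apply Units.ext
        rw [uAct_val, ← h _ (hN's s⁻¹ x hx), ← v2s_act_mul, mul_inv_cancel, v2s_act_one]
      · have hx' : act A s⁻¹ x ∉ N' := fun h5 => hx (by
          have h6 := hN's s _ h5
          rwa [← v2s_act_mul, mul_inv_cancel, v2s_act_one] at h6)
        rw [h4 x hx, h4 _ hx', uAct_one]
  obtain ⟨E1, hE1, hE1'⟩ := v8l_finite A (Set.toFinite (N' : Set (Pts A (AlgebraicClosure K))))
  obtain ⟨E2, hE2, hE2'⟩ := v9l_roots (K := K) hp.ne_zero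
  have hE : FiniteDimensional K (E1 ⊔ E2 : IntermediateField K (AlgebraicClosure K)) :=
    IntermediateField.finiteDimensional_sup E1 E2
  have hroot : ∀ x ∈ N', ((ψ x : (AlgebraicClosure K)ˣ) : AlgebraicClosure K) ^ p = 1 := by
    intro x hx
    rw [← Units.val_pow_eq_pow_val, h1 x hx, Units.val_one]
  obtain ⟨F, hF, hFU⟩ := v9l_field U (E1 ⊔ E2) (by
    intro s hs
    rw [IntermediateField.fixingSubgroup_sup] at hs
    rw [hU]
    intro x hx
    rw [hE1' s hs.1 x hx]
    exact ((IntermediateField.mem_fixingSubgroup_iff E2 s).1 hs.2 _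
      (hE2' _ (hroot x hx))).symm)
  have hFs : ∀ s, s ∈ F.fixingSubgroup ↔ ∀ x ∈ N',
      ((ψ (act A s x) : (AlgebraicClosure K)ˣ) : AlgebraicClosure K) = s (ψ x) := by
    intro s
    rw [hFU]
    exact hU s
  have hcop : (Module.finrank K F).Coprime p := by
    rw [← vn_index, hFU]
    exact ((Nat.Prime.coprime_iff_not_dvd hp).2 hidx).symm
  obtain ⟨y0, hy0, hy0ψ⟩ : ∃ y ∈ N', ψ y ≠ 1 := by
    by_contra hcon
    push Not at hcon
    apply hψne
    funext x
    by_cases hx : x ∈ N'
    · exact hcon x hx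
    · exact h4 x hx
  have hval : ∀ x, ((ψ x : (AlgebraicClosure K)ˣ) : AlgebraicClosure K) = 1 → ψ x = 1 :=
    fun x hx => Units.ext hx
  refine ⟨N', fun x => (ψ x : AlgebraicClosure K), F, hN'2, hF, ⟨⟨hN, hN's, hlt.le, hroot,
    fun x hx y hy => ?_, fun x hx => ?_, fun s hs x hx => (hFs s).1 hs x hx, ?_, ?_⟩, hcop, hlt,
    ⟨y0, hy0, fun h => hy0ψ (hval y0 h)⟩, ?_, fun s hs => (hFs s).2 hs⟩⟩
  · show ((ψ (x + y) : (AlgebraicClosure K)ˣ) : AlgebraicClosure K) = ψ x * ψ y
    rw [h2' x hx y hy, Units.val_mul]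
  · show ((ψ x : (AlgebraicClosure K)ˣ) : AlgebraicClosure K) = 1
    rw [h3 x hx, Units.val_one]
  · -- the intersection of the conjugates
    have hψ1 : ψ 0 = 1 := h3 0 N.zero_mem
    let M : AddSubgroup (Pts A (AlgebraicClosure K)) :=
      { carrier := {x | x ∈ N' ∧ ∀ g, ψ (act A g x) = 1}
        zero_mem' := ⟨N'.zero_mem, fun g => by rw [v2s_act_zero, hψ1]⟩
        add_mem' := fun {x y} hx hy => ⟨N'.add_mem hx.1 hy.1, fun g => by
          rw [v8_act_add, h2' _ (hN's g x hx.1) _ (hN's g y hy.1), hx.2 g, hy.2 g, mul_one]⟩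
        neg_mem' := fun {x} hx => ⟨N'.neg_mem hx.1, fun g => by
          have h5 := h2' _ (hN's g x hx.1) _ (hN's g (-x) (N'.neg_mem hx.1))
          rw [← v8_act_add, add_neg_cancel, v2s_act_zero, hψ1, hx.2 g, one_mul] at h5
          exact h5.symm⟩ }
    have hNM : N ≤ M := fun x hx => ⟨hlt.le hx, fun g => h3 _ (hN g x hx)⟩
    have hMN' : M ≤ N' := fun x hx => hx.1
    intro x hx hxH
    by_contra hxN
    have h5 : M ∈ P := by
      refine ⟨lt_of_le_of_ne hNM ?_, fun y hy => hN'2 y hy.1, fun s y hy => ⟨hN's s y hy.1,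
        fun g => ?_⟩⟩
      · intro h6
        apply hxN
        rw [h6]
        exact ⟨hx, fun g => hval _ (hxH g)⟩
      · rw [← v2s_act_mul]
        exact hy.2 (g * s)
    have h6 : M = N' := hmin' M h5 hMN'
    have h7 : y0 ∈ M := by
      rw [h6]
      exact hy0
    have h8 := h7.2 1
    rw [v2s_act_one] at h8
    exact hy0ψ h8
  · intro s hs hs'
    rw [hFs]
    intro x hx
    have h5 := h2' x hx _ (hlt.le (hs x hx))
    rw [add_sub_cancel, h3 _ (hs x hx), mul_one] at h5
    rw [h5]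
    exact (hs' _ (hroot x hx)).symm
  · intro M hNM hMN' hMs
    by_cases h : M = N
    · exact Or.inl h
    · exact Or.inr (hmin' M ⟨lt_of_le_of_ne hNM (Ne.symm h), fun x hx => hN'2 x (hMN' hx), hMs⟩
        hMN')

/-- A composition series of the group of the points killed by `p`, with its data. -/
theorem v9_layers {p : ℕ} (hp : p.Prime) (A : Over (Spec (.of K))) [GrpObj A] [IsAbVar A] :
    ∃ (r : ℕ) (N : ℕ → AddSubgroup (Pts A (AlgebraicClosure K)))
      (ψ : ℕ → Pts A (AlgebraicClosure K) → AlgebraicClosure K)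
      (F : ℕ → IntermediateField K (AlgebraicClosure K)), N 0 = ⊥ ∧
      (∀ x, x ∈ N r ↔ p • x = 0) ∧ (∀ i, ∀ x ∈ N i, p • x = 0) ∧
      (∀ i, FiniteDimensional K (F i)) ∧
      ∀ i < r, SimpleChar p (F i) (N i) (N (i + 1)) (ψ i) := by
  classical
  have hfin : {x : Pts A (AlgebraicClosure K) | p • x = 0}.Finite := gc_torsion A p hp.ne_zero
  -- by induction on the number of the missing points
  have key : ∀ (n : ℕ) (M : AddSubgroup (Pts A (AlgebraicClosure K))),
      (∀ s, ∀ x ∈ M, act A s x ∈ M) → (∀ x ∈ M, p • x = 0) →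
      {x : Pts A (AlgebraicClosure K) | p • x = 0 ∧ x ∉ M}.ncard = n →
      ∃ (r : ℕ) (N : ℕ → AddSubgroup (Pts A (AlgebraicClosure K)))
        (ψ : ℕ → Pts A (AlgebraicClosure K) → AlgebraicClosure K)
        (F : ℕ → IntermediateField K (AlgebraicClosure K)), N 0 = M ∧
        (∀ x, x ∈ N r ↔ p • x = 0) ∧ (∀ i, ∀ x ∈ N i, p • x = 0) ∧
        (∀ i, FiniteDimensional K (F i)) ∧
        ∀ i < r, SimpleChar p (F i) (N i) (N (i + 1)) (ψ i) := by
    intro n
    induction n using Nat.strong_induction_on with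
    | _ n ih =>
      intro M hM hM2 hn
      by_cases hne : ∃ x : Pts A (AlgebraicClosure K), p • x = 0 ∧ x ∉ M
      · obtain ⟨N', ψ, F, hN'2, hF, hfr⟩ := v9_next hp A M hM hM2 hne
        have hlt := hfr.lt
        have hlt' : {x : Pts A (AlgebraicClosure K) | p • x = 0 ∧ x ∉ N'}.ncard < n := by
          rw [← hn]
          refine Set.ncard_lt_ncard ⟨fun x hx => ⟨hx.1, fun h => hx.2 (hlt.le h)⟩, ?_⟩
            (hfin.subset fun x hx => hx.1)
          intro h
          obtain ⟨x, hx, hx'⟩ := SetLike.exists_of_lt hlt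
          exact (h ⟨hN'2 x hx, hx'⟩).2 hx
        obtain ⟨r, N1, ψ1, F1, h0, hr, h12, h1F, hi⟩ := ih _ hlt' N' hfr.stabN' hN'2 rfl
        refine ⟨r + 1, fun i => Nat.casesOn i M N1, fun i => Nat.casesOn i ψ ψ1,
          fun i => Nat.casesOn i F F1, rfl, hr, ?_, ?_, ?_⟩
        · intro i
          cases i with
          | zero => exact hM2
          | succ i => exact h12 i
        · intro i
          cases i with
          | zero => exact hF
          | succ i => exact h1F i
        · intro i hir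
          cases i with
          | zero =>
            show SimpleChar p F M (N1 0) ψ
            rw [h0]
            exact hfr
          | succ i => exact hi i (by omega)
      · refine ⟨0, fun _ => M, fun _ _ => 1, fun _ => ⊥, rfl, fun x => ⟨hM2 x, fun hx => ?_⟩,
          fun _ => hM2, fun _ => inferInstance, fun i hi => absurd hi (Nat.not_lt_zero i)⟩
        by_contra h
        exact hne ⟨x, hx, h⟩
  exact key _ ⊥ (fun s x hx => by
    rw [AddSubgroup.mem_bot] at hx ⊢
    rw [hx, v2s_act_zero]) (fun x hx => by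
    rw [AddSubgroup.mem_bot] at hx
    rw [hx, smul_zero]) rfl

end Pool.Agent.H.MP_ac3185_nt
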