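import Mathlib

/-! A character of an elementary abelian `p`-group whose stabilizer has index prime to `p`. -/

set_option autoImplicit false

namespace Pool.Agent.H.MP_ac3185_nt

/-- A group which acts on a finite set whose number of elements is not divisible by `p` has an orbit
whose length is not divisible by `p`. -/
theorem v9_orbit {G Φ : Type*} [Group G] [MulAction G Φ] [Finite Φ] (p : ℕ)
    (h : ¬ p ∣ Nat.card Φ) : ∃ φ : Φ, ¬ p ∣ (MulAction.stabilizer G φ).index := by
  classical
  by_contra hne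
  push Not at hne
  have e := MulAction.selfEquivSigmaOrbitsQuotientStabilizer G Φ
  have hfq : Finite (MulAction.orbitRel.Quotient G Φ) := Quotient.finite _
  let _ := Fintype.ofFinite (MulAction.orbitRel.Quotient G Φ)
  have hfs : ∀ φ : Φ, Finite (G ⧸ MulAction.stabilizer G φ) := fun φ =>
    Finite.of_equiv _ (MulAction.orbitEquivQuotientStabilizer G φ)
  have h1 : Nat.card Φ = ∑ ω : MulAction.orbitRel.Quotient G Φ,
      Nat.card (G ⧸ MulAction.stabilizer G ω.out) := by
    rw [Nat.card_congr e, Nat.card_sigma]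
  rw [h1] at h
  exact h (Finset.dvd_sum fun ω _ => hne _)

theorem v9_functional {V : Type*} [AddCommGroup V] (p : ℕ) [hfp : Fact p.Prime]
    [Module (ZMod p) V] {x₀ : V} (hx₀ : x₀ ≠ 0) : ∃ ψ : V →+ ZMod p, ψ x₀ ≠ 0 := by
  by_contra hcon
  push Not at hcon
  apply hx₀
  rw [← Module.forall_dual_apply_eq_zero_iff (ZMod p) x₀]
  intro f
  exact hcon (LinearMap.toAddMonoidHom f)

section stab

variable {V : Type*} [AddCommGroup V] {C : Type*} [CommGroup C]

/-- A nonzero finite group killed by `p` has a nontrivial homomorphism to a group of order `p`. -/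
theorem v9_hom_ne (p : ℕ) (hp : p.Prime) (hpV : ∀ x : V, p • x = 0) {x₀ : V} (hx₀ : x₀ ≠ 0)
    (hC : Nat.card C = p) : ∃ ψ : V →+ Additive C, ψ x₀ ≠ 0 := by
  have hfp : Fact p.Prime := ⟨hp⟩
  let _ : Module (ZMod p) V := AddCommGroup.zmodModule hpV
  obtain ⟨f, hf⟩ := v9_functional p hx₀
  have hcyc : IsCyclic C := isCyclic_of_prime_card hC
  have hcyc' : IsAddCyclic (Additive C) := isAddCyclic_additive_iff.2 hcyc
  have hCa : Nat.card (Additive C) = p := hC
  obtain ⟨e⟩ : Nonempty (ZMod p ≃+ Additive C) := by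
    have e0 := zmodAddCyclicAddEquiv hcyc'
    rw [hCa] at e0
    exact ⟨e0⟩
  refine ⟨e.toAddMonoidHom.comp f, fun h => hf ?_⟩
  exact (map_eq_zero_iff e e.injective).1 h

variable {G : Type*} [Group G] [DistribMulAction G V] [MulDistribMulAction G C]

/-- The conjugate `s ψ(s⁻¹ x)` of `ψ`. -/
def conjHom (s : G) (ψ : V →+ Additive C) : V →+ Additive C where
  toFun x := Additive.ofMul (s • (ψ (s⁻¹ • x)).toMul)
  map_zero' := by
    rw [smul_zero, map_zero, toMul_zero, smul_one, ofMul_one]
  map_add' x y := by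
    rw [smul_add, map_add, toMul_add, smul_mul', ofMul_mul]

theorem conjHom_apply (s : G) (ψ : V →+ Additive C) (x : V) :
    conjHom s ψ x = Additive.ofMul (s • (ψ (s⁻¹ • x)).toMul) := rfl

/-- The characters different from `1`. -/
def CharNe (V : Type*) [AddCommGroup V] (C : Type*) [CommGroup C] : Type _ :=
  {ψ : V →+ Additive C // ψ ≠ 0}

instance : MulAction G (CharNe V C) where
  smul s ψ := ⟨conjHom s ψ.1, by
    intro h
    apply ψ.2
    ext x
    have h1 := DFunLike.congr_fun h (s • x)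
    rw [conjHom_apply, inv_smul_smul] at h1
    have h2 : s • (ψ.1 x).toMul = 1 := h1
    have h3 : (ψ.1 x).toMul = 1 := by
      rw [← smul_one s] at h2
      exact smul_left_cancel s h2
    exact h3⟩
  one_smul ψ := by
    apply Subtype.ext
    ext x
    show (conjHom (1 : G) ψ.1) x = ψ.1 x
    rw [conjHom_apply, inv_one, one_smul, one_smul, ofMul_toMul]
  mul_smul s t ψ := by
    apply Subtype.ext
    ext x
    show conjHom (s * t) ψ.1 x = conjHom s (conjHom t ψ.1) x
    rw [conjHom_apply, conjHom_apply, conjHom_apply, toMul_ofMul, mul_smul, mul_inv_rev, mul_smul]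

theorem charNe_smul (s : G) (ψ : CharNe V C) : (s • ψ).1 = conjHom s ψ.1 := rfl

/-- Some character `ψ ≠ 1` has a stabilizer of index prime to `p`. -/
theorem v9_pstab [Finite V] (p : ℕ) (hp : p.Prime) (hpV : ∀ x : V, p • x = 0)
    (hV : ∃ x : V, x ≠ 0) (hC : Nat.card C = p) :
    ∃ ψ : V →+ Additive C, (∃ x, ψ x ≠ 0) ∧ ∃ H : Subgroup G,
      (∀ s, s ∈ H ↔ ∀ x, ψ (s • x) = Additive.ofMul (s • (ψ x).toMul)) ∧ H.index.Coprime p := by
  classical
  have hfp : Fact p.Prime := ⟨hp⟩
  obtain ⟨x₀, hx₀⟩ := hV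
  have hfC : Finite C := Nat.finite_of_card_ne_zero (by rw [hC]; exact hp.ne_zero)
  have hfCa : Finite (Additive C) := hfC
  have hfh : Finite (V →+ Additive C) := DFunLike.finite _
  obtain ⟨ψ₀, hψ₀⟩ := v9_hom_ne (C := C) p hp hpV hx₀ hC
  have hfΦ : Finite (CharNe V C) := Subtype.finite
  -- the number of characters is divisible by `p`
  have hkill : ∀ ψ : V →+ Additive C, p • ψ = 0 := by
    intro ψ
    ext x
    show p • ψ x = 0
    rw [← map_nsmul, hpV, map_zero]
  have hdvd : p ∣ Nat.card (V →+ Additive C) := by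
    have h1 : addOrderOf ψ₀ = p :=
      addOrderOf_eq_prime (hkill ψ₀) (fun h => hψ₀ (by rw [h]; rfl))
    rw [← h1]
    exact addOrderOf_dvd_natCard ψ₀
  have hcard : Nat.card (CharNe V C) + 1 = Nat.card (V →+ Additive C) := by
    let _ := Fintype.ofFinite (V →+ Additive C)
    have h1 : Nat.card (CharNe V C) = (Finset.univ.filter fun ψ : V →+ Additive C => ψ ≠ 0).card := by
      show Nat.card {ψ : V →+ Additive C // ψ ≠ 0} = _
      rw [Nat.card_eq_fintype_card, Fintype.card_subtype]
    have h2 : (Finset.univ.filter fun ψ : V →+ Additive C => ψ ≠ 0) = Finset.univ.erase 0 := by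
      ext ψ
      simp
    rw [h1, h2, Finset.card_erase_add_one (Finset.mem_univ _), Finset.card_univ,
      Nat.card_eq_fintype_card]
  have hndvd : ¬ p ∣ Nat.card (CharNe V C) := by
    intro h1
    rw [← hcard] at hdvd
    have h2 := (Nat.dvd_add_right h1).1 hdvd
    exact hp.one_lt.ne' (Nat.dvd_one.1 h2)
  obtain ⟨ψ, hψ⟩ := v9_orbit (G := G) p hndvd
  refine ⟨ψ.1, ?_, MulAction.stabilizer G ψ, fun s => ?_, ?_⟩
  · by_contra hcon
    push Not at hcon
    exact ψ.2 (DFunLike.ext _ _ hcon)
  · rw [MulAction.mem_stabilizer_iff]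
    constructor
    · intro h x
      have h1 := congrArg (fun φ : CharNe V C => φ.1 (s • x)) h
      rw [← h1]
      show conjHom s ψ.1 (s • x) = _
      rw [conjHom_apply, inv_smul_smul]
    · intro h
      apply Subtype.ext
      ext x
      show conjHom s ψ.1 x = ψ.1 x
      rw [conjHom_apply]
      have h1 := h (s⁻¹ • x)
      rw [smul_inv_smul] at h1
      exact h1.symm
  · exact ((Nat.Prime.coprime_iff_not_dvd hp).2 hψ).symm

end stab

end Pool.Agent.H.MP_ac3185_nt
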