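import Pool.Agent.H.MP_ac3185_nt.V9.PStab
import Pool.Agent.H.MP_ac3185_nt.V8.Defs
import Pool.Agent.H.MP_ac3185_nt.V2.Par

/-! A character of `N' / N` whose stabilizer in the Galois group has index prime to `p`. -/

set_option autoImplicit false

open CategoryTheory AlgebraicGeometry NumberField IsDedekindDomain
open scoped MonObj

namespace Pool.Agent.H.MP_ac3185_nt

universe u

variable {K : Type u} [Field K]

/-- The action of an automorphism on the stable subgroup `N'`. -/
noncomputable def psiRes (A : Over (Spec (.of K))) [GrpObj A] [IsAbVar A]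
    {N' : AddSubgroup (Pts A (AlgebraicClosure K))} (hN' : ∀ s, ∀ x ∈ N', act A s x ∈ N')
    (s : AlgebraicClosure K ≃ₐ[K] AlgebraicClosure K) : N' →+ N' :=
  ((galHom A s).comp N'.subtype).codRestrict N' fun x => hN' s x x.2

theorem psiRes_coe (A : Over (Spec (.of K))) [GrpObj A] [IsAbVar A]
    {N' : AddSubgroup (Pts A (AlgebraicClosure K))} (hN' : ∀ s, ∀ x ∈ N', act A s x ∈ N')
    (s : AlgebraicClosure K ≃ₐ[K] AlgebraicClosure K) (x : N') :
    ((psiRes A hN' s x : N') : Pts A (AlgebraicClosure K)) = act A s x := rfl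

/-- The action of the Galois group on `N' / N`. -/
@[reducible]
noncomputable def psiAct (A : Over (Spec (.of K))) [GrpObj A] [IsAbVar A]
    {N N' : AddSubgroup (Pts A (AlgebraicClosure K))} (hN : ∀ s, ∀ x ∈ N, act A s x ∈ N)
    (hN' : ∀ s, ∀ x ∈ N', act A s x ∈ N') :
    DistribMulAction (AlgebraicClosure K ≃ₐ[K] AlgebraicClosure K)
      (N' ⧸ N.addSubgroupOf N') where
  smul s q := QuotientAddGroup.map (N.addSubgroupOf N') (N.addSubgroupOf N') (psiRes A hN' s)
    (fun x hx => by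
      rw [AddSubgroup.mem_comap, AddSubgroup.mem_addSubgroupOf, psiRes_coe]
      exact hN s _ (AddSubgroup.mem_addSubgroupOf.1 hx)) q
  one_smul q := by
    induction q using QuotientAddGroup.induction_on with
    | H x =>
      refine congrArg (QuotientAddGroup.mk (s := N.addSubgroupOf N')) (Subtype.ext ?_)
      rw [psiRes_coe, v2s_act_one]
  mul_smul s t q := by
    induction q using QuotientAddGroup.induction_on with
    | H x =>
      refine congrArg (QuotientAddGroup.mk (s := N.addSubgroupOf N')) (Subtype.ext ?_)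
      rw [psiRes_coe, psiRes_coe, psiRes_coe, v2s_act_mul]
  smul_zero s := map_zero _
  smul_add s x y := map_add _ x y

/-- The action of the Galois group on the `p`-th roots of unity. -/
@[reducible]
noncomputable def psiRoot (K : Type u) [Field K] (p : ℕ) :
    MulDistribMulAction (AlgebraicClosure K ≃ₐ[K] AlgebraicClosure K)
      (rootsOfUnity p (AlgebraicClosure K)) where
  smul s z := ⟨Units.map ((s : AlgebraicClosure K →ₐ[K] AlgebraicClosure K) :
      AlgebraicClosure K →* AlgebraicClosure K) z.1, by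
    have h := z.2
    rw [mem_rootsOfUnity] at h ⊢
    rw [← map_pow, h, map_one]⟩
  one_smul z := by
    apply Subtype.ext
    apply Units.ext
    rfl
  mul_smul s t z := by
    apply Subtype.ext
    apply Units.ext
    rfl
  smul_one s := by
    apply Subtype.ext
    exact map_one _
  smul_mul s x y := by
    apply Subtype.ext
    exact map_mul _ _ _

theorem v9_psi [CharZero K] (A : Over (Spec (.of K))) [GrpObj A] [IsAbVar A] (p : ℕ)
    (hp : p.Prime) (N N' : AddSubgroup (Pts A (AlgebraicClosure K)))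
    (hN : ∀ s, ∀ x ∈ N, act A s x ∈ N) (hN' : ∀ s, ∀ x ∈ N', act A s x ∈ N') (hle : N ≤ N')
    (hne : ∃ x ∈ N', x ∉ N) (hfin : Finite N') (hpN : ∀ x ∈ N', p • x ∈ N) :
    ∃ ψ : Pts A (AlgebraicClosure K) → AlgebraicClosure K, (∀ x ∈ N', ψ x ^ p = 1) ∧
      (∀ x ∈ N', ∀ y ∈ N', ψ (x + y) = ψ x * ψ y) ∧ (∀ x ∈ N, ψ x = 1) ∧
      (∃ x ∈ N', ψ x ≠ 1) ∧
      ∃ H : Subgroup (AlgebraicClosure K ≃ₐ[K] AlgebraicClosure K),
        (∀ s, s ∈ H ↔ ∀ x ∈ N', ψ (act A s x) = s (ψ x)) ∧ H.index.Coprime p := by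
  classical
  let _ := psiAct A hN hN'
  let _ := psiRoot K p
  have hnz : NeZero p := ⟨hp.ne_zero⟩
  have hnz' : NeZero (p : AlgebraicClosure K) := ⟨by exact_mod_cast hp.ne_zero⟩
  have hcard : Nat.card (rootsOfUnity p (AlgebraicClosure K)) = p :=
    HasEnoughRootsOfUnity.natCard_rootsOfUnity (AlgebraicClosure K) p
  have hfq : Finite (N' ⧸ N.addSubgroupOf N') := Quotient.finite _
  have hpV : ∀ q : N' ⧸ N.addSubgroupOf N', p • q = 0 := by
    intro q
    induction q using QuotientAddGroup.induction_on with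
    | H x =>
      have h1 : p • (x : N' ⧸ N.addSubgroupOf N') =
          ((p • x : N') : N' ⧸ N.addSubgroupOf N') := rfl
      rw [h1, QuotientAddGroup.eq_zero_iff, AddSubgroup.mem_addSubgroupOf]
      exact hpN x x.2
  have hV : ∃ q : N' ⧸ N.addSubgroupOf N', q ≠ 0 := by
    obtain ⟨x, hx, hxN⟩ := hne
    refine ⟨((⟨x, hx⟩ : N') : N' ⧸ N.addSubgroupOf N'), fun h => hxN ?_⟩
    rw [QuotientAddGroup.eq_zero_iff, AddSubgroup.mem_addSubgroupOf] at h
    exact h
  obtain ⟨φ, ⟨q₀, hq₀⟩, H, hH, hHi⟩ := v9_pstab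
    (G := AlgebraicClosure K ≃ₐ[K] AlgebraicClosure K) p hp hpV hV hcard
  let ψ : Pts A (AlgebraicClosure K) → AlgebraicClosure K := fun x =>
    if hx : x ∈ N' then
      (((φ ((⟨x, hx⟩ : N') : N' ⧸ N.addSubgroupOf N')).toMul :
        rootsOfUnity p (AlgebraicClosure K)) : (AlgebraicClosure K)ˣ)
    else 1
  have hψ : ∀ x (hx : x ∈ N'), ψ x =
      (((φ ((⟨x, hx⟩ : N') : N' ⧸ N.addSubgroupOf N')).toMul :
        rootsOfUnity p (AlgebraicClosure K)) : (AlgebraicClosure K)ˣ) := fun x hx => dif_pos hx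
  have hinj : ∀ a b : rootsOfUnity p (AlgebraicClosure K),
      ((a : (AlgebraicClosure K)ˣ) : AlgebraicClosure K) =
        ((b : (AlgebraicClosure K)ˣ) : AlgebraicClosure K) → a = b := fun a b h =>
    Subtype.ext (Units.ext h)
  refine ⟨ψ, ?_, ?_, ?_, ?_, H, fun s => ?_, hHi⟩
  · intro x hx
    rw [hψ x hx]
    have h1 := ((φ ((⟨x, hx⟩ : N') : N' ⧸ N.addSubgroupOf N')).toMul :
      rootsOfUnity p (AlgebraicClosure K)).2
    rw [mem_rootsOfUnity] at h1
    have h2 := congrArg Units.val h1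
    rwa [Units.val_pow_eq_pow_val, Units.val_one] at h2
  · intro x hx y hy
    rw [hψ x hx, hψ y hy, hψ _ (N'.add_mem hx hy)]
    have h1 : (((⟨x + y, N'.add_mem hx hy⟩ : N')) : N' ⧸ N.addSubgroupOf N') =
        ((⟨x, hx⟩ : N') : N' ⧸ N.addSubgroupOf N') +
          ((⟨y, hy⟩ : N') : N' ⧸ N.addSubgroupOf N') := rfl
    rw [h1, map_add, toMul_add]
    rfl
  · intro x hx
    rw [hψ x (hle hx)]
    have h1 : ((⟨x, hle hx⟩ : N') : N' ⧸ N.addSubgroupOf N') = 0 := by
      rw [QuotientAddGroup.eq_zero_iff, AddSubgroup.mem_addSubgroupOf]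
      exact hx
    rw [h1, map_zero, toMul_zero]
    rfl
  · induction q₀ using QuotientAddGroup.induction_on with
    | H x =>
      refine ⟨x, x.2, fun h => hq₀ ?_⟩
      rw [hψ x x.2] at h
      have h1 : (φ ((x : N') : N' ⧸ N.addSubgroupOf N')).toMul = 1 := hinj _ _ h
      exact h1
  · rw [hH]
    constructor
    · intro h x hx
      rw [hψ x hx, hψ _ (hN' s x hx)]
      have h1 := h ((⟨x, hx⟩ : N') : N' ⧸ N.addSubgroupOf N')
      have h2 : (s • ((⟨x, hx⟩ : N') : N' ⧸ N.addSubgroupOf N')) =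
          ((⟨act A s x, hN' s x hx⟩ : N') : N' ⧸ N.addSubgroupOf N') := rfl
      rw [h2] at h1
      rw [h1]
      rfl
    · intro h q
      induction q using QuotientAddGroup.induction_on with
      | H x =>
        have h1 := h x x.2
        rw [hψ x x.2, hψ _ (hN' s x x.2)] at h1
        have h2 : (s • ((x : N') : N' ⧸ N.addSubgroupOf N')) =
            ((⟨act A s x, hN' s x x.2⟩ : N') : N' ⧸ N.addSubgroupOf N') := rfl
        rw [h2]
        exact hinj _ _ h1

end Pool.Agent.H.MP_ac3185_nt
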