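import Pool.Agent.H.MP_ac3185_nt.V9.ChainP
import Pool.Agent.H.MP_ac3185_nt.V.DivPJ
import Pool.Agent.H.MP_ac3185_nt.W.DivPts

/-! The conclusions on the rank, for a prime number `p`. -/

set_option autoImplicit false

open CategoryTheory AlgebraicGeometry NumberField IsDedekindDomain
open scoped MonObj

namespace Pool.Agent.H.MP_ac3185_nt

universe u

section group

/-- `N + p ^ k M`. -/
def v9Pow (p : ℕ) {M : Type*} [AddCommGroup M] (N : AddSubgroup M) (k : ℕ) : AddSubgroup M :=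
  N ⊔ (nsmulAddMonoidHom (p ^ k) : M →+ M).range

theorem mem_v9Pow (p : ℕ) {M : Type*} [AddCommGroup M] (N : AddSubgroup M) (k : ℕ) (x : M) :
    x ∈ v9Pow p N k ↔ ∃ y ∈ N, ∃ z, x = y + (p ^ k : ℕ) • z := by
  unfold v9Pow
  rw [AddSubgroup.mem_sup]
  constructor
  · rintro ⟨y, hy, _, ⟨z, rfl⟩, rfl⟩
    exact ⟨y, hy, z, rfl⟩
  · rintro ⟨y, hy, z, rfl⟩
    exact ⟨y, hy, _, ⟨z, rfl⟩, rfl⟩

theorem v9Pow_succ_le (p : ℕ) {M : Type*} [AddCommGroup M] (N : AddSubgroup M) (k : ℕ) :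
    v9Pow p N (k + 1) ≤ v9Pow p N k := by
  intro x hx
  obtain ⟨y, hy, z, rfl⟩ := (mem_v9Pow p N (k + 1) x).1 hx
  exact (mem_v9Pow p N k _).2 ⟨y, hy, p • z, by rw [pow_succ, mul_smul]⟩

theorem v9Pow_anti (p : ℕ) {M : Type*} [AddCommGroup M] (N : AddSubgroup M) (k t : ℕ) :
    v9Pow p N (k + t) ≤ v9Pow p N k := by
  induction t with
  | zero => exact le_refl _
  | succ t ih => exact (v9Pow_succ_le p N (k + t)).trans ih

theorem v9Pow_ne_zero (p : ℕ) {M : Type*} [AddCommGroup M] (N : AddSubgroup M) {m : ℕ}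
    (h0 : (v9Pow p N m).index ≠ 0) {k : ℕ} (hk : k ≤ m) : (v9Pow p N k).index ≠ 0 := by
  intro h1
  obtain ⟨t, rfl⟩ := Nat.exists_eq_add_of_le hk
  have h2 := AddSubgroup.index_dvd_of_le (v9Pow_anti p N k t)
  rw [h1] at h2
  exact h0 (Nat.eq_zero_of_zero_dvd h2)

/-- The index of `N + p ^ (k + 1) M` in `N + p ^ k M` is `1` or at least `p`. -/
theorem v9Pow_relIndex {p : ℕ} (hp : p.Prime) {M : Type*} [AddCommGroup M] (N : AddSubgroup M)
    (k : ℕ) (h0 : (v9Pow p N (k + 1)).relIndex (v9Pow p N k) ≠ 0)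
    (h1 : (v9Pow p N (k + 1)).relIndex (v9Pow p N k) ≠ 1) :
    p ≤ (v9Pow p N (k + 1)).relIndex (v9Pow p N k) := by
  classical
  let D : AddSubgroup (v9Pow p N k) := (v9Pow p N (k + 1)).addSubgroupOf (v9Pow p N k)
  have hD : D.index = (v9Pow p N (k + 1)).relIndex (v9Pow p N k) := rfl
  rw [← hD] at h0 h1 ⊢
  have hfin : Finite (v9Pow p N k ⧸ D) := (Nat.card_ne_zero.1 h0).2
  -- the quotient is killed by `p`
  have hkill : ∀ q : v9Pow p N k ⧸ D, p • q = 0 := by
    intro q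
    obtain ⟨x, rfl⟩ := QuotientAddGroup.mk_surjective q
    rw [← QuotientAddGroup.mk_nsmul, QuotientAddGroup.eq_zero_iff]
    obtain ⟨y, hy, z, hz⟩ := (mem_v9Pow p N k x.1).1 x.2
    show ((p • x : v9Pow p N k) : M) ∈ v9Pow p N (k + 1)
    rw [AddSubgroup.coe_nsmul, hz, smul_add, ← mul_smul]
    refine (mem_v9Pow p N (k + 1) _).2 ⟨p • y, N.nsmul_mem hy p, z, ?_⟩
    rw [pow_succ, mul_comm (p ^ k) p]
  have h2 : ∃ q : v9Pow p N k ⧸ D, q ≠ 0 := by
    by_contra hne
    push Not at hne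
    apply h1
    rw [AddSubgroup.index]
    have hsub : Subsingleton (v9Pow p N k ⧸ D) := ⟨fun a b => by rw [hne a, hne b]⟩
    exact Nat.card_unique
  obtain ⟨q, hq⟩ := h2
  have h3 : addOrderOf q = p := addOrderOf_eq_prime (hp := ⟨hp⟩) (hkill q) hq
  have h4 : addOrderOf q ∣ Nat.card (v9Pow p N k ⧸ D) := addOrderOf_dvd_natCard q
  rw [h3] at h4
  exact Nat.le_of_dvd (Nat.pos_of_ne_zero h0) h4

/-- If `N + p ^ m M` has less than `p ^ m` cosets, then the sequence of the groups `N + p ^ k M` is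
stationary. -/
theorem v9Pow_stationary {p : ℕ} (hp : p.Prime) {M : Type*} [AddCommGroup M] (N : AddSubgroup M)
    (m : ℕ) (h0 : (v9Pow p N m).index ≠ 0) (h1 : (v9Pow p N m).index < p ^ m) :
    ∃ k, ∀ t, v9Pow p N k ≤ v9Pow p N (k + t) := by
  have h2 : ∃ k < m, v9Pow p N k ≤ v9Pow p N (k + 1) := by
    by_contra hcon
    push Not at hcon
    have h3 : ∀ k ≤ m, p ^ k ≤ (v9Pow p N k).index := by
      intro k
      induction k with
      | zero =>
        intro _
        rw [pow_zero]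
        have h5 := v9Pow_ne_zero p N h0 (Nat.zero_le m)
        omega
      | succ k ih =>
        intro hk
        have h4 := ih (by omega)
        have h5 := hcon k (by omega)
        have h6 := v9Pow_succ_le p N k
        have h7 := AddSubgroup.relIndex_mul_index h6
        have h8 : (v9Pow p N (k + 1)).relIndex (v9Pow p N k) ≠ 1 := by
          rw [Ne, AddSubgroup.relIndex_eq_one]
          exact h5
        have h9 : (v9Pow p N (k + 1)).relIndex (v9Pow p N k) ≠ 0 := by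
          intro h10
          rw [h10, zero_mul] at h7
          exact v9Pow_ne_zero p N h0 hk h7.symm
        have h10 := v9Pow_relIndex hp N k h9 h8
        rw [← h7, pow_succ, mul_comm]
        exact Nat.mul_le_mul h10 h4
    exact absurd (h3 m le_rfl) (by omega)
  obtain ⟨k, -, hk⟩ := h2
  refine ⟨k, fun t => ?_⟩
  induction t with
  | zero => exact le_refl _
  | succ t ih =>
    intro x hx
    obtain ⟨y, hy, z, rfl⟩ := (mem_v9Pow p N (k + t) x).1 (ih hx)
    have h3 : (p ^ k : ℕ) • z ∈ v9Pow p N (k + 1) :=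
      hk ((mem_v9Pow p N k _).2 ⟨0, zero_mem _, z, by rw [zero_add]⟩)
    obtain ⟨y', hy', z', h4⟩ := (mem_v9Pow p N (k + 1) _).1 h3
    refine (mem_v9Pow p N (k + (t + 1)) _).2 ⟨y + (p ^ t : ℕ) • y', add_mem hy
      (N.nsmul_mem hy' _), z', ?_⟩
    rw [add_comm k t, pow_add, mul_smul, h4, smul_add, ← mul_smul, ← pow_add, add_assoc]
    congr 4
    omega

/-- A finitely generated abelian group `M`, covered by at most `p ^ b` cosets of `N + p ^ m M`. -/
theorem v9_group {p : ℕ} (hp : p.Prime) {M : Type*} [AddCommGroup M] [Module.Finite ℤ M]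
    (N : Submodule ℤ M) (m b : ℕ) (T : Finset M) (hT : T.card ≤ p ^ b)
    (h : ∀ y, ∃ t ∈ T, ∃ n ∈ N, ∃ x, y = t + (n + (p ^ m : ℕ) • x)) :
    Module.finrank ℤ N ≤ Module.finrank ℤ M ∧
      m * (Module.finrank ℤ M - Module.finrank ℤ N) ≤ b := by
  classical
  have e1 : Module.finrank ℤ (M ⧸ N) + Module.finrank ℤ N = Module.finrank ℤ M :=
    Submodule.finrank_quotient_add_finrank N
  refine ⟨by omega, ?_⟩
  obtain ⟨r, hr⟩ : ∃ r, r = Module.finrank ℤ (M ⧸ N) := ⟨_, rfl⟩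
  have e2 : Module.finrank ℤ M - Module.finrank ℤ N = r := by omega
  rw [e2]
  have e3 : Module.finrank ℤ ((M ⧸ N) ⧸ Submodule.torsion ℤ (M ⧸ N)) = r := by
    rw [hr]
    unfold Module.finrank
    rw [rank_quotient_eq_of_le_torsion (le_refl _)]
  have hfree : Module.Free ℤ ((M ⧸ N) ⧸ Submodule.torsion ℤ (M ⧸ N)) := inferInstance
  let B := Module.finBasis ℤ ((M ⧸ N) ⧸ Submodule.torsion ℤ (M ⧸ N))
  let φ : M →ₗ[ℤ] (Fin (Module.finrank ℤ ((M ⧸ N) ⧸ Submodule.torsion ℤ (M ⧸ N))) → ℤ) :=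
    (B.equivFun.toLinearMap).comp ((Submodule.mkQ _).comp (Submodule.mkQ N))
  have hφ : Function.Surjective φ :=
    B.equivFun.surjective.comp ((Submodule.mkQ_surjective _).comp (Submodule.mkQ_surjective N))
  have hφN : ∀ n ∈ N, φ n = 0 := by
    intro n hn
    have h1 : Submodule.mkQ N n = 0 := by
      rw [Submodule.mkQ_apply]
      exact (Submodule.Quotient.mk_eq_zero N).2 hn
    show B.equivFun (Submodule.mkQ _ (Submodule.mkQ N n)) = 0
    rw [h1, map_zero, map_zero]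
  let ψ : M → (Fin (Module.finrank ℤ ((M ⧸ N) ⧸ Submodule.torsion ℤ (M ⧸ N))) →
      ZMod (p ^ m)) := fun y i => ((φ y i : ℤ) : ZMod (p ^ m))
  have hψ : Function.Surjective ψ := by
    intro z
    choose w hw using fun i => ZMod.intCast_surjective (z i)
    obtain ⟨y, hy⟩ := hφ w
    refine ⟨y, funext fun i => ?_⟩
    show ((φ y i : ℤ) : ZMod (p ^ m)) = z i
    rw [hy, hw]
  have hψT : ∀ z, ∃ t ∈ T, ψ t = z := by
    intro z
    obtain ⟨y, rfl⟩ := hψ z
    obtain ⟨t, ht, n, hn, x, rfl⟩ := h y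
    refine ⟨t, ht, funext fun i => ?_⟩
    show ((φ t i : ℤ) : ZMod (p ^ m)) = ((φ (t + (n + (p ^ m : ℕ) • x)) i : ℤ) : ZMod (p ^ m))
    rw [map_add, map_add, hφN n hn, map_nsmul, zero_add, Pi.add_apply, Pi.smul_apply,
      nsmul_eq_mul]
    push_cast
    have h2 : ((p : ZMod (p ^ m)) ^ m) = 0 := by
      have h3 := ZMod.natCast_self (p ^ m)
      push_cast at h3
      exact h3
    rw [h2, zero_mul, add_zero]
  have hcard : Nat.card (Fin (Module.finrank ℤ ((M ⧸ N) ⧸ Submodule.torsion ℤ (M ⧸ N))) →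
      ZMod (p ^ m)) ≤ T.card := by
    have h1 : Function.Surjective fun t : T => ψ (t : M) := by
      intro z
      obtain ⟨t, ht, h2⟩ := hψT z
      exact ⟨⟨t, ht⟩, h2⟩
    have h2 := Nat.card_le_card_of_surjective _ h1
    have h3 : Nat.card T = T.card := by simp
    rwa [h3] at h2
  rw [Nat.card_fun, Nat.card_zmod, Nat.card_fin, e3, ← pow_mul] at hcard
  exact (Nat.pow_le_pow_iff_right hp.one_lt).1 (hcard.trans hT)

end group

section rank

variable {K : Type u} [Field K] [NumberField K]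

/-- From the cover of the points invariant modulo `A[n]` to the cover of `A(L)`. -/
theorem v9_mulCover (A : Over (Spec (.of K))) [GrpObj A] [IsAbVar A]
    (L : IntermediateField K (AlgebraicClosure K)) (n k : ℕ) (hn : n ≠ 0)
    (N : AddSubgroup (Pts A (AlgebraicClosure K))) (hN : ∀ x, x ∈ N ↔ n • x = 0)
    (hc : CosetCover (ratPts A L.fixingSubgroup N)
      (ratPts A ⊤ N ⊔ ratPts A L.fixingSubgroup ⊥) k) : MulCover A L n k := by
  obtain ⟨T, hT, h1, h2⟩ := v8_div A L.fixingSubgroup ⊤ n N hN (gc_div A n hn) _ hc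
  refine ⟨T, hT, h1, fun y hy => ?_⟩
  obtain ⟨t, ht, y0, x, h3, h4, h5⟩ := h2 y hy
  exact ⟨t, ht, y0, x, fun s => h3 s (Subgroup.mem_top s), h4, h5⟩

/-- The bound for the rank. -/
theorem v9_rank {p : ℕ} (hp : p.Prime) (L : IntermediateField K (AlgebraicClosure K))
    [FiniteDimensional K L] (A : Over (Spec (.of K))) [GrpObj A] [IsAbVar A]
    (hMW : Module.Finite ℤ (Pts A L)) (m b : ℕ) (hb : MulCover A L (p ^ m) (p ^ b)) :
    rk A ⊥ ≤ rk A L ∧ m * (rk A L - rk A ⊥) ≤ b := by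
  classical
  obtain ⟨T, hT, hT1, hT2⟩ := hb
  set j := ptsa_j A (bot_le : ⊥ ≤ L) with hj
  let N : Submodule ℤ (Pts A L) := LinearMap.range j.toIntLinearMap
  have hinj : Function.Injective j.toIntLinearMap := sp_j_inj A _
  have h4 : Module.finrank ℤ (Pts A (⊥ : IntermediateField K (AlgebraicClosure K))) =
      Module.finrank ℤ N := (LinearEquiv.ofInjective j.toIntLinearMap hinj).finrank_eq
  have hc : ∀ t : T, ∃ t' : Pts A L, toBar A L t' = (t : Pts A (AlgebraicClosure K)) := by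
    rintro ⟨t, ht⟩
    obtain ⟨t', ht'⟩ := sp_bar_of_fixed A L t (hT1 t ht)
    exact ⟨t', ht'⟩
  choose τ hτ using hc
  have h5 := v9_group hp N m b (Finset.univ.image τ) (by
      refine Finset.card_image_le.trans ?_
      rw [Finset.card_univ, Fintype.card_coe]
      exact hT) fun y => by
    obtain ⟨t, ht, y0, z, hy0, hz, he⟩ := hT2 (toBar A L y)
      (fun s hs' => sp_bar_fix A L s hs' y)
    obtain ⟨y1, rfl⟩ := sp_bar_of_fixed A ⊥ y0 (fun s _ => hy0 s)
    obtain ⟨z1, rfl⟩ := sp_bar_of_fixed A L z hz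
    refine ⟨τ ⟨t, ht⟩, Finset.mem_image_of_mem _ (Finset.mem_univ _), j y1, ⟨y1, rfl⟩, z1, ?_⟩
    apply sp_bar_inj A L
    rw [he, map_add, map_add, hj, sp_bar_j, map_nsmul, hτ]
  unfold rk
  rw [h4]
  exact h5

/-- Equality of ranks, if `A(L)` is the union of less than `p ^ m` cosets of `A(K) + p ^ m A(L)`. -/
theorem v9_lt {p : ℕ} (hp : p.Prime) (L : IntermediateField K (AlgebraicClosure K))
    [FiniteDimensional K L] (A : Over (Spec (.of K))) [GrpObj A] [IsAbVar A] (m b : ℕ)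
    (hbm : b < m) (hq : MulCover A L (p ^ m) (p ^ b)) :
    ¬ NewPoint A L ∧ rk A L = rk A ⊥ := by
  classical
  have hpf : Fact p.Prime := ⟨hp⟩
  set j := ptsa_j A (bot_le : ⊥ ≤ L) with hj
  obtain ⟨T, hT, hT1, hT2⟩ := hq
  have key : ∀ x : Pts A L, ∃ t ∈ T, ∃ y z, toBar A L x = t + toBar A L (j y + (p ^ m : ℕ) • z) := by
    intro x
    obtain ⟨t, ht, y0, z, hy0, hz, he⟩ := hT2 (toBar A L x) (fun s hs' => sp_bar_fix A L s hs' x)
    obtain ⟨y1, rfl⟩ := sp_bar_of_fixed A ⊥ y0 (fun s _ => hy0 s)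
    obtain ⟨z1, rfl⟩ := sp_bar_of_fixed A L z hz
    refine ⟨t, ht, y1, z1, ?_⟩
    rw [he, map_add, hj, sp_bar_j, map_nsmul]
  choose τ hτ y z hyz using key
  have hinj := sp_bar_inj A L
  have h1 : ∀ x x', τ x = τ x' → x - x' ∈ v9Pow p j.range m := by
    intro x x' hxx
    rw [mem_v9Pow]
    refine ⟨j (y x - y x'), ⟨_, rfl⟩, z x - z x', ?_⟩
    apply hinj
    rw [map_sub, hyz x, hyz x', hxx, map_sub j, smul_sub]
    rw [show j (y x) - j (y x') + ((p ^ m : ℕ) • z x - (p ^ m : ℕ) • z x') =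
      (j (y x) + (p ^ m : ℕ) • z x) - (j (y x') + (p ^ m : ℕ) • z x') by abel, map_sub]
    abel
  let F : T → Pts A L ⧸ v9Pow p j.range m := fun t =>
    if ht : ∃ x, τ x = t then QuotientAddGroup.mk ht.choose else 0
  have hF : Function.Surjective F := by
    intro q
    obtain ⟨x, rfl⟩ := QuotientAddGroup.mk_surjective q
    refine ⟨⟨τ x, hτ x⟩, ?_⟩
    have ht : ∃ x', τ x' = ((⟨τ x, hτ x⟩ : T) : Pts A (AlgebraicClosure K)) := ⟨x, rfl⟩
    have e : F ⟨τ x, hτ x⟩ = QuotientAddGroup.mk ht.choose := dif_pos ht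
    rw [e, QuotientAddGroup.eq]
    have h2 := h1 x ht.choose ht.choose_spec.symm
    rwa [sub_eq_neg_add] at h2
  have hfin : Finite (Pts A L ⧸ v9Pow p j.range m) := Finite.of_surjective F hF
  have hcard : (v9Pow p j.range m).index ≤ p ^ b := by
    have h2 := Nat.card_le_card_of_surjective F hF
    have h3 : Nat.card T = T.card := by rw [Nat.card_eq_fintype_card, Fintype.card_coe]
    exact (h2.trans_eq h3).trans hT
  have h0 : (v9Pow p j.range m).index ≠ 0 := by
    show Nat.card (Pts A L ⧸ v9Pow p j.range m) ≠ 0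
    exact Nat.card_pos.ne'
  obtain ⟨k, hk⟩ := v9Pow_stationary hp j.range m h0
    (hcard.trans_lt (Nat.pow_lt_pow_right hp.one_lt hbm))
  have h2 : ∀ x : Pts A L, ∃ N : ℕ, 0 < N ∧ N • x ∈ j.range := by
    intro x
    obtain ⟨N, hN, w, hw⟩ := vp_multiple p L A ((p ^ k : ℕ) • x) (by
      intro t
      have h3 : (p ^ k : ℕ) • x ∈ v9Pow p j.range (k + t) :=
        hk t ((mem_v9Pow p _ k _).2 ⟨0, zero_mem _, x, by rw [zero_add]⟩)
      obtain ⟨_, ⟨a, rfl⟩, c, h4⟩ := (mem_v9Pow p _ _ _).1 h3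
      refine ⟨a, (p ^ k : ℕ) • c, ?_⟩
      rw [h4, ← mul_smul, ← pow_add, add_comm t k])
    refine ⟨N * Module.finrank K L * p ^ k, ?_, w, ?_⟩
    · have hN0 : N ≠ 0 := by
        rintro rfl
        rw [Nat.coprime_zero_left] at hN
        exact hp.one_lt.ne' hN
      have h5 := Module.finrank_pos (R := K) (M := L)
      have h6 := pow_pos hp.pos k
      exact Nat.mul_pos (Nat.mul_pos (Nat.pos_of_ne_zero hN0) h5) h6
    · rw [mul_smul]
      exact hw
  refine ⟨?_, ?_⟩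
  · rintro ⟨x, hx, hx'⟩
    obtain ⟨y, rfl⟩ := sp_bar_of_fixed A L x hx
    obtain ⟨n, hn, z, hz⟩ := h2 y
    obtain ⟨s, hs⟩ := hx' n hn
    apply hs
    rw [← map_nsmul, ← hz]
    have h6 : toBar A L (ptsa_j A (bot_le : ⊥ ≤ L) z) = toBar A ⊥ z := sp_bar_j A _ z
    rw [h6]
    exact sp_bar_fix A ⊥ s (by rw [IntermediateField.fixingSubgroup_bot]; trivial) z
  · let R : Submodule ℤ (Pts A L) := LinearMap.range j.toIntLinearMap
    have hinj' : Function.Injective j.toIntLinearMap := sp_j_inj A _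
    have h4 : Module.rank ℤ (Pts A (⊥ : IntermediateField K (AlgebraicClosure K))) =
        Module.rank ℤ (Pts A L) := by
      rw [← vp_rank_eq R (fun x => by
        obtain ⟨N, hN, y, hy⟩ := h2 x
        exact ⟨N, hN.ne', y, hy⟩)]
      exact (LinearEquiv.ofInjective j.toIntLinearMap hinj').rank_eq
    unfold rk Module.finrank
    rw [h4]

end rank

end Pool.Agent.H.MP_ac3185_nt
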