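import Pool.Agent.H.MP_ac3185_nt.V9.Char
import Pool.Agent.H.MP_ac3185_nt.V8.Split

/-! The points with trivial class. -/

set_option autoImplicit false

open CategoryTheory AlgebraicGeometry NumberField IsDedekindDomain
open scoped MonObj

namespace Pool.Agent.H.MP_ac3185_nt

universe u

section split

variable {K : Type u} [Field K] {A : Over (Spec (.of K))} [GrpObj A] [IsAbVar A] {p : ℕ}
  (L F : IntermediateField K (AlgebraicClosure K))
  {N N' : AddSubgroup (Pts A (AlgebraicClosure K))}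
  {ψ : Pts A (AlgebraicClosure K) → AlgebraicClosure K}

/-- Representatives which act trivially on `N' / N` and the `p`-th roots of unity. -/
theorem v9_rep (hf : CharFrame p F N N' ψ)
    (hlin : ∀ s, ∃ t ∈ L.fixingSubgroup, (∀ x ∈ N', act A (t⁻¹ * s) x - x ∈ N) ∧
      ∀ z : AlgebraicClosure K, z ^ p = 1 → (t⁻¹ * s) z = z)
    (s : AlgebraicClosure K ≃ₐ[K] AlgebraicClosure K) :
    ∃ t ∈ v9Triv hf, t⁻¹ * s ∈ L.fixingSubgroup := by
  obtain ⟨t, ht, hw⟩ := hlin s⁻¹
  have h1 : t⁻¹ * s⁻¹ ∈ v9Triv hf := hw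
  refine ⟨(t⁻¹ * s⁻¹)⁻¹, inv_mem h1, ?_⟩
  have h2 : ((t⁻¹ * s⁻¹)⁻¹)⁻¹ * s = t⁻¹ := by group
  rw [h2]
  exact inv_mem ht

/-- `L` and `F` are linearly disjoint. -/
theorem v9_transOn (hf : CharFrame p F N N' ψ)
    (hlin : ∀ s, ∃ t ∈ L.fixingSubgroup, (∀ x ∈ N', act A (t⁻¹ * s) x - x ∈ N) ∧
      ∀ z : AlgebraicClosure K, z ^ p = 1 → (t⁻¹ * s) z = z) :
    TransOn L F.fixingSubgroup := by
  intro s
  obtain ⟨t, ht, h1⟩ := v9_rep L F hf hlin s
  exact ⟨t, hf.sub t ht.1 ht.2, h1⟩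

/-- If `β` is rational over `L` modulo `N'` and `ψ(s β - β) = 1` for all `s` in `Gal(Kbar/LF)`, then
`β` is the sum of a point which is rational over `K` modulo `N'` and a point which is rational over `L`
modulo `N`. -/
theorem v9_split [CharZero K] [FiniteDimensional K L]
    (hn : (Module.finrank K L).Coprime p) (hf : CharFrame p F N N' ψ)
    (hlin : ∀ s, ∃ t ∈ L.fixingSubgroup, (∀ x ∈ N', act A (t⁻¹ * s) x - x ∈ N) ∧
      ∀ z : AlgebraicClosure K, z ^ p = 1 → (t⁻¹ * s) z = z)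
    {β : Pts A (AlgebraicClosure K)} (hβ : β ∈ ratPts A L.fixingSubgroup N')
    (hH : ∀ s ∈ L.fixingSubgroup, s ∈ F.fixingSubgroup → ψ (act A s β - β) = 1) :
    ∃ y0 x, y0 ∈ ratPts A ⊤ N' ∧ x ∈ ratPts A L.fixingSubgroup N ∧ β = y0 + x := by
  classical
  have hfi := vn_finiteIndex L
  let _ := L.fixingSubgroup.fintypeQuotientOfFiniteIndex
  -- modulo `N`, `β` is fixed by the elements which act trivially on `N' / N`
  have hfix : ∀ v ∈ L.fixingSubgroup, v ∈ v9Triv hf → act A v β - β ∈ N := by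
    intro v hv hvW
    refine hf.core _ (hβ v hv) fun g0 => ?_
    obtain ⟨t, ht, hts⟩ := v9_rep L F hf hlin g0⁻¹
    set l := t⁻¹ * g0⁻¹ with hl
    have hlL : l⁻¹ ∈ L.fixingSubgroup := inv_mem hts
    have hv' : l⁻¹ * v * l ∈ v9Triv hf := by
      have h2 := v9_triv_conj hf (s := l⁻¹) hvW
      rwa [inv_inv] at h2
    have hvL : l⁻¹ * v * l ∈ L.fixingSubgroup := mul_mem (mul_mem hlL hv) hts
    have e1 : ψ (act A l⁻¹ (act A v β - β)) = 1 := by
      have h4 : act A l⁻¹ (act A v β - β) = (act A (l⁻¹ * v * l) β - β) +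
          (act A (l⁻¹ * v * l) (act A l⁻¹ β - β) - (act A l⁻¹ β - β)) := by
        have h5 : act A (l⁻¹ * v * l) (act A l⁻¹ β) = act A l⁻¹ (act A v β) := by
          rw [← v2s_act_mul, ← v2s_act_mul]
          congr 1
          group
        rw [v2s_act_sub, v2s_act_sub, h5]
        abel
      rw [h4, v9_congr hf (hβ _ hvL) (by
        rw [add_sub_cancel_left]
        exact hv'.1 _ (hβ _ hlL))]
      exact hH _ hvL (hf.sub _ hv'.1 hv'.2)
    have e2 : act A g0 (act A v β - β) - act A l⁻¹ (act A v β - β) ∈ N := by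
      have h5 : g0 = l⁻¹ * t⁻¹ := by
        rw [hl]
        group
      have h6 : t⁻¹ ∈ v9Triv hf := inv_mem ht
      have h7 := hf.stabN l⁻¹ _ (h6.1 _ (hβ v hv))
      rw [v2s_act_sub, ← v2s_act_mul, ← h5] at h7
      exact h7
    rw [v9_congr hf (hf.stabN' _ _ (hβ v hv)) e2]
    exact e1
  -- representatives which act trivially on `N' / N`
  have hrep : ∀ q : (AlgebraicClosure K ≃ₐ[K] AlgebraicClosure K) ⧸ L.fixingSubgroup,
      ∃ w, w ∈ v9Triv hf ∧
        (w : (AlgebraicClosure K ≃ₐ[K] AlgebraicClosure K) ⧸ L.fixingSubgroup) = q := by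
    intro q
    obtain ⟨g, rfl⟩ := QuotientGroup.mk_surjective q
    obtain ⟨t, ht, hts⟩ := v9_rep L F hf hlin g
    refine ⟨t, ht, ?_⟩
    rw [QuotientGroup.eq]
    exact hts
  choose ρ hρ hρq using hrep
  obtain ⟨β2, hβ2⟩ : ∃ β2, β2 = ∑ q, act A (ρ q) β := ⟨_, rfl⟩
  have hβ2G : β2 ∈ ratPts A ⊤ N' := by
    rw [hβ2]
    exact v8_trace L ⊤ hf.stabN' ρ (fun q => Subgroup.mem_top _) hρq β
      (fun s hs => hβ s hs.1)
  have hcard : Fintype.card ((AlgebraicClosure K ≃ₐ[K] AlgebraicClosure K) ⧸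
      L.fixingSubgroup) = Module.finrank K L := vn_card L
  have hdiff : ∀ g ∈ L.fixingSubgroup,
      (act A g β2 - β2) - Module.finrank K L • (act A g β - β) ∈ N := by
    intro g hg
    let w : (AlgebraicClosure K ≃ₐ[K] AlgebraicClosure K) ⧸ L.fixingSubgroup →
      AlgebraicClosure K ≃ₐ[K] AlgebraicClosure K := fun q => (ρ (g • q))⁻¹ * (g * ρ q)
    have hgw : ∀ q, g * ρ q = ρ (g • q) * w q := fun q => by
      show g * ρ q = ρ (g • q) * ((ρ (g • q))⁻¹ * (g * ρ q))
      rw [mul_inv_cancel_left]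
    have hwL : ∀ q, w q ∈ L.fixingSubgroup := by
      intro q
      show (ρ (g • q))⁻¹ * (g * ρ q) ∈ L.fixingSubgroup
      have h1 : ((g * ρ q : AlgebraicClosure K ≃ₐ[K] AlgebraicClosure K) :
          (AlgebraicClosure K ≃ₐ[K] AlgebraicClosure K) ⧸ L.fixingSubgroup) = g • q := by
        rw [← smul_eq_mul, ← MulAction.Quotient.smul_coe, hρq]
      rw [← QuotientGroup.eq, hρq, h1]
    have hwg : ∀ q, act A (w q) β - act A g β ∈ N := by
      intro q
      have h1 : w q * g⁻¹ ∈ v9Triv hf := by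
        have h2 : w q * g⁻¹ = (ρ (g • q))⁻¹ * (g * ρ q * g⁻¹) := by
          show (ρ (g • q))⁻¹ * (g * ρ q) * g⁻¹ = _
          group
        rw [h2]
        exact mul_mem (inv_mem (hρ _)) (v9_triv_conj hf (hρ q))
      have h2 : w q * g⁻¹ ∈ L.fixingSubgroup := mul_mem (hwL q) (inv_mem hg)
      have h3 : w q = (w q * g⁻¹) * g := by group
      have h4 := N.add_mem (h1.1 _ (hβ g hg)) (hfix _ h2 h1)
      rw [v2s_act_sub, ← v2s_act_mul, ← h3] at h4
      have h5 : act A (w q) β - act A (w q * g⁻¹) β - (act A g β - β) +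
          (act A (w q * g⁻¹) β - β) = act A (w q) β - act A g β := by abel
      rwa [h5] at h4
    have h1 : ∀ q, act A g (act A (ρ q) β) - (act A (ρ (g • q)) β + (act A g β - β)) ∈ N := by
      intro q
      have h2 := N.add_mem ((hρ (g • q)).1 _ (hβ g hg)) (hf.stabN (ρ (g • q)) _ (hwg q))
      rw [v2s_act_sub, v2s_act_sub, ← v2s_act_mul _ _ (w q), ← hgw, v2s_act_mul] at h2
      have h5 : act A (ρ (g • q)) (act A g β) - act A (ρ (g • q)) β - (act A g β - β) +
          (act A g (act A (ρ q) β) - act A (ρ (g • q)) (act A g β)) =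
          act A g (act A (ρ q) β) - (act A (ρ (g • q)) β + (act A g β - β)) := by abel
      rwa [h5] at h2
    have e2 : ∑ q, act A (ρ (g • q)) β = ∑ q, act A (ρ q) β :=
      Equiv.sum_comp (MulAction.toPerm g) (fun q : (AlgebraicClosure K ≃ₐ[K]
        AlgebraicClosure K) ⧸ L.fixingSubgroup => act A (ρ q) β)
    have h2 := N.sum_mem (t := Finset.univ) fun q _ => h1 q
    rw [Finset.sum_sub_distrib, Finset.sum_add_distrib, e2, Finset.sum_const, Finset.card_univ,
      hcard, ← v2s_act_sum, ← hβ2] at h2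
    have h5 : act A g β2 - (β2 + Module.finrank K L • (act A g β - β)) =
        (act A g β2 - β2) - Module.finrank K L • (act A g β - β) := by abel
    rwa [h5] at h2
  -- Bezout
  obtain ⟨a, b, hab⟩ : ∃ a b : ℤ, a * Module.finrank K L + b * p = 1 := by
    have h1 := Nat.gcd_eq_gcd_ab (Module.finrank K L) p
    rw [hn, Nat.cast_one] at h1
    exact ⟨(Module.finrank K L).gcdA p, (Module.finrank K L).gcdB p, by
      rw [h1, mul_comm, mul_comm ((Module.finrank K L).gcdB p)]⟩
  have hzs : ∀ (s : AlgebraicClosure K ≃ₐ[K] AlgebraicClosure K) (k : ℤ)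
      (x : Pts A (AlgebraicClosure K)), act A s (k • x) = k • act A s x :=
    fun s k x => map_zsmul (galHom A s) k x
  refine ⟨a • β2, β - a • β2, (ratPts A ⊤ N').zsmul_mem hβ2G a, fun s hs => ?_, by abel⟩
  have h1 := N.neg_mem (N.zsmul_mem (hdiff s hs) a)
  have h2 : b • (p • (act A s β - β)) ∈ N := N.zsmul_mem (v9_smul_mem hf (hβ s hs)) b
  have h3 := N.add_mem h1 h2
  have h4 : -(a • (act A s β2 - β2 - Module.finrank K L • (act A s β - β))) +
      b • (p • (act A s β - β)) = act A s (β - a • β2) - (β - a • β2) := by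
    have h5 : act A s β - β = (a * Module.finrank K L + b * p : ℤ) • (act A s β - β) := by
      rw [hab, one_smul]
    have h6 : act A s (β - a • β2) - (β - a • β2) =
        (act A s β - β) - a • (act A s β2 - β2) := by
      rw [v2s_act_sub, hzs, smul_sub]
      abel
    rw [h6]
    conv_rhs => rw [h5]
    rw [add_smul, mul_smul, mul_smul, natCast_zsmul, natCast_zsmul, smul_sub a]
    abel
  rwa [h4] at h3

end split

end Pool.Agent.H.MP_ac3185_nt
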