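import Pool.Agent.H.MP_ac3185_nt.V9.LayersP

/-! The relation given by the product of all conjugates of `ψ`. -/

set_option autoImplicit false

open CategoryTheory AlgebraicGeometry NumberField IsDedekindDomain
open scoped MonObj

namespace Pool.Agent.H.MP_ac3185_nt

universe u

section field

variable {K : Type u} [Field K] [CharZero K] {F : IntermediateField K (AlgebraicClosure K)}
  {A : Over (Spec (.of K))} [GrpObj A] [IsAbVar A]
  {N N' : AddSubgroup (Pts A (AlgebraicClosure K))}
  {ψ : Pts A (AlgebraicClosure K) → AlgebraicClosure K}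

/-- If `N' / N` is simple and `F` is the field of the stabilizer of `ψ ≠ 1`, then `F = K` or the product
of all conjugates of `ψ` is trivial. -/
theorem v9_univ_rel {p : ℕ} (hp : p.Prime) [FiniteDimensional K F]
    (hf : SimpleChar p F N N' ψ) :
    F = ⊥ ∨ ∀ x ∈ N', ∏ᶠ q, conjChar F ψ q x ^ (1 : ℤ) = 1 := by
  classical
  have hfi := vn_finiteIndex F
  let _ := F.fixingSubgroup.fintypeQuotientOfFiniteIndex
  have hc := hf.toCharFrame
  obtain ⟨ω, hω⟩ : ∃ ω : Pts A (AlgebraicClosure K) → AlgebraicClosure K,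
      ∀ x, ω x = ∏ q, conjChar F ψ q x := ⟨_, fun _ => rfl⟩
  have hωf : ∀ x, ∏ᶠ q, conjChar F ψ q x ^ (1 : ℤ) = ω x := by
    intro x
    rw [hω, finprod_eq_prod_of_fintype]
    exact Finset.prod_congr rfl fun q _ => zpow_one _
  have hmul : ∀ x ∈ N', ∀ y ∈ N', ω (x + y) = ω x * ω y := by
    intro x hx y hy
    rw [hω, hω, hω, ← Finset.prod_mul_distrib]
    exact Finset.prod_congr rfl fun q _ => v9_conj_mul hc q hx hy
  have hpow : ∀ x ∈ N', ω x ^ p = 1 := by
    intro x hx
    rw [hω, ← Finset.prod_pow]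
    exact Finset.prod_eq_one fun q _ => v9_conj_pow hc q hx
  have htriv : ∀ x ∈ N, ω x = 1 := by
    intro x hx
    rw [hω]
    refine Finset.prod_eq_one fun q _ => ?_
    unfold conjChar
    rw [hc.triv _ (hc.stabN _ x hx), map_one]
  have hact : ∀ s, ∀ x ∈ N', ω (act A s x) = s (ω x) := by
    intro s x hx
    rw [hω, hω, map_prod]
    refine (Fintype.prod_equiv (MulAction.toPerm s) _ _ fun q => ?_).symm
    exact (v9_conj_act hc s q hx).symm
  have hsmul : ∀ x ∈ N', ∀ n : ℕ, ω (n • x) = ω x ^ n := by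
    intro x hx n
    induction n with
    | zero => rw [zero_smul, pow_zero, htriv 0 N.zero_mem]
    | succ n ih => rw [succ_nsmul, hmul _ (N'.nsmul_mem hx n) _ hx, ih, pow_succ]
  have hne0 : ∀ x ∈ N', ω x ≠ 0 := by
    intro x hx h
    have h1 := hpow x hx
    rw [h, zero_pow hp.ne_zero] at h1
    exact zero_ne_one h1
  let M : AddSubgroup (Pts A (AlgebraicClosure K)) :=
    { carrier := {x | x ∈ N' ∧ ω x = 1}
      zero_mem' := ⟨N'.zero_mem, htriv 0 N.zero_mem⟩
      add_mem' := fun {x y} hx hy => ⟨N'.add_mem hx.1 hy.1, by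
        rw [hmul x hx.1 y hy.1, hx.2, hy.2, mul_one]⟩
      neg_mem' := fun {x} hx => ⟨N'.neg_mem hx.1, by
        have h1 := hmul x hx.1 (-x) (N'.neg_mem hx.1)
        rw [add_neg_cancel, htriv 0 N.zero_mem, hx.2, one_mul] at h1
        exact h1.symm⟩ }
  have hM : ∀ x, x ∈ M ↔ x ∈ N' ∧ ω x = 1 := fun _ => Iff.rfl
  rcases hf.simple M (fun x hx => ⟨hf.lt.le hx, htriv x hx⟩)
    (fun x hx => hx.1) (fun s x hx => ⟨hc.stabN' s x hx.1, by
      rw [hact s x hx.1, hx.2, map_one]⟩) with h | h
  · left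
    -- `ψ` is stable under the Galois group
    have hst : ∀ s, ∀ x ∈ N', ψ (act A s x) = s (ψ x) := by
      intro s x hx
      by_cases hxN : x ∈ N
      · rw [hc.triv _ (hc.stabN s x hxN), hc.triv x hxN, map_one]
      · have hζ1 : ω x ≠ 1 := by
          intro h1
          apply hxN
          rw [← h]
          exact ⟨hx, h1⟩
        have hprim : IsPrimitiveRoot (ω x) p := by
          have _ : Fact p.Prime := ⟨hp⟩
          have h1 : orderOf (ω x) = p := orderOf_eq_prime (hpow x hx) hζ1
          rw [← h1]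
          exact IsPrimitiveRoot.orderOf (ω x)
        have _ : NeZero p := ⟨hp.ne_zero⟩
        -- `s ζ = ζ ^ a`
        have h2 : (s (ω x)) ^ p = 1 := by rw [← map_pow, hpow x hx, map_one]
        obtain ⟨a, -, ha⟩ := hprim.eq_pow_of_pow_eq_one h2
        have h3 : act A s x - a • x ∈ N := by
          rw [← h]
          refine ⟨N'.sub_mem (hc.stabN' s x hx) (N'.nsmul_mem hx a), ?_⟩
          have h4 := hmul _ (N'.sub_mem (hc.stabN' s x hx) (N'.nsmul_mem hx a)) _
            (N'.nsmul_mem hx a)
          rw [sub_add_cancel, hact s x hx, hsmul x hx a, ← ha] at h4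
          have h5 : ω x ^ a ≠ 0 := pow_ne_zero a (hne0 x hx)
          exact (mul_left_eq_self₀.1 h4.symm).resolve_right h5
        have h4 : ψ (act A s x) = ψ x ^ a := by
          have h5 := v9_congr hc (N'.nsmul_mem hx a) h3
          rw [h5, v9_nsmul hc hx]
        obtain ⟨k, -, hk⟩ := hprim.eq_pow_of_pow_eq_one (hc.pow x hx)
        rw [h4, ← hk, map_pow, ← ha, ← pow_mul, ← pow_mul, mul_comm]
    have htop : F.fixingSubgroup = ⊤ := by
      rw [eq_top_iff]
      intro s _
      exact hf.stabF s (hst s)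
    have h1 : Module.finrank K F = 1 := by
      rw [← vn_index, htop, Subgroup.index_top]
    exact IntermediateField.finrank_eq_one_iff.1 h1
  · right
    intro x hx
    have h1 : x ∈ M := by
      rw [h]
      exact hx
    rw [hωf]
    exact h1.2

end field

end Pool.Agent.H.MP_ac3185_nt
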